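import Pool.Agent.MP_7f38c2_co.H28.Spec

/-! Every letter off the distinguished route is highly connected or anchored. -/

namespace Pool.Agent.MP_7f38c2_co.H28

open Classical

universe u

namespace ANCH

variable {V E L : Type u} {G : Gr V E} {D : Set V} {I : Type} {α β : Option I → V}
  (σ : St G D (G.In D) 63000 α β (CapT I) L)

/-- the route an auxiliary edge belongs to -/
def Own (x : E ⊕ I × ℕ) (i : I) : Prop :=
  Sum.elim (fun g => g ∈ (σ.r (some i)).es) (fun p => p.1 = i) x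

lemma own_uniq {x : E ⊕ I × ℕ} {i i' : I} (h : Own σ x i) (h' : Own σ x i') : i = i' := by
  rcases x with g | p
  · by_contra hne
    exact Set.disjoint_left.mp (σ.dis fun e => hne (Option.some_injective _ e)) h h'
  · exact h.symm.trans h'

lemma pi_inr {v : V} (hv : v ∈ D) (h : ¬ σ.Vis none (σ.l v)) : σ.pi v = Sum.inr (σ.l v) :=
  if_pos ⟨hv, h⟩

lemma cross (U : Set (V ⊕ L)) (i : I)
    (h : ∀ x ∈ σ.NN ∩ (σ.aug.map σ.pi).cut U, ¬ Own σ x i) : ∀ k ≤ (σ.r (some i)).n,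
      (σ.pi ((σ.r (some i)).w k) ∈ U ↔ σ.pi (α (some i)) ∈ U) ∧
      (σ.pi ((σ.r (some i)).w' k) ∈ U ↔ σ.pi (α (some i)) ∈ U) := by
  have h1 : ∀ k ≤ (σ.r (some i)).n,
      (σ.pi ((σ.r (some i)).w k) ∈ U ↔ σ.pi ((σ.r (some i)).w' k) ∈ U) := fun k hk => by
    obtain ⟨a, b, c⟩ := σ.mem (some i) k hk
    by_cases hA : σ.Vis none (σ.l ((σ.r (some i)).w k))
    · by_cases he : (σ.r (some i)).w k = (σ.r (some i)).w' k
      · rw [he]
      · exact not_not.mp fun hc => h (Sum.inr (i, k)) ⟨⟨hk, hA, he⟩, hc⟩ rfl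
    · rw [pi_inr σ a hA, pi_inr σ b (c ▸ hA), c]
  intro k hk
  induction k with
  | zero => rw [← h1 0 hk, (σ.r (some i)).h0, and_self]
  | succ k ih =>
    have h2 : σ.pi ((σ.r (some i)).w' k) ∈ U ↔ σ.pi ((σ.r (some i)).w (k + 1)) ∈ U :=
      not_not.mp fun hc => h (Sum.inl ((σ.r (some i)).e k)) ⟨Or.inl ⟨i, k, hk, rfl⟩,
        (((σ.r (some i)).hj k hk).mem_cut (U := σ.pi ⁻¹' U)).mpr hc⟩ ⟨k, hk, rfl⟩
    rw [← h1 _ hk, ← h2, and_self]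
    exact (ih (by omega)).2

lemma cnt {N : Set (E ⊕ I × ℕ)} {T : Set I} (h : ∀ i ∈ T, ¬ ∀ x ∈ N, ¬ Own σ x i) :
    T.encard ≤ N.encard := by
  have h' : ∀ i : T, ∃ x : N, Own σ x.1 i.1 := fun i => by
    have := h i.1 i.2
    push Not at this
    exact this.elim fun x hx => ⟨⟨x, hx.1⟩, hx.2⟩
  choose f hf using h'
  exact Function.Embedding.encard_le
    ⟨f, fun i i' e => Subtype.ext (own_uniq σ (hf i) (e ▸ hf i'))⟩

lemma nn_finite [Finite I] : σ.NN.Finite := by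
  have h1 := ((Set.finite_iUnion fun i => (σ.r (some i)).es_finite).union
    (σ.fin.biUnion fun q _ => σ.cutf q)).image (Sum.inl : E → E ⊕ I × ℕ)
  have h2 := (Set.finite_iUnion fun i => (Set.finite_Iic (σ.r (some i)).n).image
    fun k => (Sum.inr (i, k) : E ⊕ I × ℕ))
  refine (h1.union h2).subset ?_
  rintro (g | ⟨i, k⟩) h
  · refine Or.inl ⟨g, ?_, rfl⟩
    rcases h with h | ⟨h, -, -, h'⟩
    · exact Or.inl (Set.mem_iUnion.mpr h)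
    · exact Or.inr (Set.mem_biUnion (x := σ.l (G.s g)) ⟨_, h.1.1, rfl⟩
        fun e => h' (Eq.symm (e.mp ⟨h.1.1, rfl⟩).2))
  · exact Or.inr (Set.mem_iUnion.mpr ⟨i, k, h.1, rfl⟩)

lemma cap_none (q : L) : CapT I (insert none (σ.J q)) :=
  le_trans (Set.encard_le_encard fun _ hi => hi.resolve_left (by simp)) (σ.cap q)

lemma bound {κ : ℕ} (hκ : 30000000 ≤ κ) (hD : G.Reg κ D) (hc : σ.Cnt) {U : Set (V ⊕ L)}
    (hU : (σ.NN ∩ (σ.aug.map σ.pi).cut U).encard ≤ 144) (T : Finset I) (hT : T.card ≤ 144)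
    (hv : ∀ i y, σ.Vis (some i) y → ¬ σ.Vis none y → Sum.inr y ∈ U → i ∈ T) {q : L}
    (q1 : q ∈ σ.l '' D) (q2 : ¬ σ.Vis none q) (q3 : Sum.inr q ∈ U)
    (h1 : ∀ y, σ.Vis none y → (σ.btw q {y}).encard ≤ (63000 : ℕ))
    (h2 : (σ.btw q ({y | y ∈ σ.l '' D ∧ Sum.inr y ∈ U ∧ ∀ i, ¬ σ.Vis i y} \ {q})).encard
      ≤ 2 * (63000 : ℕ)) : False := by
  have cap : ∀ W : Set (Option I), (∀ i, some i ∈ W → i ∈ T) → CapT I W := fun W h =>
    (Set.encard_le_encard (t := (T : Set I)) h).trans (by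
      rw [Set.encard_coe_eq_coe_finsetCard]; exact_mod_cast hT)
  have hJ : ∀ i y, ¬ σ.Vis none y → Sum.inr y ∈ U → some i ∈ σ.J y → i ∈ T :=
    fun i y a b ⟨k, hk, e, _⟩ => hv i y ⟨k, hk, e⟩ a b
  have hI : ∀ i ∈ T, ∀ y, ¬ σ.Vis none y → Sum.inr y ∈ U → CapT I (insert (some i) (σ.J y)) :=
    fun i hi y a b => cap _ fun i' h =>
      h.elim (fun e => Option.some_injective _ e ▸ hi) (hJ i' y a b)
  have b1 := hc.two q (T.map Function.Embedding.some) fun i h => by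
    rcases i with _ | i
    · exact absurd h q2
    · exact ⟨Finset.mem_map_of_mem _ (hv i q h q2 q3), hI i (hv i q h q2 q3) q q2 q3⟩
  have b2 := hc.win q {none} {y | σ.Vis none y} 63000 q2
    (fun y hy => ⟨none, Finset.mem_singleton_self _, hy, cap_none σ y, cap_none σ q⟩) h1
  have b3 : (Sum.inl ⁻¹' (σ.NN ∩ (σ.aug.map σ.pi).cut U)).encard ≤ 144 :=
    (Set.encard_le_encard_of_injOn (f := Sum.inl) (fun _ h => h) Sum.inl_injective.injOn).trans hU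
  have b4 := hc.win q (T.map Function.Embedding.some)
    {y | y ≠ q ∧ ¬ σ.Vis none y ∧ Sum.inr y ∈ U ∧ ∃ i, σ.Vis (some i) y} 63000 (fun h => h.1 rfl)
    (fun y ⟨_, a, b, i, h⟩ => ⟨some i, Finset.mem_map_of_mem _ (hv i y h a b), h,
      hI i (hv i y h a b) y a b, hI i (hv i y h a b) q q2 q3⟩)
    fun y ⟨e, a, b, _⟩ => (hc.pair q y e.symm (cap _ fun i h =>
      h.elim (hJ i q q2 q3) (hJ i y a b))).le
  rw [Finset.card_map] at b1 b4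
  obtain ⟨v, hv1, hv2⟩ := q1
  have b0 := hD.2 (D ∩ σ.l ⁻¹' {q}) (spl_of_mem hv1 (σ.mem none 0 (Nat.zero_le _)).1 ⟨hv1, hv2⟩
    fun h => q2 ⟨0, Nat.zero_le _, h.2⟩)
  have sub : G.In D ∩ G.cut (D ∩ σ.l ⁻¹' {q}) ⊆
      ((⋃ i, (σ.r i).es) ∩ G.cut (D ∩ σ.l ⁻¹' {q})) ∪ σ.btw q {y | σ.Vis none y} ∪
      Sum.inl ⁻¹' (σ.NN ∩ (σ.aug.map σ.pi).cut U) ∪
      σ.btw q {y | y ≠ q ∧ ¬ σ.Vis none y ∧ Sum.inr y ∈ U ∧ ∃ i, σ.Vis (some i) y} ∪
      σ.btw q ({y | y ∈ σ.l '' D ∧ Sum.inr y ∈ U ∧ ∀ i, ¬ σ.Vis i y} \ {q}) := by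
    rintro g ⟨g1, g2⟩
    by_cases g3 : g ∈ ⋃ i, (σ.r i).es
    · exact Or.inl (Or.inl (Or.inl (Or.inl ⟨g3, g2⟩)))
    obtain ⟨a, x, j, ha, hx⟩ : ∃ a x, G.Joins g a x ∧ σ.l a = q ∧ σ.l x ≠ q := by
      by_cases e : σ.l (G.s g) = q
      · exact ⟨_, _, G.joins_st g, e, fun e' => g2 (iff_of_true ⟨g1.1, e⟩ ⟨g1.2, e'⟩)⟩
      · exact ⟨_, _, (G.joins_st g).symm, not_not.mp fun e' =>
          g2 (iff_of_false (fun h => e h.2) fun h => e' h.2), e⟩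
    obtain ⟨aD, xD⟩ := j.mem_In.mp g1
    by_cases x1 : σ.Vis none (σ.l x)
    · exact Or.inl (Or.inl (Or.inl (Or.inr ⟨⟨g1, g3⟩, a, x, j, ha, x1⟩)))
    by_cases x2 : Sum.inr (σ.l x) ∈ U
    · by_cases x3 : ∃ i, σ.Vis (some i) (σ.l x)
      · exact Or.inl (Or.inr ⟨⟨g1, g3⟩, a, x, j, ha, hx, x1, x2, x3⟩)
      · refine Or.inr ⟨⟨g1, g3⟩, a, x, j, ha, ⟨⟨x, xD, rfl⟩, x2, ?_⟩, hx⟩
        rintro (_ | i)
        exacts [x1, fun h => x3 ⟨i, h⟩]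
    · subst ha
      refine Or.inl (Or.inl (Or.inr ⟨Or.inr ⟨⟨g1, g3⟩, ?_⟩,
        (j.mem_cut (U := σ.pi ⁻¹' U)).mpr fun h => x2 ?_⟩))
      · rcases j with ⟨rfl, rfl⟩ | ⟨rfl, rfl⟩
        exacts [⟨q2, x1, hx.symm⟩, ⟨x1, q2, hx⟩]
      · rw [← pi_inr σ xD x1]
        exact h.mp (show σ.pi a ∈ U from (pi_inr σ aD q2).symm ▸ q3)
  have := b0.trans ((Set.encard_le_encard sub).trans ((Set.encard_union_le _ _).trans
    (add_le_add ((Set.encard_union_le _ _).trans (add_le_add ((Set.encard_union_le _ _).trans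
      (add_le_add ((Set.encard_union_le _ _).trans (add_le_add b1 b2)) b3)) b4)) h2)))
  rw [Finset.card_singleton] at this
  norm_cast at this
  omega

end ANCH

open ANCH in
theorem rowAnch : StAnch.{u} := by
  intro V E L G κ D I _ α β S hκ hD hS hI σ hc
  have hM : ∀ s ∈ S, ∀ U, σ.pi s ∈ U → σ.pi (α none) ∉ U →
      (144 : ℕ∞) ≤ (σ.NN ∩ (σ.aug.map σ.pi).cut U).encard := fun s hs U a b =>
    (hI (σ.pi ⁻¹' U) (spl_of_mem hs (hS none).1 a b)).trans (cnt σ fun i hi h => hi (by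
      have := (cross σ U i h _ le_rfl).2
      rw [(σ.r (some i)).hn] at this
      exact this.symm))
  refine ⟨nn_finite σ, {x | ∀ U, x ∈ U → σ.pi (α none) ∉ U →
    (144 : ℕ∞) ≤ (σ.NN ∩ (σ.aug.map σ.pi).cut U).encard}, ?_, hM, fun q q1 q2 => ?_⟩
  · rintro U ⟨⟨x, hx, hx'⟩, ⟨y, hy, hy'⟩⟩
    by_cases h : σ.pi (α none) ∈ U
    · exact Gr.cut_compl _ U ▸ hy Uᶜ hy' (not_not.mpr h)
    · exact hx U hx' h
  by_contra hq
  obtain ⟨hq1, hq2⟩ := not_or.mp hq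
  obtain ⟨U, u1, u2, u3⟩ : ∃ U, Sum.inr q ∈ U ∧ σ.pi (α none) ∉ U ∧
      (σ.NN ∩ (σ.aug.map σ.pi).cut U).encard < 144 := by
    by_contra h
    exact hq1 fun U a b => not_lt.mp fun c => h ⟨U, a, b, c⟩
  let T : Finset I :=
    Finset.univ.filter fun i => ¬ ∀ x ∈ σ.NN ∩ (σ.aug.map σ.pi).cut U, ¬ Own σ x i
  have hT : T.card ≤ 144 := by
    have := (cnt σ (T := (T : Set I)) fun i hi => (Finset.mem_filter.mp hi).2).trans u3.le
    rw [Set.encard_coe_eq_coe_finsetCard] at this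
    exact_mod_cast this
  have hv : ∀ i y, σ.Vis (some i) y → ¬ σ.Vis none y → Sum.inr y ∈ U → i ∈ T := by
    rintro i _ ⟨k, hk, rfl⟩ a b
    refine Finset.mem_filter.mpr ⟨Finset.mem_univ _, fun h => ?_⟩
    exact absurd (hM _ (hS (some i)).1 U ((cross σ U i h k hk).1.mp
      ((pi_inr σ (σ.mem _ k hk).1 a).symm ▸ b)) u2) (not_le.mpr u3)
  by_cases hZ : {y | y ∈ σ.l '' D ∧ Sum.inr y ∈ U ∧ ∀ i, ¬ σ.Vis i y}.Nonempty
  · have hJ : ∀ y, (∀ i, ¬ σ.Vis i y) → σ.J y = ∅ := fun y h =>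
      Set.eq_empty_of_forall_notMem fun i ⟨k, hk, e, _⟩ => h i ⟨k, hk, e⟩
    obtain ⟨q', ⟨a, b, c⟩, d⟩ := hc.den _ (fun _ h => h.1) hZ (capT_mono I _ _
      (Set.iUnion₂_subset fun y hy => (hJ y hy.2.2).le.trans (Set.empty_subset _)) (σ.cap q))
    refine bound σ hκ hD hc u3.le T hT hv a (c none) b (fun y hy => (hc.pair q' y
      (fun e => c none (e ▸ hy)) ?_).le) d.le
    rw [hJ q' c, Set.empty_union]
    exact σ.cap y
  · refine bound σ hκ hD hc u3.le T hT hv q1 q2 u1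
      (fun y hy => (not_le.mp fun h => hq2 ⟨y, hy, h⟩).le) ?_
    rw [Set.eq_empty_of_forall_notMem (s := σ.btw q _) fun g ⟨_, _, x, _, _, h⟩ => hZ ⟨_, h.1⟩]
    simp

end Pool.Agent.MP_7f38c2_co.H28
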