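import Pool.Agent.MP_7f38c2_co.H28.Spec

/-! Assembly of the two-colour lemma and of the main theorem from the steps. -/

namespace Pool.Agent.MP_7f38c2_co.H28

open Classical

universe u

theorem rowTC (hFin : StFin.{u}) (hFam : StFam.{u}) (hInit : StInit.{u}) (hMin : StMin.{u})
    (hCnt : StCnt.{u}) (hAnch : StAnch.{u}) (hBuild : StBuild.{u}) : StTC.{u} := by
  intro V E G κ hG hκ D hD a ha b hb z hz hz0
  have := hG.2.2
  set S : Set V := insert a (insert b z.support) with hS
  have hSD : S ⊆ D := Set.insert_subset ha (Set.insert_subset hb fun v hv =>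
    hz v (Finsupp.mem_support_iff.mp hv))
  obtain ⟨N, h1, h2, h3⟩ := hFin V E G (72 * (2 * 144 + 1)) S (G.In D)
    ((z.support.finite_toSet.insert b).insert a) (hD.2.mono (by omega) hSD subset_rfl)
  obtain ⟨I, _, α, β, r, rfl, rfl, h4, h5, h6, h7⟩ := hFam V E G 144 N S a b h2 h3
    (Set.mem_insert _ _) (Set.mem_insert_of_mem _ (Set.mem_insert _ _))
  obtain ⟨σ, hσ⟩ := hMin V E (V ⊕ ℕ) G D (G.In D) 63000 (Option I) α β (CapT I) (capT_mono I)
    (hInit V E G κ 63000 hG (by omega) D (G.In D) hD.1 subset_rfl (by simp) (Option I) α β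
      (CapT I) r (by simp [CapT]) (fun i => hSD (h4 i).1)
      (fun i => ⟨(h5 i).1, (h5 i).2.trans h1⟩) h6)
  exact hBuild V E _ G κ D I α β S z hG (by omega) hSD (h4 none).1
    (fun v hv => Set.mem_insert_of_mem _ (Set.mem_insert_of_mem _ (Finsupp.mem_support_iff.mpr hv)))
    hz0 σ hσ (hAnch V E _ G κ D I α β S hκ hD h4 (by exact_mod_cast h7) σ
      (hCnt V E _ G D (G.In D) 63000 (Option I) α β (CapT I) (capT_mono I) (by norm_num) σ hσ))

theorem main_of (hOne : StOne.{u}) (hStep : StStep.{u}) (hLimit : StLimit.{u}) {V : Type u}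
    (G : SimpleGraph V) [G.LocallyFinite] [Infinite V] (hk : G.IsEdgeConnected (10 ^ 8)) :
    H94.HasHamiltonCircle G.lineGraph := by
  have hpc := hk.preconnected (by norm_num)
  have := H10.countable_of_preconnected G hpc
  set Γ : Gr V G.edgeSet := ⟨(H10.ofSG G).s, (H10.ofSG G).t⟩ with hΓ
  have hlf : Γ.LF := (H10.ofSG G).lf
  have hec : Γ.EC (2 * 50000000) Set.univ Set.univ := by
    rintro U ⟨⟨x, -, hx⟩, ⟨y, -, hy⟩⟩
    by_contra hlt
    have h1 := hk x y (s := Subtype.val '' Γ.cut U) (by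
      rw [Subtype.val_injective.encard_image]
      rw [Set.univ_inter] at hlt
      exact_mod_cast not_le.mp hlt)
    rw [SimpleGraph.reachable_iff_reflTransGen] at h1
    refine hy ?_
    clear hy
    induction h1 with
    | refl => exact hx
    | @tail b c _ hbc ih =>
      by_contra hc
      rw [SimpleGraph.deleteEdges_adj] at hbc
      exact hbc.2 ⟨_, H10.mem_cut_of_adj G hbc.1 ih hc, rfl⟩
  have : Infinite G.edgeSet := by
    by_contra h
    rw [not_infinite_iff_finite] at h
    obtain ⟨x, hx⟩ := (Γ.ends_finite (N := Set.univ) Set.finite_univ).exists_notMem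
    obtain ⟨y, hy⟩ := exists_ne x
    exact (hec.conn (by norm_num) (Set.mem_univ y) (Set.mem_univ x)).eq_or_tch.elim hy.symm hx
  have hG : Γ.Amb 50000000 := ⟨hlf, hec, inferInstance⟩
  obtain ⟨F, -, h1, h2⟩ := hOne V _ Γ _ hG (by norm_num) Set.univ Set.univ
    ⟨Set.finite_empty.subset fun e he => he Iff.rfl, fun e _ => ⟨trivial, trivial⟩, by simp,
      hec.mono (by norm_num) subset_rfl subset_rfl⟩ 0 (by simp) (map_zero _)
  obtain ⟨x⟩ : Nonempty V := inferInstance
  exact hLimit V _ Γ G.lineGraph (Γ.Job 50000000) hlf (H94.line_adj_iff G)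
    (hStep V _ Γ _ hG (by norm_num)) (fun u v F h => h.facts hlf (by norm_num))
    ⟨x, F, Set.subset_univ _, by rwa [ch_add_self], fun e _ =>
      ⟨_, Or.inl rfl, h2 x trivial _ trivial⟩⟩

end Pool.Agent.MP_7f38c2_co.H28
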