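import Pool.Agent.MP_7f38c2_co.H28.Spec

/-! The base case of the connector theorem: all non-terminals have degree zero or three. -/

namespace Pool.Agent.MP_7f38c2_co.H28

open Classical

universe u

namespace BASE

/-- the hypergraph packing statement for finite subsets of types -/
lemma hyp' (hy : StHyp.{u}) {α β : Type u} {T : Set α} {H : Set β} (hT : T.Finite)
    (hH : H.Finite) (r ν : ℕ) (Us Rv : β → Set α) (hU : ∀ h, ∀ a ∈ Us h, h ∈ H ∧ a ∈ T)
    (hR : ∀ h, ∀ a ∈ Rv h, h ∈ H ∧ a ∈ T)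
    (cond : ∀ (f : α → α) (Y : Finset α), (∀ y ∈ Y, y ∈ T) →
      r * ((f '' T).ncard - 1) + ν * Y.card ≤
        {h | (∃ a ∈ Us h, ∃ b ∈ Us h, f a ≠ f b) ∨ ∃ y ∈ Y, y ∈ Rv h}.ncard) :
    ∃ ch : β → Option (Fin r × α × α ⊕ α),
      (∀ h i a b, ch h = some (Sum.inl (i, a, b)) → a ∈ Us h ∧ b ∈ Us h) ∧
      (∀ h y, ch h = some (Sum.inr y) → y ∈ Rv h) ∧
      (∀ (i : Fin r) (B : Set α), Spl T B →
        ∃ h a b, ch h = some (Sum.inl (i, a, b)) ∧ ¬ (a ∈ B ↔ b ∈ B)) ∧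
      ∀ y ∈ T, ν ≤ {h | ch h = some (Sum.inr y)}.ncard := by
  obtain ⟨iT⟩ := hT.nonempty_fintype
  obtain ⟨iH⟩ := hH.nonempty_fintype
  obtain ⟨ch, h1, h2, h3, h4⟩ := hy T H r ν (fun h => {a | a.1 ∈ Us h.1})
      (fun h => {a | a.1 ∈ Rv h.1}) (by
    intro f Y
    let f' : α → α := fun a => if h : a ∈ T then (f ⟨a, h⟩).1 else a
    have hf : ∀ a (h : a ∈ T), f' a = (f ⟨a, h⟩).1 := fun a h => dif_pos h
    have c := cond f' (Y.map (Function.Embedding.subtype _)) (by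
      intro y hy
      obtain ⟨y, -, rfl⟩ := Finset.mem_map.mp hy
      exact y.2)
    have e1 : f' '' T = Subtype.val '' (f '' Set.univ) := by
      ext b
      constructor
      · rintro ⟨a, ha, rfl⟩
        exact ⟨_, ⟨⟨a, ha⟩, trivial, rfl⟩, (hf a ha).symm⟩
      · rintro ⟨_, ⟨a, -, rfl⟩, rfl⟩
        exact ⟨a.1, a.2, hf a.1 a.2⟩
    rw [e1, Set.ncard_image_of_injective _ Subtype.val_injective, Finset.card_map] at c
    rw [← Set.ncard_coe_finset, @Finset.coe_image _ _ (_), Finset.coe_univ]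
    refine c.trans (le_trans (Set.ncard_le_ncard ?_ ((Set.toFinite _).image _))
      (Set.ncard_image_of_injective _ Subtype.val_injective).le)
    rintro h (⟨a, ha, b, hb, hab⟩ | ⟨y, hy, hy'⟩)
    · refine ⟨⟨h, (hU h a ha).1⟩, Or.inl ⟨⟨a, (hU h a ha).2⟩, ha, ⟨b, (hU h b hb).2⟩, hb, ?_⟩, rfl⟩
      intro e
      exact hab (by rw [hf a (hU h a ha).2, hf b (hU h b hb).2, e])
    · obtain ⟨y, hy2, rfl⟩ := Finset.mem_map.mp hy
      exact ⟨⟨h, (hR h _ hy').1⟩, Or.inr ⟨y, hy2, hy'⟩, rfl⟩)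
  let φ : Fin r × T × T ⊕ T → Fin r × α × α ⊕ α :=
    Sum.map (fun p => (p.1, p.2.1.1, p.2.2.1)) Subtype.val
  let ch' : β → Option (Fin r × α × α ⊕ α) := fun h =>
    if hh : h ∈ H then (ch ⟨h, hh⟩).map φ else none
  have k1 : ∀ h : H, ch' h.1 = (ch h).map φ := fun h => dif_pos h.2
  have k2 : ∀ h x, ch' h = some x → ∃ hh : h ∈ H, ∃ x', ch ⟨h, hh⟩ = some x' ∧ φ x' = x := by
    intro h x e
    by_cases hh : h ∈ H
    · rw [k1 ⟨h, hh⟩] at e
      exact ⟨hh, Option.map_eq_some_iff.mp e⟩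
    · rw [show ch' h = none from dif_neg hh] at e
      cases e
  refine ⟨ch', ?_, ?_, ?_, ?_⟩
  · intro h i a b e
    obtain ⟨hh, ⟨i', a', b'⟩ | y', e1, e2⟩ := k2 h _ e
    · cases e2
      exact h1 _ _ _ _ e1
    · cases e2
  · intro h y e
    obtain ⟨hh, ⟨i', a', b'⟩ | y', e1, e2⟩ := k2 h _ e
    · cases e2
    · cases e2
      exact h2 _ _ e1
  · rintro i B ⟨⟨a, ha, ha'⟩, ⟨b, hb, hb'⟩⟩
    obtain ⟨h, a', b', e1, e2⟩ := h3 i {x | x.1 ∈ B} ⟨⟨a, ha⟩, ha'⟩ ⟨⟨b, hb⟩, hb'⟩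
    exact ⟨h.1, a'.1, b'.1, by rw [k1, e1]; rfl, e2⟩
  · intro y hy
    refine (h4 ⟨y, hy⟩).trans ?_
    rw [← Set.ncard_image_of_injective _ Subtype.val_injective]
    refine Set.ncard_le_ncard ?_ (hH.subset fun h e => (k2 h _ e).1)
    rintro _ ⟨h, e, rfl⟩
    show ch' h.1 = _
    rw [k1, show ch h = _ from e]
    rfl

variable {V E : Type u} {G : Gr V E} {r : ℕ} {N : Set E} {S : Set V} {z : V}
  {c0 : E → Option (Fin r)}

lemma cnt (hN : N.Finite) (P : Set E) :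
    (N ∩ P).ncard = ∑ e ∈ hN.toFinset, if e ∈ P then 1 else 0 := by
  rw [← Finset.card_filter, ← Set.ncard_coe_finset]
  congr 1
  ext e
  simp

lemma tch_cut (hC : Crit G r N S) {e : E} (he : e ∈ N) {v : V} : e ∈ G.cut {v} ↔ G.Tch e v := by
  obtain ⟨s, -, h, -⟩ := hC e he
  simp only [Gr.cut, Gr.Tch, Set.mem_ofPred_eq, Set.mem_singleton_iff] at h ⊢
  grind

lemma star_end (hC : Crit G r N S) {e : E} (he : e ∈ N) {x : V} (hx : x ∉ S) (h : G.Tch e x) :
    ∃ s ∈ S, G.Joins e x s ∧ G.dg N {s} = 72 * r := by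
  obtain ⟨s, hs, h', hd⟩ := hC e he
  obtain ⟨v, hv⟩ := h.exists_joins
  rcases ((tch_cut hC he).mp h').eq_or hv with rfl | rfl
  · exact absurd hs hx
  · exact ⟨s, hs, hv, hd⟩

lemma not_in (hC : Crit G r N S) {e : E} (he : e ∈ N) (h : e ∉ G.In S) :
    ∃ x, x ∉ S ∧ ∃ s ∈ S, G.Joins e x s := by
  by_cases hs : G.s e ∈ S
  · exact ⟨G.t e, fun ht => h ⟨hs, ht⟩, G.s e, hs, (G.joins_st e).symm⟩
  · obtain ⟨s, h1, h2, -⟩ := star_end hC he hs (Or.inl rfl)
    exact ⟨_, hs, s, h1, h2⟩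

lemma deg3 (hH : CH G r N S z c0) (hC : Crit G r N S)
    (h3 : ∀ x, x ∉ S → G.dg N {x} = 0 ∨ G.dg N {x} = 3) {e : E} (he : e ∈ N) {x : V} (hx : x ∉ S)
    (h : G.Tch e x) : G.dg N {x} = 3 :=
  (h3 x hx).resolve_left (Set.ncard_ne_zero_of_mem (s := N ∩ G.cut {x})
    ⟨he, (tch_cut hC he).mpr h⟩ (hH.fin.subset Set.inter_subset_left))

/-- the edges at a non-terminal go to distinct terminals -/
lemma uniq (hH : CH G r N S z c0) (hC : Crit G r N S)
    (h3 : ∀ x, x ∉ S → G.dg N {x} = 0 ∨ G.dg N {x} = 3) {e e' : E} (he : e ∈ N) (he' : e' ∈ N)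
    {x s : V} (hx : x ∉ S) (hs : s ∈ S) (h : G.Tch e x) (h' : G.Tch e' x) (k : G.Tch e s)
    (k' : G.Tch e' s) : e = e' := by
  by_contra hne
  have hxs : x ≠ s := fun h => hx (h ▸ hs)
  obtain ⟨s1, -, j1, d1⟩ := star_end hC he hx h
  obtain ⟨s2, -, j2, -⟩ := star_end hC he' hx h'
  obtain rfl : s = s1 := (k.eq_or j1).resolve_left hxs.symm
  obtain rfl : s = s2 := (k'.eq_or j2).resolve_left hxs.symm
  have d2 := deg3 hH hC h3 he hx h
  obtain ⟨s', hs', hss⟩ : ∃ s' ∈ S, s' ≠ s := by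
    by_cases hz : z = s
    · exact hz ▸ hH.two
    · exact ⟨z, hH.zS, hz⟩
  have d3 := hH.ec {s, x} (spl_of_mem hs hs' (Or.inl rfl) (by
    rintro (h | h)
    · exact hss h
    · exact hx (h ▸ hs')))
  obtain ⟨P, hP⟩ : ∃ P : Set E, P = {e, e'} := ⟨_, rfl⟩
  have d4 : (N ∩ P).ncard = 2 := by
    rw [hP, Set.inter_eq_right.mpr (Set.pair_subset he he'), Set.ncard_pair hne]
  unfold Gr.dg at d1 d2 d3
  rw [cnt hH.fin] at d1 d2 d3 d4
  have key : ∑ g ∈ hH.fin.toFinset, ((if g ∈ G.cut {s, x} then 1 else 0) +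
      2 * if g ∈ P then 1 else 0) ≤ ∑ g ∈ hH.fin.toFinset,
      ((if g ∈ G.cut {s} then 1 else 0) + if g ∈ G.cut {x} then 1 else 0) := by
    refine Finset.sum_le_sum fun g _ => ?_
    by_cases hg : g ∈ P
    · have j : G.Joins g x s := by
        rcases hP ▸ hg with rfl | rfl
        exacts [j1, j2]
      simp [hg, j.mem_cut, hxs, hxs.symm]
    · have : g ∈ G.cut {s, x} → g ∈ G.cut {s} ∨ g ∈ G.cut {x} :=
        fun a => G.cut_union_subset {s} {x} a
      rw [if_neg hg]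
      split_ifs <;> first | omega | tauto
  rw [Finset.sum_add_distrib, Finset.sum_add_distrib, ← Finset.mul_sum] at key
  omega

/-- an edge at a non-terminal that avoids two given terminals -/
lemma third (hH : CH G r N S z c0) (hC : Crit G r N S)
    (h3 : ∀ x, x ∉ S → G.dg N {x} = 0 ∨ G.dg N {x} = 3) {e : E} (he : e ∈ N) {x : V} (hx : x ∉ S)
    (h : G.Tch e x) {a b : V} (ha : a ∈ S) (hb : b ∈ S) :
    ∃ g ∈ N, G.Tch g x ∧ ¬ G.Tch g a ∧ ¬ G.Tch g b := by
  obtain ⟨e1, e2, e3, n1, n2, n3, hs⟩ := Set.ncard_eq_three.mp (deg3 hH hC h3 he hx h)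
  have m : ∀ g ∈ ({e1, e2, e3} : Set E), g ∈ N ∧ G.Tch g x := fun g hg =>
    ⟨(hs.symm ▸ hg : g ∈ N ∩ _).1,
      (tch_cut hC (hs.symm ▸ hg : g ∈ N ∩ _).1).mp (hs.symm ▸ hg : g ∈ N ∩ _).2⟩
  have m1 := m e1 (by simp)
  have m2 := m e2 (by simp)
  have m3 := m e3 (by simp)
  have u : ∀ {g g' : E} {s : V}, g ∈ N ∧ G.Tch g x → g' ∈ N ∧ G.Tch g' x → s ∈ S → g ≠ g' →
      G.Tch g s → ¬ G.Tch g' s := fun p p' hs hne k k' =>
    hne (uniq hH hC h3 p.1 p'.1 hx hs p.2 p'.2 k k')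
  by_contra hc
  push Not at hc
  have := hc e1 m1.1 m1.2
  have := hc e2 m2.1 m2.2
  have := hc e3 m3.1 m3.2
  have := u m1 m2 ha n1
  have := u m1 m3 ha n2
  have := u m2 m3 ha n3
  have := u m1 m2 hb n1
  have := u m1 m3 hb n2
  have := u m2 m3 hb n3
  tauto

/-- many edges at a terminal avoid `z` -/
lemma half (hH : CH G r N S z c0) (hC : Crit G r N S) {y w : V} (hy : y ∈ S) (hyz : y ≠ z)
    (hw : w ∈ S) (hwy : w ≠ y) (hwz : w ≠ z) :
    36 * r ≤ ∑ e ∈ hH.fin.toFinset, if G.Tch e y ∧ ¬ G.Tch e z then 1 else 0 := by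
  have d1 := hH.ec {y} (spl_of_mem hy hw rfl hwy)
  have d2 := hH.ec {y, z} (spl_of_mem hy hw (Or.inl rfl) (by
    rintro (h | h)
    exacts [hwy h, hwz h]))
  have d3 := hH.dz
  unfold Gr.dg at d1 d2 d3
  rw [cnt hH.fin] at d1 d2 d3
  have key : ∑ g ∈ hH.fin.toFinset, ((if g ∈ G.cut {y} then 1 else 0) +
      if g ∈ G.cut {y, z} then 1 else 0) ≤ ∑ g ∈ hH.fin.toFinset,
      (2 * (if G.Tch g y ∧ ¬ G.Tch g z then 1 else 0) + if g ∈ G.cut {z} then 1 else 0) := by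
    refine Finset.sum_le_sum fun g hg => ?_
    have hg' := hH.fin.mem_toFinset.mp hg
    have a1 : g ∈ G.cut {y, z} → g ∈ G.cut {y} ∨ g ∈ G.cut {z} :=
      fun a => G.cut_union_subset {y} {z} a
    have a2 : G.Tch g y → G.Tch g z → g ∉ G.cut {y, z} := by
      simp only [Gr.cut, Gr.Tch, Set.mem_ofPred_eq, Set.mem_insert_iff, Set.mem_singleton_iff]
      grind
    simp only [tch_cut hC hg'] at a1 ⊢
    split_ifs <;> first | omega | tauto
  rw [Finset.sum_add_distrib, Finset.sum_add_distrib, ← Finset.mul_sum] at key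
  omega

/-- the item of an edge: the edge itself, or its non-terminal end -/
noncomputable def item (G : Gr V E) (S : Set V) (e : E) : E ⊕ V :=
  if e ∈ G.In S then Sum.inl e else Sum.inr (if G.s e ∈ S then G.t e else G.s e)

lemma item_in {e : E} (h : e ∈ G.In S) : item G S e = Sum.inl e := if_pos h

lemma item_star {e : E} {x s : V} (j : G.Joins e x s) (hx : x ∉ S) (hs : s ∈ S) :
    item G S e = Sum.inr x := by
  unfold item
  rw [if_neg fun h => hx (j.mem_In.mp h).1]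
  rcases j with ⟨rfl, rfl⟩ | ⟨rfl, rfl⟩
  · rw [if_neg hx]
  · rw [if_pos hs]

lemma item_inl {e g : E} (h : item G S e = Sum.inl g) : e = g ∧ e ∈ G.In S := by
  by_cases h' : e ∈ G.In S
  · rw [item_in h'] at h
    exact ⟨Sum.inl_injective h, h'⟩
  · rw [item, if_neg h'] at h
    cases h

lemma item_inr (hC : Crit G r N S) {e : E} (he : e ∈ N) {x : V} :
    item G S e = Sum.inr x ↔ x ∉ S ∧ G.Tch e x := by
  constructor
  · intro h
    by_cases h' : e ∈ G.In S
    · rw [item_in h'] at h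
      cases h
    · obtain ⟨x', hx, s, hs, j⟩ := not_in hC he h'
      rw [item_star j hx hs] at h
      cases h
      exact ⟨hx, j.tch⟩
  · rintro ⟨hx, h⟩
    obtain ⟨s, hs, j, -⟩ := star_end hC he hx h
    exact item_star j hx hs

/-- an item carries total weight at most three -/
lemma fibre (hH : CH G r N S z c0) (hC : Crit G r N S)
    (h3 : ∀ x, x ∉ S → G.dg N {x} = 0 ∨ G.dg N {x} = 3) {D : Set (E ⊕ V)} (hD : D.Finite) :
    ∑ e ∈ hH.fin.toFinset, (if item G S e ∈ D then (if e ∈ G.In S then 2 else 1) else 0) ≤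
      3 * D.ncard := by
  have e1 : ∀ e ∈ hH.fin.toFinset, (if item G S e ∈ D then (if e ∈ G.In S then 2 else 1) else 0) =
      ∑ h ∈ hD.toFinset, if item G S e = h then (if e ∈ G.In S then 2 else 1) else 0 := by
    intro e _
    rw [Finset.sum_ite_eq]
    simp only [Set.Finite.mem_toFinset]
  rw [Finset.sum_congr rfl e1, Finset.sum_comm, Set.ncard_eq_toFinset_card D hD, mul_comm]
  refine Finset.sum_le_card_nsmul _ _ 3 ?_
  rintro (g | x) -
  · refine le_trans (Finset.sum_le_sum (g := fun e => if e = g then 2 else 0) fun e _ => ?_) ?_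
    · by_cases h : item G S e = Sum.inl g
      · rw [if_pos h, if_pos (item_inl h).1, if_pos (item_inl h).2]
      · rw [if_neg h]
        exact Nat.zero_le _
    · rw [Finset.sum_ite_eq']
      split_ifs <;> omega
  · by_cases hx : x ∈ S
    · rw [Finset.sum_eq_zero fun e he =>
        if_neg fun h => ((item_inr hC (hH.fin.mem_toFinset.mp he)).mp h).1 hx]
      omega
    · have d := h3 x hx
      unfold Gr.dg at d
      rw [cnt hH.fin] at d
      refine le_trans (Finset.sum_le_sum (g := fun e => if e ∈ G.cut {x} then 1 else 0)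
        fun e he => ?_) (by omega)
      have he' := hH.fin.mem_toFinset.mp he
      by_cases h : item G S e = Sum.inr x
      · have t := ((item_inr hC he').mp h).2
        rw [if_pos h, if_neg fun h' => hx (t.mem h'), if_pos ((tch_cut hC he').mpr t)]
      · rw [if_neg h]
        exact Nat.zero_le _

/-- the coloured edges from `z` to non-terminals -/
def Zc (G : Gr V E) (S : Set V) (z : V) (c0 : E → Option (Fin r)) : Set E :=
  {e | G.Tch e z ∧ e ∉ G.In S ∧ c0 e ≠ none}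

/-- the stars with a coloured edge to `z` -/
def DD (G : Gr V E) (N : Set E) (S : Set V) (z : V) (c0 : E → Option (Fin r)) : Set (E ⊕ V) :=
  item G S '' (N ∩ Zc G S z c0)

def Rv (G : Gr V E) (N : Set E) (S : Set V) (z : V) (h : E ⊕ V) : Set V :=
  {a | a ∈ S \ {z} ∧ ∃ e ∈ N, item G S e = h ∧ G.Tch e a ∧ ¬ G.Tch e z}

def Us (G : Gr V E) (N : Set E) (S : Set V) (z : V) (c0 : E → Option (Fin r)) (h : E ⊕ V) :
    Set V := {a | a ∈ Rv G N S z h ∧ h ∉ DD G N S z c0}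

lemma term_finite (hH : CH G r N S z c0) (hC : Crit G r N S) : (S \ {z}).Finite := by
  refine (G.ends_finite hH.fin).subset fun y hy => ?_
  have d := hH.ec {y} (spl_of_mem hy.1 hH.zS rfl fun h => hy.2 (Eq.symm h))
  have := hH.pos
  obtain ⟨e, he, h⟩ := Set.nonempty_of_ncard_ne_zero (s := N ∩ G.cut {y}) (by
    unfold Gr.dg at d
    omega)
  exact ⟨e, he, (tch_cut hC he).mp h⟩

/-- many reservable items -/
lemma condB (hH : CH G r N S z c0) (hC : Crit G r N S)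
    (h3 : ∀ x, x ∉ S → G.dg N {x} = 0 ∨ G.dg N {x} = 3)
    (hS : ∀ y ∈ S \ {z}, ∃ w ∈ S, w ≠ y ∧ w ≠ z) (Y : Finset V) (hY : ∀ y ∈ Y, y ∈ S \ {z}) :
    12 * r * Y.card ≤ {h | ∃ y ∈ Y, y ∈ Rv G N S z h}.ncard := by
  obtain ⟨B, hB⟩ : ∃ B, B = {h | ∃ y ∈ Y, y ∈ Rv G N S z h} := ⟨_, rfl⟩
  have fB : B.Finite := (hH.fin.image (item G S)).subset (by
    rw [hB]
    rintro h ⟨y, -, -, e, he, rfl, -⟩
    exact ⟨e, he, rfl⟩)
  have k1 := Finset.card_nsmul_le_sum Y (fun y => ∑ e ∈ hH.fin.toFinset,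
    if G.Tch e y ∧ ¬ G.Tch e z then 1 else 0) (36 * r) fun y hy => by
      obtain ⟨w, h1, h2, h4⟩ := hS y (hY y hy)
      exact half hH hC (hY y hy).1 (hY y hy).2 h1 h2 h4
  rw [Finset.sum_comm, smul_eq_mul] at k1
  have k2 := k1.trans ((Finset.sum_le_sum fun e he => ?_).trans (fibre hH hC h3 fB))
  · rw [← hB]
    nlinarith
  have he' := hH.fin.mem_toFinset.mp he
  rw [← Finset.card_filter]
  by_cases h : item G S e ∈ B
  · rw [if_pos h]
    split_ifs with h'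
    · refine le_trans (Finset.card_le_card (t := {G.s e, G.t e}) fun y hy => ?_) Finset.card_le_two
      rcases (Finset.mem_filter.mp hy).2.1 with rfl | rfl <;> simp
    · obtain ⟨x, hx, s, hs, j⟩ := not_in hC he' h'
      refine le_trans (Finset.card_le_card (t := {s}) fun y hy => ?_) (Finset.card_singleton s).le
      obtain ⟨h1, h2, -⟩ := Finset.mem_filter.mp hy
      rcases h2.eq_or j with rfl | rfl
      · exact absurd (hY _ h1).1 hx
      · simp
  · rw [if_neg h, Nat.le_zero, Finset.card_eq_zero, Finset.eq_empty_iff_forall_notMem]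
    intro y hy
    obtain ⟨h1, h2⟩ := Finset.mem_filter.mp hy
    exact h (hB ▸ ⟨y, h1, hY y h1, e, he', rfl, h2⟩)

/-- many crossing items -/
lemma condA (hH : CH G r N S z c0) (hC : Crit G r N S)
    (h3 : ∀ x, x ∉ S → G.dg N {x} = 0 ∨ G.dg N {x} = 3) (f : V → V) :
    2 * r * ((f '' (S \ {z})).ncard - 1) ≤
      {h | ∃ a ∈ Us G N S z c0 h, ∃ b ∈ Us G N S z c0 h, f a ≠ f b}.ncard := by
  obtain ⟨A, hA⟩ : ∃ A, A = {h | ∃ a ∈ Us G N S z c0 h, ∃ b ∈ Us G N S z c0 h, f a ≠ f b} :=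
    ⟨_, rfl⟩
  have fA : A.Finite := (hH.fin.image (item G S)).subset (by
    rw [hA]
    rintro h ⟨y, ⟨⟨-, e, he, rfl, -⟩, -⟩, -⟩
    exact ⟨e, he, rfl⟩)
  have fD : (DD G N S z c0).Finite := (hH.fin.subset Set.inter_subset_left).image _
  have fP := (term_finite hH hC).image f
  let X : V → Set V := fun ρ => {v | (v ∈ S \ {z} ∧ f v = ρ) ∨
    (v ∉ S ∧ (Us G N S z c0 (Sum.inr v)).Nonempty ∧ ∀ a ∈ Us G N S z c0 (Sum.inr v), f a = ρ)}
  have hz : ∀ ρ, z ∉ X ρ := by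
    rintro ρ (h | h)
    exacts [h.1.2 rfl, h.1 hH.zS]
  have hT : ∀ {v}, v ∈ S \ {z} → ∀ ρ, v ∈ X ρ ↔ f v = ρ := fun hv ρ =>
    ⟨fun h => h.elim And.right fun h => absurd hv.1 h.1, fun h => Or.inl ⟨hv, h⟩⟩
  let m : V → ℕ := fun v => ∑ ρ ∈ fP.toFinset, if v ∈ X ρ then 1 else 0
  have m0 : ∀ v, (∀ ρ, v ∉ X ρ) → m v = 0 := fun v h =>
    Finset.sum_eq_zero fun ρ _ => if_neg (h ρ)
  have m1 : ∀ v, m v ≤ 1 := by
    intro v
    simp only [m]
    rw [← Finset.card_filter, Finset.card_le_one]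
    intro ρ h ρ' h'
    rcases (Finset.mem_filter.mp h).2 with h | h <;> rcases (Finset.mem_filter.mp h').2 with h' | h'
    · exact h.2.symm.trans h'.2
    · exact absurd h.1.1 h'.1
    · exact absurd h'.1.1 h.1
    · obtain ⟨a, ha⟩ := h.2.1
      exact (h.2.2 a ha).symm.trans (h'.2.2 a ha)
  let w : E → ℕ := fun e => ∑ ρ ∈ fP.toFinset, if e ∈ G.cut (X ρ) then 1 else 0
  have w1 : ∀ {e u v}, G.Joins e u v → w e ≤ m u + m v := by
    intro e u v j
    simp only [w, m]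
    rw [← Finset.sum_add_distrib]
    refine Finset.sum_le_sum fun ρ _ => ?_
    rw [j.mem_cut]
    split_ifs <;> first | omega | tauto
  have w0 : ∀ {e u v}, G.Joins e u v → (∀ ρ, u ∈ X ρ ↔ v ∈ X ρ) → w e = 0 := fun j h =>
    Finset.sum_eq_zero fun ρ _ => if_neg fun h' => j.mem_cut.mp h' (h ρ)
  have k1 := Finset.card_nsmul_le_sum fP.toFinset (fun ρ => ∑ e ∈ hH.fin.toFinset,
    if e ∈ G.cut (X ρ) then 1 else 0) (72 * r) fun ρ hρ => by
      obtain ⟨a, ha, rfl⟩ := fP.mem_toFinset.mp hρ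
      rw [← cnt hH.fin]
      exact hH.ec _ (spl_of_mem ha.1 hH.zS ((hT ha _).mpr rfl) (hz _))
  rw [Finset.sum_comm, smul_eq_mul, ← Set.ncard_eq_toFinset_card _ fP] at k1
  obtain ⟨U, hU⟩ : ∃ U, U = A ∪ DD G N S z c0 := ⟨_, rfl⟩
  have key : ∑ e ∈ hH.fin.toFinset, (w e + 2 * if e ∈ Zc G S z c0 then 1 else 0) ≤
      ∑ e ∈ hH.fin.toFinset, ((if item G S e ∈ U then (if e ∈ G.In S then 2 else 1) else 0) +
        if e ∈ G.cut {z} then 1 else 0) := by
    refine Finset.sum_le_sum fun e he => ?_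
    have he' := hH.fin.mem_toFinset.mp he
    rw [tch_cut hC he']
    have mz := m0 z hz
    by_cases h : e ∈ G.In S
    · rw [if_neg (show e ∉ Zc G S z c0 from fun h' => h'.2.1 h), if_pos h]
      by_cases t : G.Tch e z
      · obtain ⟨o, j⟩ := t.exists_joins
        have := w1 j
        have := m1 o
        rw [if_pos t]
        omega
      · have hD : item G S e ∉ DD G N S z c0 := by
          rintro ⟨g, hg, e1⟩
          rw [item_in h] at e1
          exact hg.2.2.1 (item_inl e1).2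
        have u : ∀ a, G.Tch e a → a ∈ Us G N S z c0 (item G S e) := fun a ha =>
          ⟨⟨⟨ha.mem h, fun h' => t (Eq.symm h' ▸ ha)⟩, e, he', rfl, ha, t⟩, hD⟩
        have us := u _ (Or.inl rfl)
        have ut := u _ (Or.inr rfl)
        by_cases q : f (G.s e) = f (G.t e)
        · rw [w0 (G.joins_st e) fun ρ => by rw [hT us.1.1, hT ut.1.1, q]]
          omega
        · have := w1 (G.joins_st e)
          have := m1 (G.s e)
          have := m1 (G.t e)
          rw [if_pos (show item G S e ∈ U from hU ▸ Or.inl (hA ▸ ⟨_, us, _, ut, q⟩))]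
          omega
    · obtain ⟨x, hx, s, hs, j⟩ := not_in hC he' h
      have e1 := item_star j hx hs
      have w2 := w1 j
      have := m1 x
      have := m1 s
      have tz : G.Tch e z → m s = 0 := fun t => by
        rcases t.eq_or j with rfl | rfl
        exacts [absurd hH.zS hx, mz]
      rw [if_neg h, e1]
      by_cases hD : Sum.inr x ∈ DD G N S z c0
      · have : m x = 0 := m0 x (by
          rintro ρ (h | ⟨-, ⟨a, ha⟩, -⟩)
          exacts [hx h.1.1, ha.2 hD])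
        rw [if_pos (show _ ∈ U from hU ▸ Or.inr hD)]
        by_cases t : G.Tch e z
        · have := tz t
          rw [if_pos t]
          split_ifs <;> omega
        · rw [if_neg (show e ∉ Zc G S z c0 from fun h' => t h'.1)]
          omega
      · rw [if_neg (show e ∉ Zc G S z c0 from fun h' => hD ⟨e, ⟨he', h'⟩, e1⟩)]
        by_cases q : Sum.inr x ∈ A
        · have : m x = 0 := m0 x (by
            rw [hA] at q
            obtain ⟨a, ha, b, hb, q⟩ := q
            rintro ρ (h | ⟨-, -, h⟩)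
            exacts [hx h.1.1, q ((h a ha).trans (h b hb).symm)])
          rw [if_pos (show _ ∈ U from hU ▸ Or.inl q)]
          omega
        · by_cases t : G.Tch e z
          · have := tz t
            rw [if_pos t]
            omega
          · have us : s ∈ Us G N S z c0 (Sum.inr x) :=
              ⟨⟨⟨hs, fun h' => t (Eq.symm h' ▸ j.tch')⟩, e, he', e1, j.tch', t⟩, hD⟩
            rw [w0 j fun ρ => ?_]
            · omega
            rw [hT us.1.1]
            refine ⟨fun h => h.elim (fun h => absurd h.1.1 hx) fun h => h.2.2 s us,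
              fun h => Or.inr ⟨hx, ⟨s, us⟩, fun a ha => ?_⟩⟩
            by_contra q'
            exact q (hA ▸ ⟨a, ha, s, us, fun h' => q' (h'.trans h)⟩)
  have k2 := fibre hH hC h3 (D := U) (hU ▸ fA.union fD)
  have k3 : U.ncard ≤ A.ncard + (DD G N S z c0).ncard := hU ▸ Set.ncard_union_le _ _
  have k4 : (DD G N S z c0).ncard ≤ (N ∩ Zc G S z c0).ncard :=
    Set.ncard_image_le (hH.fin.subset Set.inter_subset_left)
  have k5 : (N ∩ Zc G S z c0).ncard + G.dg (cls N c0 none) {z} ≤ G.dg N {z} := by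
    unfold Gr.dg
    rw [← Set.ncard_union_eq (Set.disjoint_left.mpr fun e h h' => h.2.2.2 h'.1.2)
      (hH.fin.subset Set.inter_subset_left) (hH.fin.subset fun e h => h.1.1)]
    refine Set.ncard_le_ncard ?_ (hH.fin.subset Set.inter_subset_left)
    rintro e (h | h)
    exacts [⟨h.1, (tch_cut hC h.1).mpr h.2.1⟩, ⟨h.1.1, h.2⟩]
  have k6 := hH.unc
  have k7 := hH.dz
  rw [Finset.sum_add_distrib, Finset.sum_add_distrib, ← Finset.mul_sum, ← cnt hH.fin,
    ← cnt hH.fin] at key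
  rw [← hA]
  change _ ≤ ∑ e ∈ hH.fin.toFinset, w e at k1
  change _ ≤ _ + G.dg N {z} at key
  generalize (f '' (S \ {z})).ncard = p at k1 ⊢
  rcases p with _ | _ | p
  · simp
  · simp
  · have : (p + 1 + 1) * (72 * r) = 72 * (r * p) + 144 * r := by ring
    have : 2 * r * (p + 1 + 1 - 1) = 2 * (r * p) + 2 * r := by
      rw [Nat.add_sub_cancel]
      ring
    omega

/-- the colour of an edge in a usable item -/
noncomputable def col (G : Gr V E) (o : Option (Fin r × V × V ⊕ V)) (e : E) : Option (Fin r) :=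
  o.bind (Sum.elim (fun p => if p.2.1 ≠ p.2.2 ∧ (G.Tch e p.2.1 ∨ G.Tch e p.2.2) then some p.1
    else none) fun _ => none)

lemma col_eq {o : Option (Fin r × V × V ⊕ V)} {e : E} {i : Fin r} : col G o e = some i ↔
    ∃ a b, o = some (Sum.inl (i, a, b)) ∧ a ≠ b ∧ (G.Tch e a ∨ G.Tch e b) := by
  rcases o with _ | ⟨j, a, b⟩ | y
  · simp [col]
  · simp only [col, Option.bind_some, Sum.elim_inl]
    constructor
    · intro h
      split_ifs at h with h'
      cases h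
      exact ⟨a, b, rfl, h'⟩
    · rintro ⟨a', b', h, h'⟩
      cases h
      exact if_pos h'
  · simp [col]

/-- only two terminals -/
lemma small (hH : CH G r N S z c0) (hC : Crit G r N S)
    (h3 : ∀ x, x ∉ S → G.dg N {x} = 0 ∨ G.dg N {x} = 3) {y : V} (hy : y ∈ S \ {z})
    (hS : ∀ w ∈ S, w ≠ y → w = z) : CC G r N S z c0 c0 := by
  have k : ∀ e ∈ N, ∀ x, G.Tch e x → x ∈ S := by
    intro e he x t
    by_contra hx
    obtain ⟨g, hg, t1, t2, t3⟩ := third hH hC h3 he hx t hy.1 hH.zS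
    obtain ⟨s, hs, j, -⟩ := star_end hC hg hx t1
    by_cases h : s = y
    · exact t2 (h ▸ j.tch')
    · exact t3 (hS s hs h ▸ j.tch')
  have k2 : ∀ w ∈ S, w ≠ z → w = y := fun w hw h => not_not.mp fun h' => h (hS w hw h')
  refine ⟨fun _ _ => rfl, fun i v hv => ?_, fun i s hs h x hx h' => ?_, fun s hs h => ?_⟩
  · unfold Gr.dg
    rw [Set.eq_empty_of_forall_notMem (s := cls N c0 (some i) ∩ _)
      fun e he => hv (k e he.1.1 v ((tch_cut hC he.1.1).mp he.2))]
    simp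
  · rw [k2 s hs h, k2 x (h'.elim id fun ⟨e, he, t⟩ => k e he.1 x t) hx]
    exact Gr.Conn.refl _ _ _
  · refine hH.unc.trans (Set.ncard_le_ncard ?_ (hH.fin.subset fun e he => he.1.1))
    rintro e ⟨he, t⟩
    obtain ⟨o, j⟩ := ((tch_cut hC he.1).mp t).exists_joins
    have ho : o ≠ z := fun h' => j.mem_cut.mp t (iff_of_true rfl h')
    rw [k2 s hs h, ← k2 o (k e he.1 o j.tch') ho]
    exact ⟨he, (tch_cut hC he.1).mpr j.tch'⟩

end BASE

open BASE in
theorem rowBase : StHyp.{u} → StBase.{u} := by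
  intro hy V E G r N S z c0 hH hC h3
  by_cases hS : ∀ y ∈ S \ {z}, ∃ w ∈ S, w ≠ y ∧ w ≠ z
  swap
  · push Not at hS
    obtain ⟨y, hy, hS⟩ := hS
    exact ⟨c0, small hH hC h3 hy hS⟩
  have fH := hH.fin.image (item G S)
  have hR : ∀ h, ∀ a ∈ Rv G N S z h, h ∈ item G S '' N ∧ a ∈ S \ {z} :=
    fun h a ⟨h1, e, he, h2, _⟩ => ⟨⟨e, he, h2⟩, h1⟩
  obtain ⟨ch, c1, c2, c3, c4⟩ := hyp' hy (term_finite hH hC) fH r (6 * r) (Us G N S z c0)
    (Rv G N S z) (fun h a ha => hR h a ha.1) hR (by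
      intro f Y hY
      have a1 := condA hH hC h3 f
      have a2 := condB hH hC h3 hS Y hY
      have key : ∀ A B C : Set (E ⊕ V), C.Finite → A ⊆ C → B ⊆ C →
          A.ncard + B.ncard ≤ 2 * C.ncard := fun A B C hC hA hB => by
        have := Set.ncard_le_ncard hA hC
        have := Set.ncard_le_ncard hB hC
        omega
      refine Nat.le_of_mul_le_mul_left (c := 2) (le_trans ?_ ((add_le_add a1 a2).trans
        (key _ _ _ (fH.subset ?_) (fun h h' => Or.inl h') fun h h' => Or.inr h'))) two_pos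
      · exact le_of_eq (by ring)
      · rintro h (⟨a, ha, -⟩ | ⟨y, -, hy⟩)
        exacts [(hR h a ha.1).1, (hR h y hy).1])
  have hE : Nonempty E := by
    have := hH.pos
    have d := hH.dz
    obtain ⟨e, -⟩ := Set.nonempty_of_ncard_ne_zero (s := N ∩ G.cut {z}) (by
      unfold Gr.dg at d
      omega)
    exact ⟨e⟩
  have hze : ∀ h ∈ DD G N S z c0, ∃ e ∈ N ∩ Zc G S z c0, item G S e = h := fun h hh => hh
  choose! ze ze1 ze2 using hze
  have hpk : ∀ h ∈ DD G N S z c0, ∃ g ∈ N, item G S g = h ∧ ¬ G.Tch g z ∧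
      ∀ y, ch h = some (Sum.inr y) → ¬ G.Tch g y := by
    rintro _ ⟨e, he, rfl⟩
    obtain ⟨x, hx, s, hs, j⟩ := not_in hC he.1 he.2.2.1
    obtain ⟨y, hy, hy'⟩ : ∃ y ∈ S, ∀ y', ch (item G S e) = some (Sum.inr y') → y' = y := by
      by_cases h : ∃ y, ch (item G S e) = some (Sum.inr y)
      · obtain ⟨y, h⟩ := h
        refine ⟨y, (c2 _ y h).1.1, fun y' h' => ?_⟩
        rw [h] at h'
        cases h'
        rfl
      · exact ⟨z, hH.zS, fun y' h' => absurd ⟨y', h'⟩ h⟩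
    obtain ⟨g, hg, t1, t2, t3⟩ := third hH hC h3 he.1 hx j.tch hH.zS hy
    exact ⟨g, hg, ((item_inr hC hg).mpr ⟨hx, t1⟩).trans (item_star j hx hs).symm, t2,
      fun y' h => hy' y' h ▸ t3⟩
  choose! pk pk1 pk2 pk3 pk4 using hpk
  let c : E → Option (Fin r) := fun e => if G.Tch e z then c0 e else
    if item G S e ∈ DD G N S z c0 then (if e = pk (item G S e) then c0 (ze (item G S e)) else none)
    else col G (ch (item G S e)) e
  have cz : ∀ e, G.Tch e z → c e = c0 e := fun e t => if_pos t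
  have cD : ∀ e h, ¬ G.Tch e z → item G S e = h → h ∈ DD G N S z c0 →
      c e = if e = pk h then c0 (ze h) else none := by
    rintro e _ t rfl h
    exact (if_neg t).trans (if_pos h)
  have cU : ∀ e h, ¬ G.Tch e z → item G S e = h → h ∉ DD G N S z c0 → c e = col G (ch h) e := by
    rintro e _ t rfl h
    exact (if_neg t).trans (if_neg h)
  have star : ∀ i v, v ∉ S → ∀ e ∈ cls N c (some i), G.Tch e v → ∃ e1 e2, e1 ≠ e2 ∧
      cls N c (some i) ∩ G.cut {v} = {e1, e2} ∧ ¬ G.Tch e2 z := by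
    rintro i v hv e ⟨he, hc⟩ t
    have it : ∀ g ∈ N, G.Tch g v → item G S g = Sum.inr v := fun g hg t =>
      (item_inr hC hg).mpr ⟨hv, t⟩
    by_cases hD : Sum.inr v ∈ DD G N S z c0
    · obtain ⟨z1, z2, -⟩ := ze1 _ hD
      have z3 := ((item_inr hC z1).mp (ze2 _ hD)).2
      have p3 := ((item_inr hC (pk1 _ hD)).mp (pk2 _ hD)).2
      have q : ∀ g ∈ N, G.Tch g v → c g = some i →
          (g = ze (Sum.inr v) ∨ g = pk (Sum.inr v)) ∧ c0 (ze (Sum.inr v)) = some i := by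
        intro g hg t hc
        by_cases tz : G.Tch g z
        · have e1 := uniq hH hC h3 hg z1 hv hH.zS t z3 tz z2
          exact ⟨Or.inl e1, by rw [← e1, ← cz g tz, hc]⟩
        · rw [cD g _ tz (it g hg t) hD] at hc
          split_ifs at hc with h
          exact ⟨Or.inr h, hc⟩
      have q0 := (q e he t hc).2
      refine ⟨ze (Sum.inr v), pk (Sum.inr v), fun h => pk3 _ hD (h ▸ z2), Set.Subset.antisymm
        (fun g hg => (q g hg.1.1 ((tch_cut hC hg.1.1).mp hg.2) hg.1.2).1) ?_, pk3 _ hD⟩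
      rintro g (rfl | rfl)
      · exact ⟨⟨z1, (cz _ z2).trans q0⟩, (tch_cut hC z1).mpr z3⟩
      · exact ⟨⟨pk1 _ hD, (cD _ _ (pk3 _ hD) (pk2 _ hD) hD).trans ((if_pos rfl).trans q0)⟩,
          (tch_cut hC (pk1 _ hD)).mpr p3⟩
    · have q : ∀ g ∈ N, G.Tch g v → c g = some i → col G (ch (Sum.inr v)) g = some i := by
        intro g hg t hc
        have tz : ¬ G.Tch g z := fun tz => hD ⟨g, ⟨hg, tz, fun h => hv (t.mem h), by
          rw [← cz g tz, hc]
          simp⟩, it g hg t⟩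
        rw [← cU g _ tz (it g hg t) hD, hc]
      obtain ⟨a, b, e1, hab, -⟩ := col_eq.mp (q e he t hc)
      obtain ⟨⟨⟨ha, ea, a1, a2, a3, a4⟩, -⟩, ⟨hb, eb, b1, b2, b3, b4⟩, -⟩ := c1 _ _ _ _ e1
      have a5 := ((item_inr hC a1).mp a2).2
      have b5 := ((item_inr hC b1).mp b2).2
      refine ⟨ea, eb, ?_, Set.Subset.antisymm (fun g hg => ?_) ?_, b4⟩
      · rintro rfl
        obtain ⟨s, -, j, -⟩ := star_end hC a1 hv a5
        exact hab (((a3.eq_or j).resolve_left fun h => hv (h ▸ ha.1)).trans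
          ((b3.eq_or j).resolve_left fun h => hv (h ▸ hb.1)).symm)
      · have t := (tch_cut hC hg.1.1).mp hg.2
        obtain ⟨a', b', e2, -, h⟩ := col_eq.mp (q g hg.1.1 t hg.1.2)
        rw [e1] at e2
        cases e2
        exact h.imp (uniq hH hC h3 hg.1.1 a1 hv ha.1 t a5 · a3)
          (uniq hH hC h3 hg.1.1 b1 hv hb.1 t b5 · b3)
      · rintro g (rfl | rfl)
        · exact ⟨⟨a1, (cU _ _ a4 a2 hD).trans (col_eq.mpr ⟨a, b, e1, hab, Or.inl a3⟩)⟩,
            (tch_cut hC a1).mpr a5⟩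
        · exact ⟨⟨b1, (cU _ _ b4 b2 hD).trans (col_eq.mpr ⟨a, b, e1, hab, Or.inr b3⟩)⟩,
            (tch_cut hC b1).mpr b5⟩
  have nz : ∀ {e}, ¬ G.Tch e z → e ∈ G.In {z}ᶜ := fun t =>
    ⟨fun h => t (Or.inl h), fun h => t (Or.inr h)⟩
  have two : ∀ {F : Set E} {e : E} {a b : V}, e ∈ F → G.Tch e a → G.Tch e b → G.Conn F a b :=
    fun he ta tb => (ta.conn he).symm.trans (tb.conn he)
  refine ⟨c, fun e he => cz e ((tch_cut hC he.1).mp he.2), fun i v hv => ?_,
    fun i s hs hsz => ?_, fun y hy hyz => ?_⟩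
  · unfold Gr.dg
    rcases (cls N c (some i) ∩ G.cut {v}).eq_empty_or_nonempty with h | ⟨e, he⟩
    · rw [h]
      simp
    · obtain ⟨e1, e2, h1, h2, -⟩ := star i v hv e he.1 ((tch_cut hC he.1.1).mp he.2)
      rw [h2, Set.ncard_pair h1]
      exact even_two
  · have hT : ∀ x ∈ S, x ≠ z → G.Conn (cls N c (some i) ∩ G.In {z}ᶜ) s x := by
      intro x hx hxz
      by_contra hc
      obtain ⟨h, a, b, e1, e2⟩ := c3 i {u | G.Conn (cls N c (some i) ∩ G.In {z}ᶜ) s u}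
        (spl_of_mem ⟨hs, hsz⟩ ⟨hx, hxz⟩ (Gr.Conn.refl _ _ _) hc)
      have hab : a ≠ b := fun h => e2 (h ▸ Iff.rfl)
      obtain ⟨⟨⟨ha, ea, a1, a2, a3, a4⟩, hD⟩, ⟨hb, eb, b1, b2, b3, b4⟩, -⟩ := c1 _ _ _ _ e1
      have ma : ea ∈ cls N c (some i) ∩ G.In {z}ᶜ :=
        ⟨⟨a1, (cU _ _ a4 a2 hD).trans (col_eq.mpr ⟨a, b, e1, hab, Or.inl a3⟩)⟩, nz a4⟩
      have mb : eb ∈ cls N c (some i) ∩ G.In {z}ᶜ :=
        ⟨⟨b1, (cU _ _ b4 b2 hD).trans (col_eq.mpr ⟨a, b, e1, hab, Or.inr b3⟩)⟩, nz b4⟩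
      have k : G.Conn (cls N c (some i) ∩ G.In {z}ᶜ) a b := by
        rcases h with g | v
        · exact two ma a3 ((item_inl b2).1.trans (item_inl a2).1.symm ▸ b3)
        · exact (two ma a3 ((item_inr hC a1).mp a2).2).trans
            (two mb ((item_inr hC b1).mp b2).2 b3)
      exact e2 ⟨fun h => Gr.Conn.trans h k, fun h => Gr.Conn.trans h k.symm⟩
    intro x hxz hx
    by_cases hxS : x ∈ S
    · exact hT x hxS hxz
    · obtain ⟨e, he, t⟩ := hx.resolve_left hxS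
      obtain ⟨e1, e2, -, h2, h4⟩ := star i x hxS e he t
      have m : e2 ∈ cls N c (some i) ∩ G.cut {x} := h2 ▸ Or.inr rfl
      obtain ⟨a, ha, j, -⟩ := star_end hC m.1.1 hxS ((tch_cut hC m.1.1).mp m.2)
      exact (hT a ha fun h => h4 (h ▸ j.tch')).trans (Gr.Conn.edge ⟨m.1, nz h4⟩ j.symm)
  · have fin : (cls N c none ∩ G.cut {y}).Finite := hH.fin.subset fun e he => he.1.1
    refine (c4 y ⟨hy, hyz⟩).trans ((Set.ncard_le_ncard ?_ (fin.image (item G S))).trans
      (Set.ncard_image_le fin))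
    intro h hh
    obtain ⟨-, e, he, e1, t, tz⟩ := c2 h y hh
    refine ⟨e, ⟨⟨he, ?_⟩, (tch_cut hC he).mpr t⟩, e1⟩
    by_cases hD : h ∈ DD G N S z c0
    · rw [cD e h tz e1 hD, if_neg fun h' : e = pk h => pk4 h hD y hh (h' ▸ t)]
    · rw [cU e h tz e1 hD, show ch h = _ from hh]
      rfl

end Pool.Agent.MP_7f38c2_co.H28
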