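import Pool.Agent.MP_7f38c2_co.H28.Spec

/-! The two-colour lemma from an anchored minimal state. -/

namespace Pool.Agent.MP_7f38c2_co.H28

open Classical

universe u

namespace BUILD

variable {V E L : Type u} {G : Gr V E} {D : Set V} {I : Type} {α β : Option I → V}

lemma pi_inl (σ : St G D (G.In D) 63000 α β (CapT I) L) {u v : V} (h : σ.pi u = Sum.inl v) :
    u = v := by
  unfold St.pi at h
  split_ifs at h
  exact Sum.inl_injective h

lemma pi_inr (σ : St G D (G.In D) 63000 α β (CapT I) L) {u : V} {q : L} :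
    σ.pi u = Sum.inr q ↔ u ∈ D ∧ ¬ σ.Vis none q ∧ σ.l u = q := by
  unfold St.pi
  split_ifs with h
  · refine ⟨fun h' => ?_, fun h' => by rw [h'.2.2]⟩
    obtain rfl := Sum.inr_injective h'
    exact ⟨h.1, h.2, rfl⟩
  · refine ⟨fun h' => (by cases h'), ?_⟩
    rintro ⟨h1, h2, rfl⟩
    exact absurd ⟨h1, h2⟩ h

lemma pi_of_vis (σ : St G D (G.In D) 63000 α β (CapT I) L) {u : V} (h : σ.Vis none (σ.l u)) :
    σ.pi u = Sum.inl u := if_neg fun h' => h'.2 h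

lemma aug_bdy (σ : St G D (G.In D) 63000 α β (CapT I) L) (W : Finset (E ⊕ I × ℕ)) :
    σ.aug.bdy W = G.bdy W.toLeft +
      ∑ p ∈ W.toRight, (pt ((σ.r (some p.1)).w p.2) + pt ((σ.r (some p.1)).w' p.2)) := by
  conv_lhs => rw [← Finset.toLeft_disjSum_toRight (u := W)]
  exact Finset.sum_disjSum _ _ _

/-- a letter together with letters joined to it by many free edges is a cell -/
lemma cell_star [Fintype I] (σ : St G D (G.In D) 63000 α β (CapT I) L) (φ : L → L) (y : L)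
    (hy : φ y = y) (x0 : V) (hx0 : x0 ∈ D) (hl : σ.l x0 = y)
    (h : ∀ q ∈ σ.l '' D, φ q = y → q = y ∨ (63000 : ℕ∞) ≤ (σ.btw q {y}).encard) :
    G.Cell 63000 (D ∩ (φ ∘ σ.l) ⁻¹' {y}) (σ.free ∩ G.In (D ∩ (φ ∘ σ.l) ⁻¹' {y})) := by
  have hsub : ∀ q, φ q = y → D ∩ σ.l ⁻¹' {q} ⊆ D ∩ (φ ∘ σ.l) ⁻¹' {y} := by
    rintro q hq v ⟨h1, h2⟩
    exact ⟨h1, (congrArg φ h2).trans hq⟩
  refine ⟨?_, Set.inter_subset_right, σ.free_finite.subset fun _ he =>
    ⟨Gr.In_mono Set.inter_subset_left he.1, fun h => he.2 ⟨h, he.1⟩⟩, fun U hU => ?_⟩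
  · have : D ∩ (φ ∘ σ.l) ⁻¹' {y} = ⋃ q ∈ σ.l '' D ∩ φ ⁻¹' {y}, D ∩ σ.l ⁻¹' {q} := by
      refine Set.Subset.antisymm (fun v hv => Set.mem_biUnion (x := σ.l v)
        ⟨⟨v, hv.1, rfl⟩, hv.2⟩ ⟨hv.1, rfl⟩) (Set.iUnion₂_subset fun q hq => hsub q hq.2)
    rw [this]
    exact Gr.cut_biUnion_finite (σ.fin.inter_of_left _) fun q _ => σ.cutf q
  · have key : ∀ q, φ q = y → Spl (D ∩ σ.l ⁻¹' {q}) U → ((63000 : ℕ) : ℕ∞) ≤
        (σ.free ∩ G.In (D ∩ (φ ∘ σ.l) ⁻¹' {y}) ∩ G.cut U).encard := fun q hq hs =>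
      (σ.ec q U hs).trans (Set.encard_le_encard (Set.inter_subset_inter_left _
        (Set.inter_subset_inter_right _ (Gr.In_mono (hsub q hq)))))
    have same : ∀ q, ¬ Spl (D ∩ σ.l ⁻¹' {q}) U → ∀ u ∈ D, ∀ v ∈ D, σ.l u = q → σ.l v = q →
        (u ∈ U ↔ v ∈ U) := by
      intro q hq u hu v hv h1 h2
      by_contra h3
      by_cases h4 : u ∈ U
      · exact hq (spl_of_mem ⟨hu, h1⟩ ⟨hv, h2⟩ h4 fun h5 => h3 (iff_of_true h4 h5))
      · exact hq (spl_of_mem ⟨hv, h2⟩ ⟨hu, h1⟩ (by tauto) h4)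
    obtain ⟨x, hx, hx'⟩ : ∃ x ∈ D ∩ (φ ∘ σ.l) ⁻¹' {y}, ¬ (x ∈ U ↔ x0 ∈ U) := by
      obtain ⟨⟨x1, h1, h2⟩, x2, h3, h4⟩ := hU
      by_cases h5 : x0 ∈ U
      · exact ⟨x2, h3, fun h => h4 (h.mpr h5)⟩
      · exact ⟨x1, h1, fun h => h5 (h.mp h2)⟩
    by_cases h1 : Spl (D ∩ σ.l ⁻¹' {y}) U
    · exact key y hy h1
    by_cases h2 : Spl (D ∩ σ.l ⁻¹' {σ.l x}) U
    · exact key _ hx.2 h2
    rcases h _ ⟨x, hx.1, rfl⟩ hx.2 with h3 | h3
    · exact absurd (same y h1 x hx.1 x0 hx0 h3 hl) hx'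
    · refine le_trans (by exact_mod_cast h3) (Set.encard_le_encard ?_)
      rintro g ⟨h4, u, v, h5, h6, h7⟩
      obtain ⟨h8, h9⟩ := h5.mem_In.mp h4.1
      refine ⟨⟨h4, h5.mem_In.mpr ⟨hsub _ hx.2 ⟨h8, h6⟩, hsub y hy ⟨h9, h7⟩⟩⟩, h5.mem_cut.mpr ?_⟩
      rwa [same _ h2 u h8 x hx.1 h6 rfl, same y h1 v h9 x0 hx0 h7 hl]

end BUILD

open BUILD in
theorem rowBuild (hCT : StCT2.{u}) (hOne : StOne.{u}) (hMR : StMR.{u}) : StBuild.{u} := by
  intro V E L G κ D I _ α β S z hG hκ hSD haS hz hz0 σ hσ ⟨hN, M, hM, hSM, hanc⟩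
  have haD := hSD haS
  obtain ⟨W, hWN, hWb, hWM, hWr⟩ := hCT _ _ (σ.aug.map σ.pi) σ.NN M (Finsupp.mapDomain σ.pi z)
    (σ.pi (α none)) hN hM (fun x hx => by
      by_contra h
      rw [mapDomain_apply_eq] at hx
      refine hx (ev_eq_zero fun v hv => ?_)
      by_contra h'
      exact h (Set.mem_singleton_iff.mp hv ▸ hSM v (hz v h')))
    (by rw [ev_mapDomain, Set.preimage_univ, hz0]) (hSM _ haS)
  set P := σ.r none with hP
  set Us : L → Prop := fun q => (σ.aug.map σ.pi).Conn W (σ.pi (α none)) (Sum.inr q) with hUs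
  have hanc' : ∀ q, ∃ y, q ∈ σ.l '' D → ¬ σ.Vis none q → ¬ Us q →
      σ.Vis none y ∧ (63000 : ℕ∞) ≤ (σ.btw q {y}).encard := by
    intro q
    by_cases h : q ∈ σ.l '' D ∧ ¬ σ.Vis none q ∧ ¬ Us q
    · obtain ⟨y, hy⟩ := (hanc q h.1 h.2.1).resolve_left fun h' => h.2.2 (hWM _ h')
      exact ⟨y, fun _ _ _ => hy⟩
    · exact ⟨q, fun h1 h2 h3 => absurd ⟨h1, h2, h3⟩ h⟩
  choose anc hanc using hanc'
  set φ : L → L := fun q => if ¬ σ.Vis none q ∧ ¬ Us q then anc q else q with hφ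
  have φA : ∀ q, σ.Vis none q → φ q = q := fun q h => if_neg fun h' => h'.1 h
  have φU : ∀ q, Us q → φ q = q := fun q h => if_neg fun h' => h'.2 h
  have φB : ∀ v ∈ D, ¬ σ.Vis none (φ (σ.l v)) → Us (σ.l v) ∧ φ (σ.l v) = σ.l v := by
    intro v hv h
    by_cases h1 : Us (σ.l v)
    · exact ⟨h1, φU _ h1⟩
    by_cases h2 : σ.Vis none (σ.l v)
    · exact absurd ((φA _ h2).symm ▸ h2) h
    · refine absurd ?_ h
      rw [show φ (σ.l v) = anc (σ.l v) from if_pos ⟨h2, h1⟩]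
      exact (hanc _ ⟨v, hv, rfl⟩ h2 h1).1
  set ρ := φ ∘ σ.l with hρ
  have hT : (ρ '' D).Finite := by
    rw [hρ, Set.image_comp]
    exact σ.fin.image φ
  set T := hT.toFinset with hTd
  have memT : ∀ v ∈ D, ρ v ∈ T := fun v hv => hT.mem_toFinset.mpr ⟨v, hv, rfl⟩
  set w : I × ℕ → V := fun p => (σ.r (some p.1)).w p.2 with hw
  set w' : I × ℕ → V := fun p => (σ.r (some p.1)).w' p.2 with hw'
  have hv : ∀ p ∈ W.toRight, w p ∈ D ∧ w' p ∈ D ∧ σ.l (w' p) = σ.l (w p) ∧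
      σ.Vis none (σ.l (w p)) ∧ p.2 ≤ (σ.r (some p.1)).n ∧ w p ≠ w' p := by
    intro p hp
    have h1 := hWN (Finset.mem_toRight.mp hp)
    have h2 := σ.mem _ _ h1.1
    exact ⟨h2.1, h2.2.1, h2.2.2.symm, h1.2.1, h1.1, h1.2.2⟩
  have hr : ∀ g ∈ W.toLeft, g ∈ G.In D ∧ g ∉ P.es ∧ ∀ y, g ∉ σ.free ∩ G.In (D ∩ ρ ⁻¹' {y}) := by
    intro g hg
    have hg' := Finset.mem_toLeft.mp hg
    rcases hWN hg' with ⟨i, hi⟩ | ⟨h1, h2, h3, h4⟩
    · exact ⟨σ.sub _ hi, Set.disjoint_left.mp (σ.dis (by simp)) hi,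
        fun y h => h.1.2 (Set.mem_iUnion.mpr ⟨_, hi⟩)⟩
    · refine ⟨h1.1, fun h => h1.2 (Set.mem_iUnion.mpr ⟨_, h⟩), fun y h => h4 ?_⟩
      have h5 : Us (σ.l (G.s g)) := by
        have := hWr.tch hg' (Or.inl rfl)
        rwa [show (σ.aug.map σ.pi).s (Sum.inl g) = Sum.inr (σ.l (G.s g)) from
          (pi_inr σ).mpr ⟨h1.1.1, h2, rfl⟩] at this
      have h6 : Us (σ.l (G.t g)) := by
        have := hWr.tch hg' (Or.inr rfl)
        rwa [show (σ.aug.map σ.pi).t (Sum.inl g) = Sum.inr (σ.l (G.t g)) from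
          (pi_inr σ).mpr ⟨h1.1.2, h3, rfl⟩] at this
      rw [← φU _ h5, ← φU _ h6]
      exact Eq.trans h.2.1.2 (Eq.symm h.2.2.2)
  have hξ : ∀ x, ev (σ.pi ⁻¹' {x}) (z + σ.aug.bdy W) = 0 := fun x => by
    rw [← mapDomain_apply_eq, Finsupp.mapDomain_add, ← Gr.bdy_map, hWb, ch_add_self]
    rfl
  have hPk : ∀ k ≤ P.n, P.w k ∈ D ∧ P.w' k ∈ D ∧ σ.l (P.w' k) = σ.l (P.w k) ∧
      σ.Vis none (σ.l (P.w k)) := fun k hk =>
    ⟨(σ.mem _ k hk).1, (σ.mem _ k hk).2.1, (σ.mem _ k hk).2.2.symm, k, hk, rfl⟩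
  have resp : ∀ y u u', u ∈ D → u' ∈ D → σ.l u' = σ.l u → σ.Vis none (σ.l u) →
      res (D ∩ ρ ⁻¹' {y}) (pt u + pt u') = if σ.l u = y then pt u + pt u' else 0 := by
    intro y u u' h1 h2 h3 h4
    have h5 : u ∈ D ∩ ρ ⁻¹' {y} ↔ σ.l u = y := by
      rw [← φA _ h4]
      exact and_iff_right h1
    have h6 : u' ∈ D ∩ ρ ⁻¹' {y} ↔ σ.l u = y := by
      rw [← φA _ h4, ← h3]
      exact and_iff_right h2
    rw [map_add, res_pt, res_pt]
    by_cases h : σ.l u = y <;> simp only [h5, h6, h, if_true, if_false, add_zero]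
  have piece : ∀ y, ∃ F1 F2, y ∈ T → F1 ⊆ σ.free ∩ G.In (D ∩ ρ ⁻¹' {y}) ∧
      F2 ⊆ σ.free ∩ G.In (D ∩ ρ ⁻¹' {y}) ∧ Disjoint F1 F2 ∧
      G.PP κ (res (D ∩ ρ ⁻¹' {y}) P.jz) F1 ∧
      G.PP κ (res (D ∩ ρ ⁻¹' {y}) (z + G.bdy W.toLeft)) F2 ∧
      (∀ e ∈ F1, ∃ k ≤ P.n, G.Conn F1 (P.w k) (G.s e)) ∧
      (∀ k ≤ P.n, σ.l (P.w k) = y → G.Conn F1 (P.w k) (P.w' k)) ∧
      (∀ p ∈ W.toRight, σ.l (w p) = y → G.Conn F2 (w p) (w' p)) ∧
      (¬ σ.Vis none y → ∀ x ∈ D ∩ ρ ⁻¹' {y}, ∀ x' ∈ D ∩ ρ ⁻¹' {y}, G.Conn F2 x x') ∧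
      (σ.Vis none y → ∀ x ∈ D ∩ ρ ⁻¹' {y}, (∃ k ≤ P.n, G.Conn F1 (P.w k) x) ∨
        ∃ p ∈ W.toRight, G.Conn F2 (w p) x) := by
    intro y
    have hrv : res (D ∩ ρ ⁻¹' {y}) (∑ p ∈ W.toRight, (pt (w p) + pt (w' p))) =
        ∑ p ∈ W.toRight.filter (fun p => σ.l (w p) = y), (pt (w p) + pt (w' p)) := by
      rw [map_sum, Finset.sum_filter]
      exact Finset.sum_congr rfl fun p hp => resp y _ _ (hv p hp).1 (hv p hp).2.1 (hv p hp).2.2.1
        (hv p hp).2.2.2.1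
    have hrj : res (D ∩ ρ ⁻¹' {y}) P.jz = ∑ k ∈ Finset.range (P.n + 1),
        if σ.l (P.w k) = y then pt (P.w k) + pt (P.w' k) else 0 := by
      rw [Rt.jz, map_sum]
      refine Finset.sum_congr rfl fun k hk => ?_
      have := hPk k (Nat.lt_succ_iff.mp (Finset.mem_range.mp hk))
      exact resp y _ _ this.1 this.2.1 this.2.2.1 this.2.2.2
    by_cases hy : σ.Vis none y
    · obtain ⟨k, hk, hky⟩ := id hy
      have huniq : ∀ k' ≤ P.n, σ.l (P.w k') = y → k' = k := fun k' hk' h =>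
        hσ.noTwice none k' hk' k hk (h.trans hky.symm) (le_trans (Set.encard_le_encard
          fun i hi => hi.resolve_left (Option.some_ne_none i)) (σ.cap _))
      have hmem : ∀ u ∈ D, σ.l u = y → u ∈ D ∩ ρ ⁻¹' {y} := fun u hu h =>
        ⟨hu, (congrArg φ h).trans (φA y hy)⟩
      obtain ⟨F1, F2, h1, h2, h3, h4, h5, h6, h7, h8⟩ := hMR V E G κ hG hκ _ _
        (cell_star σ φ y (φA y hy) _ (hPk k hk).1 hky fun q hq h => by
          by_cases h' : ¬ σ.Vis none q ∧ ¬ Us q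
          · rw [show φ q = anc q from if_pos h'] at h
            exact Or.inr (h ▸ (hanc q hq h'.1 h'.2).2)
          · exact Or.inl ((if_neg h' : φ q = q).symm.trans h))
        (I × ℕ) (W.toRight.filter fun p => σ.l (w p) = y) w w' (P.w k) (P.w' k)
        (by
          have h1 : Set.InjOn Prod.fst (W.toRight.filter fun p => σ.l (w p) = y : Set (I × ℕ)) := by
            rintro ⟨i, m⟩ hm ⟨i', m'⟩ hm' (rfl : i = i')
            obtain ⟨h2, h3⟩ := Finset.mem_filter.mp hm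
            obtain ⟨h4, h5⟩ := Finset.mem_filter.mp hm'
            rw [hσ.noTwice (some i) m (hv _ h2).2.2.2.2.1 m' (hv _ h4).2.2.2.2.1 (h3.trans h5.symm)
              (by
                rw [Set.insert_eq_of_mem (show some i ∈ σ.J _ from
                  ⟨m, (hv _ h2).2.2.2.2.1, rfl, (hv _ h2).2.2.2.2.2⟩)]
                exact σ.cap _)]
          have h2 : (Prod.fst '' (W.toRight.filter fun p => σ.l (w p) = y : Set (I × ℕ))).encard ≤
              144 := by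
            refine le_trans (Set.encard_le_encard ?_) (σ.cap y)
            rintro _ ⟨p, hp, rfl⟩
            obtain ⟨h2, h3⟩ := Finset.mem_filter.mp hp
            exact ⟨p.2, (hv _ h2).2.2.2.2.1, h3, (hv _ h2).2.2.2.2.2⟩
          rw [h1.encard_image, Set.encard_coe_eq_coe_finsetCard] at h2
          exact_mod_cast h2)
        (hmem _ (hPk k hk).1 hky) (hmem _ (hPk k hk).2.1 ((hPk k hk).2.2.1.trans hky))
        (fun p hp => by
          obtain ⟨h2, h3⟩ := Finset.mem_filter.mp hp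
          exact ⟨hmem _ (hv p h2).1 h3, hmem _ (hv p h2).2.1 ((hv p h2).2.2.1.trans h3)⟩)
      refine ⟨F1, F2, fun _ => ⟨h1, h2, h3, ?_, ?_, fun e he => ⟨k, hk, h5 e he⟩, ?_,
        fun p hp h => h7 p (Finset.mem_filter.mpr ⟨hp, h⟩), fun h => absurd hy h,
        fun _ x hx => (h8 x hx).imp (fun h => ⟨k, hk, h⟩)
          fun ⟨p, hp, h⟩ => ⟨p, (Finset.mem_filter.mp hp).1, h⟩⟩⟩
      · rwa [hrj, Finset.sum_eq_single k (fun k' hk' h => if_neg fun h' =>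
          h (huniq k' (Nat.lt_succ_iff.mp (Finset.mem_range.mp hk')) h'))
          (fun h => absurd (Finset.mem_range.mpr (Nat.lt_succ_of_le hk)) h), if_pos hky]
      · have h9 : res (D ∩ ρ ⁻¹' {y}) (z + σ.aug.bdy W) = 0 := by
          refine res_eq_zero fun v hv => ?_
          by_cases h : σ.Vis none (σ.l v)
          · rw [← ev_singleton, ← hξ (Sum.inl v)]
            congr 2
            ext u
            exact ⟨fun h' => (Set.mem_singleton_iff.mp h').symm ▸ pi_of_vis σ h, pi_inl σ⟩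
          · have h10 : ¬ Us (σ.l v) := fun h' => h (by
              rw [← φU _ h']
              exact (show φ (σ.l v) = y from hv.2).symm ▸ hy)
            have h11 : σ.pi v = Sum.inr (σ.l v) := (pi_inr σ).mpr ⟨hv.1, h, rfl⟩
            have h14 : ¬ (σ.aug.map σ.pi).Conn W (σ.pi (α none)) (σ.pi v) := h11 ▸ h10
            rw [Finsupp.add_apply, not_not.mp fun h' => h14 (hWM _ (hSM v (hz v h'))), zero_add]
            by_contra h12
            obtain ⟨x, hx, h13⟩ := Gr.tch_of_bdy h12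
            exact h14 (hWr.tch hx (h13.imp (congrArg σ.pi) (congrArg σ.pi)))
        rw [aug_bdy, ← add_assoc, map_add, hrv] at h9
        rwa [ch_eq_of_add h9]
      · intro k' hk' h
        rw [huniq k' hk' h]
        exact h4.conn (by omega)
    by_cases hyT : y ∈ T
    swap
    · exact ⟨∅, ∅, fun h => absurd h hyT⟩
    obtain ⟨x0, hx0, rfl⟩ := hT.mem_toFinset.mp hyT
    have hR : D ∩ ρ ⁻¹' {ρ x0} = D ∩ σ.l ⁻¹' {ρ x0} := by
      ext v
      refine and_congr_right fun hv => ⟨fun h => ?_, fun h => ?_⟩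
      · have h1 : φ (σ.l v) = ρ x0 := h
        exact (φB v hv (h1 ▸ hy)).2.symm.trans h1
      · have h1 : σ.l v = σ.l x0 := Eq.trans h (φB x0 hx0 hy).2
        exact congrArg φ h1
    have h0 : W.toRight.filter (fun p => σ.l (w p) = ρ x0) = ∅ :=
      Finset.filter_eq_empty_iff.mpr fun p hp h => hy (h ▸ (hv p hp).2.2.2.1)
    have hc := σ.cell (ρ x0)
    rw [← hR] at hc
    obtain ⟨F2, h1, h2, h3⟩ := hOne V E G κ hG (by omega) _ _
      ⟨hc.1, hc.2.1, hc.2.2.1, hc.2.2.2.mono (by norm_num) subset_rfl subset_rfl⟩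
      (res (D ∩ ρ ⁻¹' {ρ x0}) (z + G.bdy W.toLeft))
      (fun v hv => by
        by_contra h
        exact hv (by rw [res_apply, if_neg h]))
      (by
        have h1 := hξ (Sum.inr (ρ x0))
        rw [show σ.pi ⁻¹' {Sum.inr (ρ x0)} = D ∩ ρ ⁻¹' {ρ x0} from by
          rw [hR]
          ext v
          exact (pi_inr σ).trans ⟨fun h => ⟨h.1, h.2.2⟩, fun h => ⟨h.1, hy, h.2⟩⟩,
          ← ev_res, aug_bdy, ← add_assoc, map_add, hrv, h0, Finset.sum_empty, add_zero] at h1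
        exact h1)
    refine ⟨∅, F2, fun _ => ⟨Set.empty_subset _, h1, Set.empty_disjoint _, ?_, h2, by simp,
      fun k hk h => absurd ⟨k, hk, h⟩ hy, fun p hp h => absurd (h ▸ (hv p hp).2.2.2.1) hy,
      fun _ => h3, fun h => absurd h hy⟩⟩
    rw [hrj, Finset.sum_eq_zero fun k hk => if_neg fun h =>
      hy ⟨k, Nat.lt_succ_iff.mp (Finset.mem_range.mp hk), h⟩]
    exact Gr.PP.nil G κ
  choose F1 F2 hF using piece
  have s1 : ∀ y ∈ T, F1 y ⊆ (P.esF : Set E) ∪ ⋃ y ∈ T, F1 y := fun y hy e he =>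
    Or.inr (Set.mem_biUnion hy he)
  have s2 : ∀ y ∈ T, F2 y ⊆ (W.toLeft : Set E) ∪ ⋃ y ∈ T, F2 y := fun y hy e he =>
    Or.inr (Set.mem_biUnion hy he)
  have hPf : ∀ g ∈ P.esF, g ∉ σ.free := fun g hg h =>
    h.2 (Set.mem_iUnion.mpr ⟨none, P.coe_esF ▸ Finset.mem_coe.mpr hg⟩)
  have c1 := P.conn (F := (P.esF : Set E) ∪ ⋃ y ∈ T, F1 y) (P.coe_esF ▸ Set.subset_union_left)
    fun k hk => by
      have h1 := memT _ (hPk k hk).1
      exact ((hF _ h1).2.2.2.2.2.2.1 k hk (φA _ (hPk k hk).2.2.2).symm).mono (s1 _ h1)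
  have c2 : ∀ v ∈ D, (σ.aug.map σ.pi).Conn W (σ.pi (α none)) (σ.pi v) →
      G.Conn ((W.toLeft : Set E) ∪ ⋃ y ∈ T, F2 y) (α none) v := by
    intro v hvD h
    refine Gr.Conn.lift (P := (· ∈ D)) ?_ ?_ h _ _ haD hvD rfl rfl
    · rintro (g | p) hx
      · have h1 : g ∈ W.toLeft := Finset.mem_toLeft.mpr hx
        exact ⟨Gr.Conn.edge (Or.inl h1) (G.joins_st g), (hr g h1).1⟩
      · have h1 : p ∈ W.toRight := Finset.mem_toRight.mpr hx
        have h2 := memT _ (hv p h1).1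
        exact ⟨((hF _ h2).2.2.2.2.2.2.2.1 p h1 (φA _ (hv p h1).2.2.2.1).symm).mono (s2 _ h2),
          (hv p h1).1, (hv p h1).2.1⟩
    · intro u u' hu hu' h1 h2
      rcases h3 : σ.pi u' with x | q
      · rw [pi_inl σ h3, pi_inl σ (h1.trans h3)]
        exact Gr.Conn.refl _ _ _
      · obtain ⟨-, h4, h5⟩ := (pi_inr σ).mp h3
        obtain ⟨-, -, h6⟩ := (pi_inr σ).mp (h1.trans h3)
        have h7 : φ q = q := φU q (by rwa [h1.trans h3] at h2)
        have h8 : ρ u = q := (congrArg φ h6).trans h7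
        have h9 := h8 ▸ memT u hu
        exact ((hF q h9).2.2.2.2.2.2.2.2.1 h4 u ⟨hu, h8⟩ u' ⟨hu', (congrArg φ h5).trans h7⟩).mono
          (s2 q h9)
  refine ⟨(P.esF : Set E) ∪ ⋃ y ∈ T, F1 y, (W.toLeft : Set E) ∪ ⋃ y ∈ T, F2 y,
    Set.union_subset (P.coe_esF ▸ σ.sub none) (Set.iUnion₂_subset fun y hy e he =>
      ((hF y hy).1 he).1.1),
    Set.union_subset (fun g hg => (hr g hg).1) (Set.iUnion₂_subset fun y hy e he =>
      ((hF y hy).2.1 he).1.1), ?_, ?_, ?_, ?_, fun x hx => ?_⟩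
  · simp only [Set.disjoint_union_left, Set.disjoint_union_right, Set.disjoint_iUnion_left,
      Set.disjoint_iUnion_right]
    refine ⟨⟨Set.disjoint_left.mpr fun g hg hg' => (hr g hg').2.1 (P.coe_esF ▸ hg),
      fun y hy => Set.disjoint_left.mpr fun g hg hg' => (hr g hg').2.2 y ((hF y hy).1 hg)⟩,
      fun y hy => ⟨Set.disjoint_left.mpr fun g hg hg' => hPf g hg ((hF y hy).2.1 hg').1,
        fun y' hy' => ?_⟩⟩
    by_cases h : y' = y
    · exact h ▸ (hF y' hy').2.2.1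
    · exact Set.disjoint_left.mpr fun g hg hg' =>
        h (Eq.trans (Eq.symm ((hF y' hy').1 hg).2.1.2) ((hF y hy).2.1 hg').2.1.2)
  · rw [← P.bdy_add_jz]
    refine Gr.PP.asm D ρ T P.jz P.esF F1 (fun v hv => ?_)
      (fun y hy => ⟨fun e he => ((hF y hy).1 he).2, (hF y hy).2.2.2.1⟩)
      fun y hy => Set.disjoint_left.mpr fun g hg hg' => hPf g hg ((hF y hy).1 hg').1
    suffices h : v ∈ D from ⟨h, memT v h⟩
    by_contra h
    refine hv ?_
    rw [Rt.jz, Finsupp.finsetSum_apply]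
    refine Finset.sum_eq_zero fun k hk => ?_
    have := hPk k (Nat.lt_succ_iff.mp (Finset.mem_range.mp hk))
    rw [Finsupp.add_apply, pt_apply, pt_apply, if_neg fun h' : P.w k = v => h (h' ▸ this.1),
      if_neg fun h' : P.w' k = v => h (h' ▸ this.2.1), add_zero]
  · rintro e (he | he)
    · obtain ⟨k, hk, rfl⟩ : e ∈ P.es := P.coe_esF ▸ he
      rcases P.hj k hk with h | h
      · exact h.1 ▸ (c1 k hk.le).2
      · exact h.1 ▸ (c1 (k + 1) hk).1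
    · obtain ⟨y, hy, he⟩ := Set.mem_iUnion₂.mp he
      obtain ⟨k, hk, h⟩ := (hF y hy).2.2.2.2.2.1 e he
      exact (c1 k hk).1.trans (h.mono (s1 y hy))
  · have := Gr.PP.asm (κ := κ) D ρ T (z + G.bdy W.toLeft) W.toLeft F2 (fun v hv => ?_)
      (fun y hy => ⟨fun e he => ((hF y hy).2.1 he).2, (hF y hy).2.2.2.2.1⟩)
      fun y hy => Set.disjoint_left.mpr fun g hg hg' => (hr g hg).2.2 y ((hF y hy).2.1 hg')
    · rwa [add_left_comm, ch_add_self, add_zero] at this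
    · suffices h : v ∈ D from ⟨h, memT v h⟩
      by_cases h : z v = 0
      · rw [Finsupp.add_apply, h, zero_add] at hv
        obtain ⟨g, hg, h1⟩ := Gr.tch_of_bdy hv
        exact h1.mem (hr g hg).1
      · exact hSD (hz v h)
  · have h1 := memT x hx
    by_cases h : σ.Vis none (ρ x)
    · rcases (hF _ h1).2.2.2.2.2.2.2.2.2 h x ⟨hx, rfl⟩ with ⟨k, hk, h2⟩ | ⟨p, hp, h2⟩
      · exact ((c1 k hk).1.trans (h2.mono (s1 _ h1))).mono Set.subset_union_left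
      · exact ((c2 _ (hv p hp).1 (hWr _ (Finset.mem_toRight.mp hp))).trans
          (h2.mono (s2 _ h1))).mono Set.subset_union_right
    · obtain ⟨h2, h3⟩ := φB x hx h
      refine (c2 x hx ?_).mono Set.subset_union_right
      rw [(pi_inr σ).mpr ⟨hx, h3 ▸ h, rfl⟩]
      exact h2

end Pool.Agent.MP_7f38c2_co.H28
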