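import Mathlib

/-! Multigraphs given by two end maps: walks, cuts, parity chains, regular regions, patches. -/

namespace Pool.Agent.MP_7f38c2_co.H28

open Classical

/-- a multigraph: every edge `e` has the two ends `s e` and `t e` -/
structure Gr (V E : Type*) where
  s : E → V
  t : E → V

/-- finitely supported parity demands -/
abbrev Ch (V : Type*) := V →₀ ZMod 2

noncomputable def pt {V : Type*} (v : V) : Ch V := Finsupp.single v 1

/-- the sum of the values on `U` -/
noncomputable def ev {V : Type*} (U : Set V) : Ch V →+ ZMod 2 :=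
  Finsupp.liftAddHom fun v => if v ∈ U then AddMonoidHom.id (ZMod 2) else 0

/-- restriction to `U` -/
noncomputable def res {V : Type*} (U : Set V) : Ch V →+ Ch V := Finsupp.filterAddHom (· ∈ U)

/-- `U` separates two points of `X` -/
def Spl {V : Type*} (X U : Set V) : Prop := (X ∩ U).Nonempty ∧ (X \ U).Nonempty

section
variable {V : Type*}

lemma ch_add_self (z : Ch V) : z + z = 0 := by
  ext v
  exact CharTwo.add_self_eq_zero _

lemma ch_eq_of_add {x y : Ch V} (h : x + y = 0) : x = y := by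
  rw [← add_zero x, ← ch_add_self y, ← add_assoc, h, zero_add]

lemma pt_apply (v u : V) : pt v u = if v = u then 1 else 0 := by
  simp [pt, Finsupp.single_apply]

lemma ev_single (U : Set V) (v : V) (c : ZMod 2) :
    ev U (Finsupp.single v c) = if v ∈ U then c else 0 := by
  unfold ev
  rw [Finsupp.liftAddHom_apply_single]
  split_ifs <;> rfl

lemma ev_pt (U : Set V) (v : V) : ev U (pt v) = if v ∈ U then 1 else 0 := ev_single U v 1

lemma res_apply (U : Set V) (z : Ch V) (v : V) : res U z v = if v ∈ U then z v else 0 := by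
  exact Finsupp.filter_apply _ _ _

lemma res_pt (U : Set V) (v : V) : res U (pt v) = if v ∈ U then pt v else 0 := by
  ext u
  rw [res_apply]
  by_cases h : v = u
  · subst h
    split_ifs <;> rfl
  · split_ifs <;> simp [pt_apply, h]

lemma ev_res (U : Set V) (z : Ch V) : ev Set.univ (res U z) = ev U z := by
  induction z using Finsupp.induction_linear with
  | zero => simp
  | add x y hx hy => simp only [map_add, hx, hy]
  | single v c =>
    have : res U (Finsupp.single v c) = if v ∈ U then Finsupp.single v c else 0 := by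
      ext u
      rw [res_apply]
      by_cases h : v = u
      · subst h
        split_ifs <;> rfl
      · split_ifs <;> simp [h]
    rw [this, ev_single]
    split_ifs <;> simp [ev_single]

lemma res_eq_self {U : Set V} {z : Ch V} (h : ∀ v, z v ≠ 0 → v ∈ U) : res U z = z := by
  ext v
  rw [res_apply]
  split_ifs with hv
  · rfl
  · exact (not_not.mp (mt (h v) hv)).symm

lemma res_eq_zero {U : Set V} {z : Ch V} (h : ∀ v ∈ U, z v = 0) : res U z = 0 := by
  ext v
  rw [res_apply]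
  split_ifs with hv
  · exact h v hv
  · rfl

lemma ev_eq_zero {U : Set V} {z : Ch V} (h : ∀ v ∈ U, z v = 0) : ev U z = 0 := by
  rw [← ev_res, res_eq_zero h, map_zero]

lemma ev_singleton (v : V) (z : Ch V) : ev {v} z = z v := by
  induction z using Finsupp.induction_linear with
  | zero => simp
  | add x y hx hy => simp only [map_add, hx, hy, Finsupp.add_apply]
  | single u c => simp [ev_single, Finsupp.single_apply]

/-- the value of a pushed-forward demand is the sum over the fibre -/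
lemma mapDomain_apply_eq {Q : Type*} (π : V → Q) (z : Ch V) (q : Q) :
    Finsupp.mapDomain π z q = ev (π ⁻¹' {q}) z := by
  induction z using Finsupp.induction_linear with
  | zero => simp
  | add x y hx hy => simp only [Finsupp.mapDomain_add, map_add, hx, hy, Finsupp.add_apply]
  | single u c => simp [ev_single, Finsupp.single_apply]

lemma ev_mapDomain {Q : Type*} (π : V → Q) (z : Ch V) (U : Set Q) :
    ev U (Finsupp.mapDomain π z) = ev (π ⁻¹' U) z := by
  induction z using Finsupp.induction_linear with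
  | zero => simp
  | add x y hx hy => simp only [Finsupp.mapDomain_add, map_add, hx, hy]
  | single u c => simp [ev_single]

/-- a demand is the sum of its restrictions to the parts of a labelling -/
lemma sum_res {L : Type*} (X : Set V) (ρ : V → L) (T : Finset L) (z : Ch V)
    (h : ∀ v, z v ≠ 0 → v ∈ X ∧ ρ v ∈ T) : ∑ y ∈ T, res (X ∩ ρ ⁻¹' {y}) z = z := by
  ext v
  rw [Finsupp.finsetSum_apply]
  simp only [res_apply]
  by_cases hv : z v = 0
  · simp [hv]
  · rw [Finset.sum_eq_single (ρ v)]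
    · rw [if_pos ⟨(h v hv).1, rfl⟩]
    · intro b _ hb
      rw [if_neg fun h' => hb (Eq.symm h'.2)]
    · exact fun h' => absurd (h v hv).2 h'

lemma Spl.compl {X U : Set V} (h : Spl X U) : Spl X Uᶜ :=
  ⟨h.2, by simpa [Set.sdiff_eq] using h.1⟩

lemma Spl.mono {X Y U : Set V} (h : Spl X U) (hXY : X ⊆ Y) : Spl Y U :=
  ⟨h.1.mono (Set.inter_subset_inter_left _ hXY), h.2.mono (Set.sdiff_subset_sdiff_left hXY)⟩

lemma spl_of_mem {X U : Set V} {x y : V} (hx : x ∈ X) (hy : y ∈ X) (h : x ∈ U) (h' : y ∉ U) :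
    Spl X U := ⟨⟨x, hx, h⟩, ⟨y, hy, h'⟩⟩

end

namespace Gr

variable {V E : Type*}

/-- locally finite -/
def LF (G : Gr V E) : Prop := ∀ v, {e | G.s e = v ∨ G.t e = v}.Finite

def Joins (G : Gr V E) (e : E) (a b : V) : Prop :=
  (G.s e = a ∧ G.t e = b) ∨ (G.s e = b ∧ G.t e = a)

/-- `u` is an end of `e` -/
def Tch (G : Gr V E) (e : E) (u : V) : Prop := G.s e = u ∨ G.t e = u

/-- `e` and `f` share an end -/
def Touch (G : Gr V E) (e f : E) : Prop := ∃ v, G.Tch e v ∧ G.Tch f v

def Conn (G : Gr V E) (N : Set E) : V → V → Prop :=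
  Relation.ReflTransGen fun a b => ∃ e ∈ N, G.Joins e a b

def cut (G : Gr V E) (X : Set V) : Set E := {e | ¬ (G.s e ∈ X ↔ G.t e ∈ X)}

def In (G : Gr V E) (X : Set V) : Set E := {e | G.s e ∈ X ∧ G.t e ∈ X}

/-- identify vertices along `π` -/
def map {Q : Type*} (G : Gr V E) (π : V → Q) : Gr Q E := ⟨fun e => π (G.s e), fun e => π (G.t e)⟩

inductive Wk (G : Gr V E) : V → List E → V → Prop
  | nil (a : V) : Wk G a [] a
  | cons {a b c : V} {e : E} {l : List E} : G.Joins e a b → Wk G b l c → Wk G a (e :: l) c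

noncomputable def dd (G : Gr V E) (e : E) : Ch V := pt (G.s e) + pt (G.t e)

/-- the parity boundary of a finite edge set -/
noncomputable def bdy (G : Gr V E) (W : Finset E) : Ch V := ∑ e ∈ W, G.dd e

/-- `X` is `j`-edge-connected by the edges of `F` -/
def EC (G : Gr V E) (j : ℕ) (X : Set V) (F : Set E) : Prop :=
  ∀ U, Spl X U → (j : ℕ∞) ≤ (F ∩ G.cut U).encard

/-- a regular region -/
def Reg (G : Gr V E) (κ : ℕ) (D : Set V) : Prop := (G.cut D).Finite ∧ G.EC κ D (G.In D)

def Cell (G : Gr V E) (j : ℕ) (X : Set V) (F : Set E) : Prop :=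
  (G.cut X).Finite ∧ F ⊆ G.In X ∧ (G.In X \ F).Finite ∧ G.EC j X F

/-- the ambient hypothesis -/
def Amb (G : Gr V E) (κ : ℕ) : Prop := G.LF ∧ G.EC (2 * κ) Set.univ Set.univ ∧ Nonempty E

/-- a single edge, or all edges inside a regular region with an even demand -/
def Item (G : Gr V E) (κ : ℕ) (z : Ch V) (I : Set E) : Prop :=
  (∃ e, I = {e} ∧ z = G.dd e) ∨
    ∃ D, G.Reg κ D ∧ I = G.In D ∧ (∀ v, z v ≠ 0 → v ∈ D) ∧ ev Set.univ z = 0

inductive PPn (G : Gr V E) (κ : ℕ) : ℕ → Ch V → Set E → Prop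
  | nil : PPn G κ 0 0 ∅
  | add {n : ℕ} {z ζ : Ch V} {F I : Set E} : PPn G κ n z F → G.Item κ ζ I → Disjoint I F →
      PPn G κ (n + 1) (ζ + z) (I ∪ F)

/-- a patch: a finite disjoint union of items with total demand `z` -/
def PP (G : Gr V E) (κ : ℕ) (z : Ch V) (F : Set E) : Prop := ∃ n, G.PPn κ n z F

/-- every edge of `F` is connected to `a` inside `F` -/
def Root (G : Gr V E) (F : Set E) (a : V) : Prop := ∀ e ∈ F, G.Conn F a (G.s e)

/-- finite outer boundary in the line graph -/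
def FB (G : Gr V E) (F : Set E) : Prop := {e | e ∉ F ∧ ∃ f ∈ F, G.Touch e f}.Finite

def Job (G : Gr V E) (κ : ℕ) (u v : V) (F : Set E) : Prop :=
  ∃ F0, F0 ⊆ F ∧ G.PP κ (pt u + pt v) F0 ∧ ∀ e ∈ F, ∃ x, G.Tch e x ∧ G.Conn F0 u x

variable {G : Gr V E}

lemma Joins.symm {e : E} {a b : V} (h : G.Joins e a b) : G.Joins e b a := Or.symm h

lemma joins_st (G : Gr V E) (e : E) : G.Joins e (G.s e) (G.t e) := Or.inl ⟨rfl, rfl⟩

lemma Joins.tch {e : E} {a b : V} (h : G.Joins e a b) : G.Tch e a := h.imp And.left And.right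

lemma Joins.tch' {e : E} {a b : V} (h : G.Joins e a b) : G.Tch e b := h.symm.tch

lemma Tch.eq_or {e : E} {a b u : V} (h' : G.Tch e u) (h : G.Joins e a b) : u = a ∨ u = b := by
  rcases h with ⟨rfl, rfl⟩ | ⟨rfl, rfl⟩ <;> rcases h' with rfl | rfl <;> simp

lemma Tch.exists_joins {e : E} {u : V} (h : G.Tch e u) : ∃ v, G.Joins e u v :=
  h.elim (fun h => ⟨_, Or.inl ⟨h, rfl⟩⟩) fun h => ⟨_, Or.inr ⟨rfl, h⟩⟩

lemma Joins.eq_or {e : E} {a b u w : V} (h : G.Joins e a b) (h' : G.Joins e u w) :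
    (a = u ∧ b = w) ∨ (a = w ∧ b = u) := by
  rcases h with ⟨rfl, rfl⟩ | ⟨rfl, rfl⟩ <;> rcases h' with h' | h' <;> tauto

lemma Joins.mem_cut {e : E} {a b : V} (h : G.Joins e a b) {U : Set V} :
    e ∈ G.cut U ↔ ¬ (a ∈ U ↔ b ∈ U) := by
  rcases h with ⟨rfl, rfl⟩ | ⟨rfl, rfl⟩
  · rfl
  · exact not_congr iff_comm

lemma Joins.mem_In {e : E} {a b : V} (h : G.Joins e a b) {U : Set V} :
    e ∈ G.In U ↔ a ∈ U ∧ b ∈ U := by
  rcases h with ⟨rfl, rfl⟩ | ⟨rfl, rfl⟩
  · rfl
  · exact and_comm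

lemma Tch.mem {e : E} {u : V} (h : G.Tch e u) {U : Set V} (he : e ∈ G.In U) : u ∈ U :=
  h.elim (fun h => h ▸ he.1) fun h => h ▸ he.2

lemma Joins.dd_eq {e : E} {a b : V} (h : G.Joins e a b) : G.dd e = pt a + pt b := by
  rcases h with ⟨rfl, rfl⟩ | ⟨rfl, rfl⟩
  · rfl
  · exact add_comm _ _

lemma Joins.map {Q : Type*} {e : E} {a b : V} (h : G.Joins e a b) (π : V → Q) :
    (G.map π).Joins e (π a) (π b) := by
  rcases h with ⟨rfl, rfl⟩ | ⟨rfl, rfl⟩
  · exact Or.inl ⟨rfl, rfl⟩
  · exact Or.inr ⟨rfl, rfl⟩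

lemma joins_map {Q : Type*} {π : V → Q} {e : E} {p q : Q} (h : (G.map π).Joins e p q) :
    ∃ a b, G.Joins e a b ∧ π a = p ∧ π b = q := by
  rcases h with ⟨rfl, rfl⟩ | ⟨rfl, rfl⟩
  · exact ⟨_, _, G.joins_st e, rfl, rfl⟩
  · exact ⟨_, _, (G.joins_st e).symm, rfl, rfl⟩

lemma Touch.symm {e f : E} (h : G.Touch e f) : G.Touch f e := h.imp fun _ => And.symm

lemma Conn.refl (G : Gr V E) (N : Set E) (a : V) : G.Conn N a a := Relation.ReflTransGen.refl

lemma Conn.trans {N : Set E} {a b c : V} (h : G.Conn N a b) (h' : G.Conn N b c) :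
    G.Conn N a c := Relation.ReflTransGen.trans h h'

lemma Conn.edge {N : Set E} {a b : V} {e : E} (he : e ∈ N) (h : G.Joins e a b) :
    G.Conn N a b := Relation.ReflTransGen.single ⟨e, he, h⟩

lemma Conn.symm {N : Set E} {a b : V} (h : G.Conn N a b) : G.Conn N b a := by
  induction h with
  | refl => exact Conn.refl _ _ _
  | tail _ hbc ih =>
    obtain ⟨e, he, h⟩ := hbc
    exact (Conn.edge he h.symm).trans ih

/-- transfer of connectivity, edge by edge -/
lemma Conn.of_edges {N N' : Set E} (hN : ∀ e ∈ N, G.Conn N' (G.s e) (G.t e)) {a b : V}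
    (h : G.Conn N a b) : G.Conn N' a b := by
  induction h with
  | refl => exact Conn.refl _ _ _
  | tail _ hbc ih =>
    obtain ⟨e, he, ⟨rfl, rfl⟩ | ⟨rfl, rfl⟩⟩ := hbc
    · exact ih.trans (hN e he)
    · exact ih.trans (hN e he).symm

lemma Conn.mono {N N' : Set E} (hN : N ⊆ N') {a b : V} (h : G.Conn N a b) : G.Conn N' a b :=
  h.of_edges fun e he => Conn.edge (hN he) (G.joins_st e)

lemma Tch.conn {N : Set E} {e : E} (he : e ∈ N) {u : V} (h : G.Tch e u) :
    G.Conn N (G.s e) u := by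
  rcases h with rfl | rfl
  · exact Conn.refl _ _ _
  · exact Conn.edge he (G.joins_st e)

lemma Root.tch {F : Set E} {a : V} (h : G.Root F a) {e : E} (he : e ∈ F) {u : V}
    (hu : G.Tch e u) : G.Conn F a u := (h e he).trans (hu.conn he)

lemma Conn.iff_mem {N : Set E} {U : Set V} (hN : ∀ e ∈ N, e ∉ G.cut U) {a b : V}
    (h : G.Conn N a b) : a ∈ U ↔ b ∈ U := by
  induction h with
  | refl => rfl
  | tail _ hbc ih =>
    obtain ⟨e, he, h⟩ := hbc
    exact ih.trans (not_not.mp fun h' => hN e he (h.mem_cut.mpr h'))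

lemma not_mem_cut_conn {N : Set E} {a : V} {e : E} (he : e ∈ N) :
    e ∉ G.cut {u | G.Conn N a u} := fun h =>
  h ⟨fun h' => Conn.trans h' (Conn.edge he (G.joins_st e)),
    fun h' => Conn.trans h' (Conn.edge he (G.joins_st e).symm)⟩

lemma Conn.mem {N : Set E} {B : Set V} (hN : N ⊆ G.In B) {a b : V} (ha : a ∈ B)
    (h : G.Conn N a b) : b ∈ B :=
  (h.iff_mem fun _ he h' => h' (iff_of_true (hN he).1 (hN he).2)).mp ha

/-- either trivial, or both ends are ends of edges of `N` -/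
lemma Conn.eq_or_tch {N : Set E} {a b : V} (h : G.Conn N a b) : b = a ∨ ∃ e ∈ N, G.Tch e b := by
  induction h with
  | refl => exact Or.inl rfl
  | tail _ hbc _ =>
    obtain ⟨e, he, h⟩ := hbc
    exact Or.inr ⟨e, he, h.tch'⟩

/-- connectivity inside the component -/
lemma Conn.restrict {N : Set E} {a b : V} (h : G.Conn N a b) :
    G.Conn (N ∩ G.In {u | G.Conn N a u}) a b := by
  induction h with
  | refl => exact Conn.refl _ _ _
  | tail hab hbc ih =>
    obtain ⟨e, he, h⟩ := hbc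
    exact ih.trans (Conn.edge ⟨he, h.mem_In.mpr ⟨hab, Conn.trans hab (Conn.edge he h)⟩⟩ h)

lemma Conn.map {Q : Type*} {N : Set E} {a b : V} (h : G.Conn N a b) (π : V → Q) :
    (G.map π).Conn N (π a) (π b) := by
  induction h with
  | refl => exact Conn.refl _ _ _
  | tail _ hbc ih =>
    obtain ⟨e, he, h⟩ := hbc
    exact ih.trans (Conn.edge he (h.map π))

lemma cut_compl (G : Gr V E) (U : Set V) : G.cut Uᶜ = G.cut U := by
  ext e
  simp only [cut, Set.mem_ofPred_eq, Set.mem_compl_iff]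
  tauto

lemma cut_map {Q : Type*} (G : Gr V E) (π : V → Q) (U : Set Q) :
    (G.map π).cut U = G.cut (π ⁻¹' U) := rfl

lemma In_map {Q : Type*} (G : Gr V E) (π : V → Q) (U : Set Q) :
    (G.map π).In U = G.In (π ⁻¹' U) := rfl

lemma In_mono {X Y : Set V} (h : X ⊆ Y) : G.In X ⊆ G.In Y := fun _ he => ⟨h he.1, h he.2⟩

lemma disjoint_In {X Y : Set V} (h : Disjoint X Y) : Disjoint (G.In X) (G.In Y) :=
  Set.disjoint_left.mpr fun _ h1 h2 => Set.disjoint_left.mp h h1.1 h2.1

lemma cut_inter_subset (G : Gr V E) (U U' : Set V) : G.cut (U ∩ U') ⊆ G.cut U ∪ G.cut U' := by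
  intro e he
  simp only [cut, Set.mem_ofPred_eq, Set.mem_inter_iff, Set.mem_union] at he ⊢
  tauto

lemma cut_union_subset (G : Gr V E) (U U' : Set V) : G.cut (U ∪ U') ⊆ G.cut U ∪ G.cut U' := by
  intro e he
  simp only [cut, Set.mem_ofPred_eq, Set.mem_union] at he ⊢
  tauto

lemma cut_diff_subset (G : Gr V E) (U U' : Set V) : G.cut (U \ U') ⊆ G.cut U ∪ G.cut U' := by
  intro e he
  simp only [cut, Set.mem_ofPred_eq, Set.mem_union, Set.mem_sdiff] at he ⊢
  tauto

lemma cut_biUnion_finite {ι : Type*} {T : Set ι} (hT : T.Finite) {U : ι → Set V}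
    (h : ∀ i ∈ T, (G.cut (U i)).Finite) : (G.cut (⋃ i ∈ T, U i)).Finite := by
  refine (hT.biUnion h).subset fun e he => ?_
  by_contra h1
  simp only [Set.mem_iUnion, not_exists, cut, Set.mem_ofPred_eq, not_not] at h1 he
  exact he (exists_congr fun i => exists_congr fun hi => h1 i hi)

lemma LF.inc (h : G.LF) {X : Set V} (hX : X.Finite) : {e | G.s e ∈ X ∨ G.t e ∈ X}.Finite := by
  refine (hX.biUnion fun v _ => h v).subset ?_
  rintro e (he | he)
  · exact Set.mem_biUnion he (Or.inl rfl)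
  · exact Set.mem_biUnion he (Or.inr rfl)

lemma LF.cut (h : G.LF) {X : Set V} (hX : X.Finite) : (G.cut X).Finite :=
  (h.inc hX).subset fun e he => by
    by_contra h1
    simp only [Set.mem_ofPred_eq, not_or] at h1
    exact he (iff_of_false h1.1 h1.2)

lemma ends_finite (G : Gr V E) {N : Set E} (hN : N.Finite) : {v | ∃ e ∈ N, G.Tch e v}.Finite := by
  refine ((hN.image G.s).union (hN.image G.t)).subset ?_
  rintro v ⟨e, he, h | h⟩
  · exact Or.inl ⟨e, he, h⟩
  · exact Or.inr ⟨e, he, h⟩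

lemma EC.mono {j j' : ℕ} {X X' : Set V} {F F' : Set E} (h : G.EC j X F) (hj : j' ≤ j)
    (hX : X' ⊆ X) (hF : F ⊆ F') : G.EC j' X' F' := fun U hU =>
  (Nat.cast_le.mpr hj).trans ((h U (hU.mono hX)).trans
    (Set.encard_le_encard (Set.inter_subset_inter_left _ hF)))

lemma EC.conn {j : ℕ} {X : Set V} {F : Set E} (h : G.EC j X F) (hj : 0 < j) {x y : V}
    (hx : x ∈ X) (hy : y ∈ X) : G.Conn F x y := by
  by_contra hc
  have h1 := h {u | G.Conn F x u} (spl_of_mem hx hy (Conn.refl _ _ _) hc)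
  rw [Set.eq_empty_of_forall_notMem (s := F ∩ _) fun e he => not_mem_cut_conn he.1 he.2,
    Set.encard_empty] at h1
  exact hj.ne' (by simpa using h1)

lemma dd_map {Q : Type*} (G : Gr V E) (π : V → Q) (e : E) :
    (G.map π).dd e = Finsupp.mapDomain π (G.dd e) := by
  simp only [dd, pt, Finsupp.mapDomain_add, Finsupp.mapDomain_single, map]

lemma bdy_map {Q : Type*} (G : Gr V E) (π : V → Q) (W : Finset E) :
    (G.map π).bdy W = Finsupp.mapDomain π (G.bdy W) := by
  simp only [bdy, dd_map, Finsupp.mapDomain_finsetSum]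

lemma ev_dd (G : Gr V E) (U : Set V) (e : E) : ev U (G.dd e) = if e ∈ G.cut U then 1 else 0 := by
  simp only [dd, map_add, ev_pt, cut, Set.mem_ofPred_eq]
  by_cases h1 : G.s e ∈ U <;> by_cases h2 : G.t e ∈ U <;> simp [h1, h2]
  rfl

lemma ev_bdy (G : Gr V E) (U : Set V) (W : Finset E) :
    ev U (G.bdy W) = (((W : Set E) ∩ G.cut U).ncard : ZMod 2) := by
  simp only [bdy, map_sum, ev_dd, Finset.sum_boole]
  rw [← Set.ncard_coe_finset]
  congr 2
  ext e
  simp

lemma bdy_apply (G : Gr V E) (W : Finset E) (v : V) :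
    G.bdy W v = (((W : Set E) ∩ G.cut {v}).ncard : ZMod 2) := by
  rw [← ev_singleton, ev_bdy]

lemma ev_univ_bdy (G : Gr V E) (W : Finset E) : ev Set.univ (G.bdy W) = 0 := by
  rw [ev_bdy, Set.eq_empty_of_forall_notMem (s := (W : Set E) ∩ G.cut Set.univ)
    fun e he => he.2 Iff.rfl]
  simp

lemma tch_of_bdy {W : Finset E} {v : V} (h : G.bdy W v ≠ 0) : ∃ e ∈ W, G.Tch e v := by
  rw [bdy_apply] at h
  obtain ⟨e, he, h1⟩ : ((W : Set E) ∩ G.cut {v}).Nonempty := by
    by_contra h2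
    rw [Set.not_nonempty_iff_eq_empty.mp h2] at h
    simp at h
  refine ⟨e, he, ?_⟩
  by_contra h3
  simp only [Tch, not_or] at h3
  exact h1 (iff_of_false h3.1 h3.2)

lemma Wk.append {a b c : V} {l l' : List E} (h : G.Wk a l b) (h' : G.Wk b l' c) :
    G.Wk a (l ++ l') c := by
  induction h with
  | nil => exact h'
  | cons h _ ih => exact Wk.cons h (ih h')

end Gr

/-- a route from `a` to `b`: real edges `e k`, and junctions `(w k, w' k)` between them -/
structure Rt {V E : Type*} (G : Gr V E) (a b : V) where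
  n : ℕ
  e : ℕ → E
  w : ℕ → V
  w' : ℕ → V
  h0 : w 0 = a
  hn : w' n = b
  hj : ∀ k < n, G.Joins (e k) (w' k) (w (k + 1))
  inj : ∀ k < n, ∀ k' < n, e k = e k' → k = k'

namespace Rt

variable {V E : Type*} {G : Gr V E} {a b : V}

def es (r : Rt G a b) : Set E := {g | ∃ k < r.n, r.e k = g}

noncomputable def esF (r : Rt G a b) : Finset E := (Finset.range r.n).image r.e

/-- all junctions are trivial -/
def Real (r : Rt G a b) : Prop := ∀ k, r.w k = r.w' k

/-- the total demand of the junctions -/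
noncomputable def jz (r : Rt G a b) : Ch V :=
  ∑ k ∈ Finset.range (r.n + 1), (pt (r.w k) + pt (r.w' k))

lemma coe_esF (r : Rt G a b) : (r.esF : Set E) = r.es := by
  ext g
  simp [esF, es]

lemma es_finite (r : Rt G a b) : r.es.Finite := r.coe_esF ▸ r.esF.finite_toSet

lemma bdy_add_jz (r : Rt G a b) : G.bdy r.esF + r.jz = pt a + pt b := by
  have h1 : G.bdy r.esF = ∑ k ∈ Finset.range r.n, G.dd (r.e k) :=
    Finset.sum_image fun k hk k' hk' h =>
      r.inj k (Finset.mem_range.mp hk) k' (Finset.mem_range.mp hk') h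
  have h2 : ∀ m ≤ r.n, ∑ k ∈ Finset.range m, G.dd (r.e k) +
      ∑ k ∈ Finset.range (m + 1), (pt (r.w k) + pt (r.w' k)) = pt a + pt (r.w' m) := by
    intro m hm
    induction m with
    | zero => simp [r.h0]
    | succ m ih =>
      rw [Finset.sum_range_succ, Finset.sum_range_succ _ (m + 1), (r.hj m hm).dd_eq,
        add_add_add_comm, ih (by omega)]
      rw [add_assoc (pt (r.w' m)), ← add_assoc (pt (r.w (m + 1))), ch_add_self, zero_add,
        add_assoc, ← add_assoc (pt (r.w' m)), ch_add_self, zero_add]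
  rw [h1, jz, h2 _ le_rfl, r.hn]

lemma conn (r : Rt G a b) {F : Set E} (hF : r.es ⊆ F)
    (h : ∀ k ≤ r.n, G.Conn F (r.w k) (r.w' k)) :
    ∀ k ≤ r.n, G.Conn F a (r.w k) ∧ G.Conn F a (r.w' k) := by
  intro k hk
  induction k with
  | zero =>
    have h1 : G.Conn F a (r.w 0) := by
      rw [r.h0]
      exact Gr.Conn.refl _ _ _
    exact ⟨h1, h1.trans (h 0 hk)⟩
  | succ k ih =>
    have h1 := (ih (by omega)).2.trans (Gr.Conn.edge (hF ⟨k, hk, rfl⟩) (r.hj k hk))
    exact ⟨h1, h1.trans (h _ hk)⟩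

end Rt

lemma Gr.Wk.exists_rt {V E : Type*} [Nonempty E] {G : Gr V E} {a b : V} {l : List E}
    (h : G.Wk a l b) (hl : l.Nodup) : ∃ r : Rt G a b, r.Real ∧ ∀ g ∈ r.es, g ∈ l := by
  induction h with
  | nil a =>
    exact ⟨⟨0, fun _ => Classical.arbitrary E, fun _ => a, fun _ => a, rfl, rfl, by simp, by simp⟩,
      fun _ => rfl, by simp [Rt.es]⟩
  | @cons a b c e l h _ ih =>
    obtain ⟨h1, h2⟩ := List.nodup_cons.mp hl
    obtain ⟨r, h3, h4⟩ := ih h2
    refine ⟨⟨r.n + 1, fun k => Nat.casesOn k e r.e, fun k => Nat.casesOn k a r.w,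
      fun k => Nat.casesOn k a r.w', rfl, r.hn, ?_, ?_⟩, ?_, ?_⟩
    · rintro (_ | k) hk
      · show G.Joins e a (r.w 0)
        rw [r.h0]
        exact h
      · exact r.hj k (by omega)
    · rintro (_ | k) hk (_ | k') hk' h5
      · rfl
      · exact absurd (h4 _ ⟨k', by omega, h5.symm⟩) h1
      · exact absurd (h4 _ ⟨k, by omega, h5⟩) h1
      · rw [r.inj k (by omega) k' (by omega) h5]
    · rintro (_ | k)
      · rfl
      · exact h3 k
    · rintro g ⟨_ | k, hk, rfl⟩
      · exact List.mem_cons_self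
      · exact List.mem_cons_of_mem _ (h4 _ ⟨k, by simpa using hk, rfl⟩)

end Pool.Agent.MP_7f38c2_co.H28
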