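import Pool.Agent.MP_7f38c2_co.H28.Spec

/-! The counting consequences of the minimality of a state. -/

namespace Pool.Agent.MP_7f38c2_co.H28

open Classical

universe u

namespace CNT

lemma enc_biUnion {α E : Type*} (s : Finset α) (W : α → Set E) (c : ℕ)
    (h : ∀ p ∈ s, (W p).encard ≤ c) : (⋃ p ∈ s, W p).encard ≤ ((s.card * c : ℕ) : ℕ∞) := by
  induction s using Finset.induction_on with
  | empty => simp
  | insert a s ha ih =>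
    rw [Finset.set_biUnion_insert, Finset.card_insert_of_notMem ha, add_mul, one_mul, add_comm,
      Nat.cast_add]
    exact (Set.encard_union_le _ _).trans (add_le_add (h a (Finset.mem_insert_self _ _))
      (ih fun p hp => h p (Finset.mem_insert_of_mem hp)))

variable {V E L : Type u} {G : Gr V E} {X : Set V} {F : Set E} {j : ℕ} {ι : Type} {a b : ι → V}
  {Cap : Set ι → Prop} (σ : St G X F j a b Cap L)

/-- the free edges between two sets of letters -/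
def bb (A B : Set L) : Set E := {g | g ∈ σ.free ∧ ∃ u x, G.Joins g u x ∧ σ.l u ∈ A ∧ σ.l x ∈ B}

lemma bb_comm (A B : Set L) : bb σ A B ⊆ bb σ B A :=
  fun _ ⟨h, u, x, h1, h2, h3⟩ => ⟨h, x, u, h1.symm, h3, h2⟩

lemma ends {g : E} (hg : g ∈ σ.free) {u x : V} (h : G.Joins g u x) : u ∈ X ∧ x ∈ X :=
  h.mem_In.1 (σ.hF hg.1)

lemma gen (Z : Set L) (h : ∀ Z1 ⊆ Z, Z1.Nonempty → (Z \ Z1).Nonempty →
    (j : ℕ∞) ≤ (bb σ Z1 (Z \ Z1)).encard) :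
    G.EC j (X ∩ σ.l ⁻¹' Z) (σ.free ∩ G.In (X ∩ σ.l ⁻¹' Z)) := by
  intro U hU
  by_cases hs : ∃ q ∈ Z, Spl (X ∩ σ.l ⁻¹' {q}) U
  · obtain ⟨q, hq, hs⟩ := hs
    exact (σ.ec q U hs).trans (Set.encard_le_encard (Set.inter_subset_inter_left _
      (Set.inter_subset_inter_right _ (Gr.In_mono (Set.inter_subset_inter_right _
        (Set.preimage_mono (Set.singleton_subset_iff.2 hq)))))))
  have key : ∀ v ∈ X, σ.l v ∈ Z →
      (σ.l v ∈ {q | q ∈ Z ∧ ∃ v ∈ X, v ∈ U ∧ σ.l v = q} ↔ v ∈ U) := fun v hv hZ =>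
    ⟨fun ⟨_, v', h1, h2, h3⟩ => by_contra fun hn =>
      hs ⟨_, hZ, spl_of_mem (x := v') (y := v) ⟨h1, h3⟩ ⟨hv, rfl⟩ h2 hn⟩,
      fun h => ⟨hZ, v, hv, h, rfl⟩⟩
  obtain ⟨⟨x, hx, hxU⟩, ⟨y, hy, hyU⟩⟩ := hU
  refine (h {q | q ∈ Z ∧ ∃ v ∈ X, v ∈ U ∧ σ.l v = q} (fun _ h => h.1)
    ⟨_, (key x hx.1 hx.2).2 hxU⟩ ⟨_, hy.2, fun h => hyU ((key y hy.1 hy.2).1 h)⟩).trans
    (Set.encard_le_encard ?_)
  rintro g ⟨hg, u, v, h1, h2, h3⟩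
  obtain ⟨hu, hv⟩ := ends σ hg h1
  exact ⟨⟨hg, h1.mem_In.2 ⟨⟨hu, h2.1⟩, hv, h3.1⟩⟩, h1.mem_cut.2 fun e =>
    h3.2 ((key v hv h3.1).2 (e.1 ((key u hu h2.1).1 h2)))⟩

lemma pair (hj : 0 < j) (hσ : σ.Good) (q q' : L) (hq : q ≠ q') (hc : Cap (σ.J q ∪ σ.J q')) :
    (σ.btw q {q'}).encard < j := by
  by_contra hn
  rw [not_lt] at hn
  obtain ⟨g, hg, u, x, h1, h2, h3⟩ : (σ.btw q {q'}).Nonempty :=
    Set.encard_pos.1 (lt_of_lt_of_le (by exact_mod_cast hj) hn)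
  obtain ⟨hu, hx⟩ := ends σ hg h1
  refine hq (h2.symm.trans ((hσ.noMerge {q, q'} (gen σ _ fun Z1 hZ ⟨c, hc1⟩ ⟨d, hd, hd'⟩ =>
    hn.trans (Set.encard_le_encard ?_)) (by rwa [Set.biUnion_pair]) u ⟨hu, Or.inl h2⟩ x
    ⟨hx, Or.inr h3⟩).trans h3))
  rintro g ⟨hg, u, x, h1, h2, h3⟩
  have h3 : σ.l x = q' := h3
  rcases hZ hc1 with rfl | rfl <;> rcases hd with rfl | rfl
  · exact absurd hc1 hd'
  · exact ⟨hg, u, x, h1, h2.symm ▸ hc1, Or.inr h3, h3.symm ▸ hd'⟩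
  · exact ⟨hg, x, u, h1.symm, h3.symm ▸ hc1, Or.inl h2, h2.symm ▸ hd'⟩
  · exact absurd hc1 hd'

lemma den (hC : ∀ T T', T' ⊆ T → Cap T → Cap T') (hj : 0 < j) (hσ : σ.Good) (Z : Set L)
    (hZ : Z ⊆ σ.l '' X) (hne : Z.Nonempty) (hc : Cap (⋃ q ∈ Z, σ.J q)) :
    ∃ q ∈ Z, (σ.btw q (Z \ {q})).encard < 2 * j := by
  have hf := σ.fin.subset hZ
  obtain ⟨Y, ⟨hY, hY0, hd⟩, hmin⟩ := Set.exists_min_image
    {Y | Y ⊆ Z ∧ Y.Nonempty ∧ (bb σ Y (Z \ Y)).encard < 2 * j} Set.ncard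
    (hf.finite_subsets.subset fun _ h => h.1) ⟨Z, le_rfl, hne, by
      rw [Set.eq_empty_of_forall_notMem (s := bb σ Z (Z \ Z))
        fun g ⟨_, _, _, _, _, h⟩ => h.2 h.1, Set.encard_empty]
      exact_mod_cast (show 0 < 2 * j by omega)⟩
  have hbig : ∀ Z1 ⊆ Y, Z1.Nonempty → (Y \ Z1).Nonempty →
      2 * (j : ℕ∞) ≤ (bb σ Z1 (Y \ Z1)).encard + (bb σ Z1 (Z \ Y)).encard := by
    rintro Z1 h1 h2 ⟨d, hd, hd'⟩
    refine le_trans (not_lt.1 fun h => ?_) ((Set.encard_le_encard (s := bb σ Z1 (Z \ Z1)) ?_).trans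
      (Set.encard_union_le _ _))
    · exact absurd (hmin Z1 ⟨h1.trans hY, h2, h⟩) (not_le.2 (Set.ncard_lt_ncard
        ⟨h1, fun h' => hd' (h' hd)⟩ (hf.subset hY)))
    · rintro g ⟨hg, u, x, e1, e2, e3⟩
      by_cases hx : σ.l x ∈ Y
      · exact Or.inl ⟨hg, u, x, e1, e2, hx, e3.2⟩
      · exact Or.inr ⟨hg, u, x, e1, e2, e3.1, hx⟩
  have hone := hσ.noMerge Y (gen σ Y fun Z1 h1 h2 h3 => by
    have e1 := hbig Z1 h1 h2 h3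
    have e2 := hbig (Y \ Z1) Set.sdiff_subset h3 (h2.mono fun q hq => ⟨h1 hq, fun h => h.2 hq⟩)
    have e3 : (bb σ (Y \ Z1) (Y \ (Y \ Z1))).encard ≤ (bb σ Z1 (Y \ Z1)).encard :=
      Set.encard_le_encard fun g ⟨hg, u, x, f1, f2, f3⟩ =>
        ⟨hg, x, u, f1.symm, not_not.1 fun h => f3.2 ⟨f3.1, h⟩, f2⟩
    have e4 : (bb σ Z1 (Z \ Y)).encard + (bb σ (Y \ Z1) (Z \ Y)).encard ≤
        (bb σ Y (Z \ Y)).encard := by
      rw [← Set.encard_union_eq]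
      · refine Set.encard_le_encard ?_
        rintro g (⟨hg, u, x, f1, f2, f3⟩ | ⟨hg, u, x, f1, f2, f3⟩)
        exacts [⟨hg, u, x, f1, h1 f2, f3⟩, ⟨hg, u, x, f1, f2.1, f3⟩]
      · refine Set.disjoint_left.2 fun g ⟨_, u, x, f1, f2, f3⟩ ⟨_, u', x', g1, g2, g3⟩ => ?_
        rcases f1.eq_or g1 with ⟨rfl, rfl⟩ | ⟨rfl, rfl⟩
        exacts [g2.2 f2, f3.2 g2.1]
    by_contra hn
    rw [not_le] at hn
    have e5 := (add_le_add e1 (e2.trans (add_le_add_left e3 _))).trans_eq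
      (add_add_add_comm _ _ _ _)
    replace e5 := e5.trans (add_le_add_right e4 _)
    obtain ⟨m, hm⟩ := ENat.ne_top_iff_exists.1 hn.ne_top
    obtain ⟨n, hn'⟩ := ENat.ne_top_iff_exists.1 hd.ne_top
    rw [← hm] at e5 hn
    rw [← hn'] at e5 hd
    norm_cast at e5 hn hd
    omega) (hC _ _ (Set.biUnion_subset_biUnion_left hY) hc)
  obtain ⟨q, hq⟩ := hY0
  have e : Y = {q} := Set.eq_singleton_iff_unique_mem.2 ⟨hq, fun q' hq' => by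
    obtain ⟨x, hx, rfl⟩ := hZ (hY hq)
    obtain ⟨y, hy, rfl⟩ := hZ (hY hq')
    exact hone y ⟨hy, hq'⟩ x ⟨hx, hq⟩⟩
  subst e
  exact ⟨q, hY rfl, hd⟩

lemma win (hσ : σ.Good) (q : L) (T : Finset ι) (B : Set L) (c : ℕ) (hq : q ∉ B)
    (h1 : ∀ y ∈ B, ∃ i ∈ T, σ.Vis i y ∧ Cap (insert i (σ.J y)) ∧ Cap (insert i (σ.J q)))
    (h2 : ∀ y ∈ B, (σ.btw q {y}).encard ≤ c) :
    (σ.btw q B).encard ≤ ((3 * c * T.card : ℕ) : ℕ∞) := by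
  let P : ι × ℕ → L → Prop := fun p y => y ∈ B ∧ (σ.btw q {y}).Nonempty ∧
    Cap (insert p.1 (σ.J y)) ∧ Cap (insert p.1 (σ.J q)) ∧
    ∃ k ≤ (σ.r p.1).n, σ.l ((σ.r p.1).w k) = y ∧ k % 3 = p.2
  have hP : ∀ p y y', P p y → P p y' → y = y' := by
    rintro p _ _ ⟨a1, a2, a3, a4, k, a5, rfl, a6⟩ ⟨b1, b2, b3, -, k', b5, rfl, b6⟩
    by_contra hne
    have e1 := hσ.noDetour p.1 k a5 k' b5 q (fun e => hq (e ▸ a1)) (fun e => hq (e ▸ b1)) hne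
      a2 b2 a4 a3 b3
    have e2 := hσ.noDetour p.1 k' b5 k a5 q (fun e => hq (e ▸ b1)) (fun e => hq (e ▸ a1))
      (Ne.symm hne) b2 a2 a4 b3 a3
    exact hne (by rw [show k = k' by omega])
  refine (Set.encard_le_encard ?_).trans ((enc_biUnion (T ×ˢ Finset.range 3)
    (fun p => {g | ∃ y, P p y ∧ g ∈ σ.btw q {y}}) c fun p _ => ?_).trans (le_of_eq ?_))
  · rintro g ⟨hg, u, x, e1, e2, e3⟩
    obtain ⟨i, hi, ⟨k, hk, e4⟩, e5, e6⟩ := h1 _ e3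
    have e7 : g ∈ σ.btw q {σ.l x} := ⟨hg, u, x, e1, e2, rfl⟩
    exact Set.mem_biUnion (x := (i, k % 3)) (Finset.mem_coe.2 (Finset.mem_product.2
      ⟨hi, Finset.mem_range.2 (Nat.mod_lt _ (by norm_num))⟩))
      ⟨_, ⟨e3, ⟨g, e7⟩, e5, e6, k, hk, e4, rfl⟩, e7⟩
  · by_cases h : ∃ y, P p y
    · obtain ⟨y, hy⟩ := h
      refine (Set.encard_le_encard ?_).trans (h2 y hy.1)
      rintro g ⟨y', e1, e2⟩
      exact hP p _ _ e1 hy ▸ e2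
    · rw [Set.eq_empty_of_forall_notMem (s := {g | ∃ y, P p y ∧ g ∈ σ.btw q {y}})
        fun g ⟨y, e, _⟩ => h ⟨y, e⟩]
      simp
  · rw [Finset.card_product, Finset.card_range]
    congr 1
    ring

lemma two (hσ : σ.Good) (q : L) (T : Finset ι)
    (h : ∀ i, σ.Vis i q → i ∈ T ∧ Cap (insert i (σ.J q))) :
    ((⋃ i, (σ.r i).es) ∩ G.cut (X ∩ σ.l ⁻¹' {q})).encard ≤ ((2 * T.card : ℕ) : ℕ∞) := by
  let W : ι → Set E := fun i => {g | ∃ k, (σ.r i).e k = g ∧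
    ((k ≤ (σ.r i).n ∧ σ.l ((σ.r i).w k) = q) ∨ k + 1 ≤ (σ.r i).n ∧ σ.l ((σ.r i).w (k + 1)) = q)}
  refine (Set.encard_le_encard ?_).trans ((enc_biUnion T W 2 fun i _ => ?_).trans
    (le_of_eq (by rw [mul_comm])))
  · rintro g ⟨hg, hc⟩
    obtain ⟨i, k, hk, rfl⟩ := Set.mem_iUnion.1 hg
    have e1 := ((σ.r i).hj k hk).mem_cut.1 hc
    have e2 : (k ≤ (σ.r i).n ∧ σ.l ((σ.r i).w k) = q) ∨
        k + 1 ≤ (σ.r i).n ∧ σ.l ((σ.r i).w (k + 1)) = q := by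
      by_contra hn
      rw [not_or] at hn
      exact e1 (iff_of_false (fun e => hn.1 ⟨hk.le, (σ.mem i k hk.le).2.2.trans e.2⟩)
        fun e => hn.2 ⟨hk, e.2⟩)
    exact Set.mem_biUnion (x := i)
      (Finset.mem_coe.2 (h i (e2.elim (fun e => ⟨_, e⟩) fun e => ⟨_, e⟩)).1) ⟨k, rfl, e2⟩
  · by_cases hv : σ.Vis i q
    · obtain ⟨k0, e1, e2⟩ := id hv
      have e3 : ∀ k ≤ (σ.r i).n, σ.l ((σ.r i).w k) = q → k = k0 := fun k hk e =>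
        hσ.noTwice i k hk k0 e1 (e.trans e2.symm) (e ▸ (h i hv).2)
      refine (Set.encard_le_encard (t := {(σ.r i).e k0, (σ.r i).e (k0 - 1)}) ?_).trans
        ((Set.encard_insert_le _ _).trans (by rw [Set.encard_singleton]; rfl))
      rintro _ ⟨k, rfl, e | e⟩
      · exact Or.inl (by rw [e3 k e.1 e.2])
      · exact Or.inr (by rw [← e3 _ e.1 e.2]; rfl)
    · rw [Set.eq_empty_of_forall_notMem (s := W i)
        fun g ⟨k, _, e⟩ => hv (e.elim (fun e => ⟨_, e⟩) fun e => ⟨_, e⟩)]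
      simp

end CNT

theorem rowCnt : StCnt.{u} := fun _ _ _ _ _ _ _ _ _ _ _ _ hC hj σ hσ =>
  ⟨CNT.pair σ hj hσ, CNT.den σ hC hj hσ, CNT.win σ hσ, CNT.two σ hσ⟩

end Pool.Agent.MP_7f38c2_co.H28
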