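import Pool.Agent.MP_7f38c2_co.H28.Spec

/-! The connector theorem from its four steps. -/

namespace Pool.Agent.MP_7f38c2_co.H28

open Classical Set

universe u

namespace CT

variable {V E : Type u} {G : Gr V E} {r : ℕ} {N : Set E} {S : Set V} {z : V}
  {c0 : E → Option (Fin r)}

lemma del (h : CH G r N S z c0) (ih : IH V E r N.ncard) {e : E} (he : e ∈ N)
    (hU : ∀ U, Spl S U → 72 * r ≤ G.dg (N \ {e}) U) : ∃ c, CC G r N S z c0 c := by
  obtain ⟨s, hs, hsz⟩ := h.two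
  have h1 : e ∉ G.cut {z} := fun h1 => by
    have h2 := hU {z} (spl_of_mem h.zS hs rfl hsz)
    rw [← h.dz] at h2
    exact h2.not_gt (ncard_lt_ncard ⟨inter_subset_inter_left _ sdiff_subset,
      fun h3 => (h3 ⟨he, h1⟩).1.2 rfl⟩ (h.fin.inter_of_left _))
  have h2 : ∀ f ∈ G.cut {z}, f ≠ e := fun f hf h3 => h1 (h3 ▸ hf)
  obtain ⟨c, hc⟩ := ih G (N \ {e}) S z c0 ⟨h.fin.sdiff, h.pos, hU, h.zS, h.two,
    (congrArg ncard (Subset.antisymm (inter_subset_inter_left _ sdiff_subset)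
      fun f hf => ⟨⟨hf.1, h2 f hf.2⟩, hf.2⟩)).trans h.dz,
    h.unc.trans (ncard_le_ncard (fun f hf => ⟨⟨⟨hf.1.1, h2 f hf.2⟩, hf.1.2⟩, hf.2⟩)
      (h.fin.subset fun f hf => hf.1.1.1))⟩ (ncard_sdiff_singleton_lt_of_mem he h.fin)
  have h3 : ∀ i, cls N (Function.update c e none) (some i) = cls (N \ {e}) c (some i) := by
    intro i
    ext f
    by_cases hf : f = e <;> simp [cls, hf]
  refine ⟨Function.update c e none, fun f hf => ?_, fun i => h3 i ▸ hc.par i,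
    fun i => h3 i ▸ hc.con i, fun s hs hz => (hc.unc s hs hz).trans (ncard_le_ncard
      (fun f hf => ⟨⟨hf.1.1.1, ?_⟩, hf.2⟩) (h.fin.subset fun f hf => hf.1.1))⟩
  · rw [Function.update_of_ne (h2 f hf.2)]
    exact hc.ext f ⟨⟨hf.1, h2 f hf.2⟩, hf.2⟩
  · rw [Function.update_of_ne hf.1.1.2]
    exact hf.1.2

lemma crit (h : CH G r N S z c0) {X : Set V} (hX : Spl S X) (h1 : G.dg N X = 72 * r)
    (h2 : N ∩ G.In X = ∅) {e : E} (he : e ∈ N ∩ G.cut X) :
    ∃ s ∈ S, e ∈ G.cut {s} ∧ G.dg N {s} = 72 * r := by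
  obtain ⟨⟨s, hs, hsX⟩, y, hy, hyX⟩ := hX
  have h3 : N ∩ G.cut {s} = N ∩ G.cut X := by
    refine eq_of_subset_of_ncard_le (fun f hf => ⟨hf.1, fun h4 => ?_⟩)
      (h1.le.trans (h.ec {s} (spl_of_mem hs hy rfl fun h4 => hyX (h4 ▸ hsX))))
      (h.fin.inter_of_left _)
    refine eq_empty_iff_forall_notMem.1 h2 f ⟨hf.1, ?_⟩
    by_cases h5 : G.s f = s
    · exact ⟨h5 ▸ hsX, h4.1 (h5 ▸ hsX)⟩
    · have h6 : G.t f = s := by_contra fun h6 => hf.2 (iff_of_false h5 h6)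
      exact ⟨h4.2 (h6 ▸ hsX), h6 ▸ hsX⟩
  exact ⟨s, hs, (h3 ▸ he : e ∈ N ∩ G.cut {s}).2, (congrArg ncard h3).trans h1⟩

lemma all (hM : StMader.{u}) (hL : StLift.{u}) (hT : StTight.{u}) (hB : StBase.{u})
    (V E : Type u) (r n : ℕ) : IH V E r n := by
  induction n with
  | zero => exact fun _ _ _ _ _ _ h => absurd h (Nat.not_lt_zero _)
  | succ n ih =>
  intro G N S z c0 h hn
  have ih : IH V E r N.ncard := fun G' N' S' z' c' h' h1 => ih G' N' S' z' c' h' (by omega)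
  by_cases h1 : ∃ e ∈ N, ∀ U, Spl S U → 72 * r ≤ G.dg (N \ {e}) U
  · obtain ⟨e, he, hU⟩ := h1
    exact del h ih he hU
  by_cases h2 : TT G r N S
  swap
  · exact hT V E G r N S z c0 h ih h2
  have h3 : Crit G r N S := fun e he => by
    push Not at h1
    obtain ⟨U, hU, h3⟩ := h1 e he
    have h4 := h.ec U hU
    have h5 : e ∈ G.cut U := by_contra fun h5 => (h3.trans_le h4).not_ge (ncard_le_ncard
      (fun f hf => ⟨⟨hf.1, fun h6 => h5 (h6 ▸ hf.2)⟩, hf.2⟩) (h.fin.sdiff.inter_of_left _))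
    have h6 := ncard_sdiff_singleton_add_one (a := e) (s := N ∩ G.cut U) ⟨he, h5⟩
      (h.fin.inter_of_left _)
    rw [inter_sdiff_right_comm] at h6
    have h7 : G.dg N U = 72 * r := by
      unfold Gr.dg at *
      omega
    rcases h2 U hU h7 with h8 | h8
    · exact crit h hU h7 h8 ⟨he, h5⟩
    · exact crit h hU.compl (by rwa [Gr.dg, Gr.cut_compl]) h8 ⟨he, by rwa [Gr.cut_compl]⟩
  by_cases h4 : ∀ x, x ∉ S → G.dg N {x} = 0 ∨ G.dg N {x} = 3
  · exact hB V E G r N S z c0 h h3 h4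
  · push Not at h4
    obtain ⟨x, hx, h5, h6⟩ := h4
    exact hL V E G r N S z c0 h ih (hM V E G r N S z c0 h h3 h2 x hx h5 h6)

/-- a new vertex joined to `a` by `n` edges -/
def ad (G : Gr V E) (a : V) (n : ℕ) : Gr (Option V) (E ⊕ Fin n) :=
  ⟨Sum.elim (fun e => some (G.s e)) fun _ => none, Sum.elim (fun e => some (G.t e)) fun _ => some a⟩

end CT

open CT in
theorem rowCT : StMader.{u} → StLift.{u} → StTight.{u} → StBase.{u} → StCT.{u} := by
  intro hM hL hT hB V E G r N S hN hE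
  by_cases h0 : 0 < r ∧ S.Nonempty
  swap
  · exact ⟨fun _ => ∅, by simp, fun _ _ _ => by simp, fun _ _ _ => by simp [Gr.bdy],
      fun i x hx => absurd ⟨i.pos, x, hx⟩ h0⟩
  obtain ⟨hr, a, ha⟩ := h0
  let N' : Set (E ⊕ Fin (72 * r)) := Sum.inl '' N ∪ range Sum.inr
  have hN' : N'.Finite := (hN.image _).union (finite_range _)
  have h1 : (range (Sum.inr : Fin (72 * r) → E ⊕ Fin (72 * r))).ncard = 72 * r := by
    rw [ncard_range_of_injective Sum.inr_injective, Nat.card_fin]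
  have h2 : N' ∩ (ad G a (72 * r)).cut {none} = range Sum.inr := by
    ext (e | e) <;> simp [N', ad, Gr.cut]
  obtain ⟨c, hc⟩ := all hM hL hT hB _ _ r _ (ad G a (72 * r)) N' (insert none (some '' S)) none
    (fun _ => none) ⟨hN', hr, fun U hU => by
      by_cases h : none ∈ U ↔ some a ∈ U
      · have h3 : ∀ x ∈ insert none (some '' S), x.getD a ∈ S ∧ (some (x.getD a) ∈ U ↔ x ∈ U) := by
          rintro _ (rfl | ⟨x, hx, rfl⟩)
          exacts [⟨ha, h.symm⟩, ⟨hx, Iff.rfl⟩]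
        obtain ⟨⟨x, hx, hx'⟩, y, hy, hy'⟩ := hU
        have h4 := hE (some ⁻¹' U) (spl_of_mem (h3 x hx).1 (h3 y hy).1 ((h3 x hx).2.2 hx')
          (mt (h3 y hy).2.1 hy'))
        rw [← (hN.inter_of_left _).cast_ncard_eq, Nat.cast_le] at h4
        exact h4.trans (ncard_le_ncard_of_injOn Sum.inl (fun e he => ⟨Or.inl ⟨e, he.1, rfl⟩, he.2⟩)
          Sum.inl_injective.injOn (hN'.inter_of_left _))
      · refine h1.ge.trans (ncard_le_ncard ?_ (hN'.inter_of_left _))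
        rintro _ ⟨k, rfl⟩
        exact ⟨Or.inr ⟨k, rfl⟩, h⟩,
      Or.inl rfl, ⟨some a, Or.inr ⟨a, ha, rfl⟩, Option.some_ne_none a⟩,
      (congrArg ncard h2).trans h1, by
        rw [Gr.dg, show cls N' (fun _ => (none : Option (Fin r))) none = N' by simp [cls], h2, h1]
        omega⟩ (Nat.lt_succ_self _)
  let C : Fin r → Finset E := fun i => hN.toFinset.filter fun e => c (Sum.inl e) = some i
  have h3 : ∀ i, cls N' c (some i) = Sum.inl '' (C i : Set E) := by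
    intro i
    ext (e | e)
    · simp [N', C, cls]
    · simp [cls, hc.ext (Sum.inr e) (h2 ▸ ⟨e, rfl⟩)]
  refine ⟨C, fun i e he => hN.mem_toFinset.1 (Finset.mem_filter.1 he).1, fun i j hij =>
    Finset.disjoint_filter.2 fun e _ h h' => hij (Option.some_injective _ (h.symm.trans h')),
    fun i v hv => ?_, fun i x hx y hy => ?_⟩
  · have h4 := hc.par i (some v) (by simpa using hv)
    have h5 : Sum.inl '' (C i : Set E) ∩ (ad G a (72 * r)).cut {some v} =
        Sum.inl '' ((C i : Set E) ∩ G.cut {v}) := by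
      ext (e | e) <;> simp [ad, Gr.cut]
    rw [Gr.dg, h3, h5, ncard_image_of_injective _ Sum.inl_injective] at h4
    rw [Gr.bdy_apply]
    exact ZMod.natCast_eq_zero_iff_even.2 h4
  · have h4 := (hc.con i (some x) (Or.inr ⟨x, hx, rfl⟩) (Option.some_ne_none x) (some y)
      (Option.some_ne_none y) (Or.inl (Or.inr ⟨y, hy, rfl⟩))).map fun w => w.getD a
    rw [h3] at h4
    refine Gr.Conn.transfer ?_ h4
    rintro _ ⟨⟨e, he, rfl⟩, -⟩
    exact Gr.Conn.edge he (G.joins_st e)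

end Pool.Agent.MP_7f38c2_co.H28
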