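import Pool.Agent.MP_7f38c2_co.H28.Spec

/-! Consequences of the connector theorem. -/

namespace Pool.Agent.MP_7f38c2_co.H28

open Classical

universe u

namespace FAM

variable {V E : Type u} {G : Gr V E}

/-- the connector theorem with an arbitrary finite set of colours -/
lemma ct (h : StCT.{u}) (G : Gr V E) {r : ℕ} {N : Set E} {S : Set V} (hN : N.Finite)
    (hS : G.EC (72 * r) S N) (ι : Type) [Fintype ι] (hι : Fintype.card ι ≤ r) :
    ∃ C : ι → Finset E, (∀ i, (C i : Set E) ⊆ N) ∧ (Pairwise fun i i' => Disjoint (C i) (C i')) ∧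
      (∀ i v, v ∉ S → G.bdy (C i) v = 0) ∧ ∀ i, ∀ x ∈ S, ∀ y ∈ S, G.Conn (C i) x y := by
  obtain ⟨C, h1, h2, h3, h4⟩ := h V E G r N S hN hS
  obtain ⟨f⟩ := Function.Embedding.nonempty_of_card_le (α := ι) (β := Fin r) (by simpa using hι)
  exact ⟨fun i => C (f i), fun i => h1 _, fun i i' hi => h2 (f.injective.ne hi), fun i => h3 _,
    fun i => h4 _⟩

/-- correcting the parities of one connector inside another one -/
lemma join {C C' : Finset E} {S : Set V} {a : V} (z : Ch V) (hd : Disjoint C C')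
    (hz : ∀ v, z v ≠ 0 → v ∈ S) (hz' : ev Set.univ z = 0) (hb : ∀ v, v ∉ S → G.bdy C v = 0)
    (hc : ∀ y ∈ S, G.Conn C' a y) : ∃ W : Finset E, C ⊆ W ∧ W ⊆ C ∪ C' ∧ G.bdy W = z := by
  obtain ⟨J, h1, h2⟩ := Gr.exists_join (G := G) (N := C') (a := a) (z + G.bdy C)
    (fun v hv => hc v (by
      by_contra hS
      exact hv (by rw [Finsupp.add_apply, hb v hS, not_not.mp (mt (hz v) hS), add_zero])))
    (by rw [map_add, hz', Gr.ev_univ_bdy, add_zero])
  have h3 : J ⊆ C' := Finset.coe_subset.mp h1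
  refine ⟨C ∪ J, Finset.subset_union_left, Finset.union_subset_union_right h3, ?_⟩
  rw [Gr.bdy_union (hd.mono_right h3), h2, add_left_comm, ch_add_self, add_zero]

lemma bdy_filter (W : Finset E) {U : Set V} (hU : ∀ e ∈ W, e ∉ G.cut U) :
    G.bdy (W.filter fun e => G.s e ∈ U) = res U (G.bdy W) := by
  rw [Gr.bdy, Gr.bdy, map_sum, Finset.sum_filter]
  refine Finset.sum_congr rfl fun e he => ?_
  have h := not_not.mp (hU e he)
  by_cases hs : G.s e ∈ U
  · simp [Gr.dd, res_pt, hs, h.mp hs]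
  · simp [Gr.dd, res_pt, hs, mt h.mpr hs]

lemma wk_nil {a b : V} (h : G.Wk a [] b) : a = b := by
  cases h
  rfl

lemma wk_cons {a b c : V} {e : E} {l : List E} (h : G.Wk a (e :: l) c) (he : G.Joins e a b) :
    G.Wk b l c := by
  cases h with
  | cons h1 h2 =>
    rcases h1.eq_or he with ⟨-, rfl⟩ | ⟨rfl, rfl⟩ <;> exact h2

/-- cutting a trail at the terminals -/
lemma cutw {S : Set V} {x y : V} {l : List E} (h : G.Wk x l y) (hy : y ∈ S) (hl : l.Nodup) :
    ∃ (I : Type) (_ : Fintype I) (α β : I → V) (F : I → Set E),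
      (∀ i, α i ∈ S ∧ β i ∈ S ∧ G.Conn (F i) (α i) (β i) ∧ ∀ e ∈ F i, e ∈ l) ∧
      (Pairwise fun i i' => Disjoint (F i) (F i')) ∧
      ∃ s₁ ∈ S, ∃ F₀ : Set E, G.Conn F₀ x s₁ ∧ (∀ e ∈ F₀, e ∈ l) ∧ (∀ i, Disjoint F₀ (F i)) ∧
        ∀ (U : Set V), ∀ s ∈ S, (s = s₁ ∨ ∃ A, A <+: l ∧ G.Wk x A s) → ¬ (s ∈ U ↔ y ∈ U) →
          ∃ i, ¬ (α i ∈ U ↔ β i ∈ U) := by
  induction h with
  | nil a =>
    refine ⟨Empty, inferInstance, Empty.elim, Empty.elim, Empty.elim, fun i => i.elim,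
      fun i => i.elim, a, hy, ∅, Gr.Conn.refl _ _ _, by simp, fun i => i.elim, ?_⟩
    rintro U s - (rfl | ⟨A, hA, hw⟩) hU
    · exact absurd Iff.rfl hU
    · obtain rfl := List.prefix_nil.mp hA
      obtain rfl := wk_nil hw
      exact absurd Iff.rfl hU
  | @cons a b c e l he _ ih =>
    obtain ⟨h1, h2⟩ := List.nodup_cons.mp hl
    obtain ⟨I, hI, α, β, F, h3, h4, s₁, h5, F₀, h6, h7, h8, h9⟩ := ih hy h2
    have c1 : G.Conn (insert e F₀) a s₁ :=
      (Gr.Conn.edge (Set.mem_insert _ _) he).trans (h6.mono (Set.subset_insert _ _))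
    have c2 : ∀ g ∈ insert e F₀, g ∈ e :: l := by
      rintro g (rfl | hg)
      · exact List.mem_cons_self
      · exact List.mem_cons_of_mem _ (h7 g hg)
    have c3 : ∀ i, Disjoint (insert e F₀) (F i) := fun i =>
      Set.disjoint_insert_left.mpr ⟨fun hh => h1 ((h3 i).2.2.2 e hh), h8 i⟩
    have c4 : ∀ s A, A <+: e :: l → G.Wk a A s → s = a ∨ ∃ A, A <+: l ∧ G.Wk b A s := by
      intro s A hA hw
      rcases List.prefix_cons_iff.mp hA with rfl | ⟨A', rfl, hA'⟩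
      · exact Or.inl (wk_nil hw).symm
      · exact Or.inr ⟨A', hA', wk_cons hw he⟩
    by_cases ha : a ∈ S
    · refine ⟨Option I, inferInstance, fun o => o.elim a α, fun o => o.elim s₁ β,
        fun o => o.elim (insert e F₀) F, ?_, ?_, a, ha, ∅, Gr.Conn.refl _ _ _, by simp,
        fun _ => Set.empty_disjoint _, ?_⟩
      · rintro (_ | i)
        · exact ⟨ha, h5, c1, c2⟩
        · exact ⟨(h3 i).1, (h3 i).2.1, (h3 i).2.2.1, fun g hg =>
            List.mem_cons_of_mem _ ((h3 i).2.2.2 g hg)⟩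
      · rintro (_ | i) (_ | i') hi
        · exact absurd rfl hi
        · exact c3 i'
        · exact (c3 i).symm
        · exact h4 fun hh => hi (congrArg some hh)
      · intro U s hs hc hU
        have k1 : s = a → ∃ i : Option I, ¬ (i.elim a α ∈ U ↔ i.elim s₁ β ∈ U) := by
          rintro rfl
          by_cases k : s ∈ U ↔ s₁ ∈ U
          · obtain ⟨i, hi⟩ := h9 U s₁ h5 (Or.inl rfl) fun hh => hU (k.trans hh)
            exact ⟨some i, hi⟩
          · exact ⟨none, k⟩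
        rcases hc with hc | ⟨A, hA, hw⟩
        · exact k1 hc
        · rcases c4 s A hA hw with hc | hc
          · exact k1 hc
          · obtain ⟨i, hi⟩ := h9 U s hs (Or.inr hc) hU
            exact ⟨some i, hi⟩
    · refine ⟨I, hI, α, β, F, fun i => ⟨(h3 i).1, (h3 i).2.1, (h3 i).2.2.1, fun g hg =>
        List.mem_cons_of_mem _ ((h3 i).2.2.2 g hg)⟩, h4, s₁, h5, insert e F₀, c1, c2, c3, ?_⟩
      rintro U s hs (hc | ⟨A, hA, hw⟩) hU
      · exact h9 U s hs (Or.inl hc) hU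
      · rcases c4 s A hA hw with rfl | hc
        · exact absurd hs ha
        · exact h9 U s hs (Or.inr hc) hU

/-- two connectors give a family of segments crossing every splitting set -/
lemma segs {C C' : Finset E} {S : Set V} {a : V} (ha : a ∈ S) (hd : Disjoint C C')
    (hb : ∀ v, v ∉ S → G.bdy C v = 0) (hc : ∀ y ∈ S, G.Conn C a y) (hc' : ∀ y ∈ S, G.Conn C' a y) :
    ∃ (I : Type) (_ : Fintype I) (α β : I → V) (F : I → Set E),
      (∀ i, α i ∈ S ∧ β i ∈ S ∧ G.Conn (F i) (α i) (β i) ∧ F i ⊆ (C : Set E) ∪ C') ∧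
      (Pairwise fun i i' => Disjoint (F i) (F i')) ∧
      ∀ U, Spl S U → ∃ i, ¬ (α i ∈ U ↔ β i ∈ U) := by
  obtain ⟨W, h1, h2, h3⟩ := join (G := G) 0 hd (fun v hv => absurd rfl hv) (map_zero _) hb hc'
  obtain ⟨l, h4, h5, h6, h7⟩ := G.exists_euler W h3 a
  obtain ⟨I, hI, α, β, F, k1, k2, s₁, -, F₀, -, -, -, k3⟩ := cutw h4 ha h5
  refine ⟨I, hI, α, β, F, fun i => ⟨(k1 i).1, (k1 i).2.1, (k1 i).2.2.1, fun e he => ?_⟩, k2, ?_⟩
  · rw [← Finset.coe_union]
    exact h2 (h6 e ((k1 i).2.2.2 e he))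
  · rintro U ⟨⟨x, hx, hxU⟩, ⟨y, hy, hyU⟩⟩
    obtain ⟨s, hs, hU⟩ : ∃ s ∈ S, ¬ (s ∈ U ↔ a ∈ U) := by
      by_cases haU : a ∈ U
      · exact ⟨y, hy, fun hh => hyU (hh.mpr haU)⟩
      · exact ⟨x, hx, fun hh => haU (hh.mp hxU)⟩
    obtain ⟨A, B, rfl, hA, -⟩ := h7 s ((hc s hs).mono (Finset.coe_subset.mpr h1))
    exact k3 U s hs (Or.inr ⟨A, List.prefix_append _ _, hA⟩) hU

end FAM

open FAM

theorem rowCT2 (h : StCT.{u}) : StCT2.{u} := by
  intro V E G N M z a hN hM hz hz' ha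
  obtain ⟨C, h1, h2, h3, h4⟩ := h V E G 2 N M hN hM
  obtain ⟨W, k1, k2, k3⟩ := join (G := G) z (h2 (show (0 : Fin 2) ≠ 1 by decide)) hz hz' (h3 0)
    (h4 1 a ha)
  have k4 : ∀ x ∈ M, G.Conn W a x := fun x hx => (h4 0 a ha x hx).mono (Finset.coe_subset.mpr k1)
  have k5 : ∀ x, G.Conn W a x → G.Conn (W.filter fun e => G.s e ∈ {u | G.Conn W a u}) a x :=
    fun x hx => hx.restrict.mono fun e he => Finset.mem_filter.mpr ⟨he.1, he.2.1⟩
  refine ⟨W.filter fun e => G.s e ∈ {u | G.Conn W a u}, fun e he => ?_, ?_,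
    fun x hx => k5 x (k4 x hx), fun e he => k5 _ (Finset.mem_filter.mp he).2⟩
  · rcases Finset.mem_union.mp (k2 (Finset.mem_filter.mp he).1) with h5 | h5
    · exact h1 0 h5
    · exact h1 1 h5
  · rw [bdy_filter W fun e he => Gr.not_mem_cut_conn he, k3]
    exact res_eq_self fun v hv => k4 v (hz v hv)

theorem rowLink (h : StCT.{u}) : StLink.{u} := by
  intro V E _ G N S ι _ c d m hN hS hι hcd
  obtain ⟨C, h1, h2, -, h4⟩ := ct h G hN hS ι hι
  choose r h5 h6 using fun i => (h4 i _ (hcd i).1 _ (hcd i).2).exists_rt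
  exact ⟨r, fun i => ⟨h5 i, (h6 i).trans (h1 i)⟩, fun i i' hi =>
    (Finset.disjoint_coe.mpr (h2 hi)).mono (h6 i) (h6 i')⟩

theorem rowFam (h : StCT.{u}) : StFam.{u} := by
  intro V E _ G l0 N S a b hN hS ha hb
  obtain ⟨C, h1, h2, h3, h4⟩ := ct h G hN hS (Option (Fin l0 × Bool)) (by simp [mul_comm])
  have h2' : ∀ i i', i ≠ i' → Disjoint (C i : Set E) (C i') := fun i i' hi =>
    Finset.disjoint_coe.mpr (h2 hi)
  choose I hI α β F k1 k2 k3 using fun t : Fin l0 => segs (G := G) ha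
    (h2 (show some (t, false) ≠ some (t, true) by simp)) (h3 _) (h4 _ a ha) (h4 _ a ha)
  let F' : Option (Σ t, I t) → Set E := fun o => o.elim (C none) fun p => F p.1 p.2
  have c1 : ∀ o : Option (Σ t, I t), G.Conn (F' o) (o.elim a fun p => α p.1 p.2)
      (o.elim b fun p => β p.1 p.2) := by
    rintro (_ | p)
    · exact h4 none a ha b hb
    · exact (k1 p.1 p.2).2.2.1
  have c2 : ∀ p : Σ t, I t, Disjoint (F' none) (F' (some p)) := fun p =>
    (Set.disjoint_union_right.mpr ⟨h2' _ _ (by simp), h2' _ _ (by simp)⟩).mono_right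
      (k1 p.1 p.2).2.2.2
  have c3 : Pairwise fun o o' => Disjoint (F' o) (F' o') := by
    rintro (_ | ⟨t, i⟩) (_ | ⟨t', i'⟩) hi
    · exact absurd rfl hi
    · exact c2 _
    · exact (c2 _).symm
    · by_cases ht : t = t'
      · subst ht
        exact k2 t fun hh : i = i' => hi (by rw [hh])
      · refine Disjoint.mono (k1 t i).2.2.2 (k1 t' i').2.2.2 ?_
        simp only [Set.disjoint_union_left, Set.disjoint_union_right]
        refine ⟨⟨?_, ?_⟩, ?_, ?_⟩ <;> exact h2' _ _ (by simp [ht])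
  choose r h5 h6 using fun o => (c1 o).exists_rt
  refine ⟨Σ t, I t, inferInstance, _, _, r, rfl, rfl, ?_, fun o => ⟨h5 o, (h6 o).trans ?_⟩,
    fun o o' ho => (c3 ho).mono (h6 o) (h6 o'), fun U hU => ?_⟩
  · rintro (_ | p)
    · exact ⟨ha, hb⟩
    · exact ⟨(k1 p.1 p.2).1, (k1 p.1 p.2).2.1⟩
  · rcases o with _ | p
    · exact h1 none
    · exact (k1 p.1 p.2).2.2.2.trans (Set.union_subset (h1 _) (h1 _))
  · choose f hf using fun t => k3 t U hU
    refine le_trans (by simp) (Set.encard_le_encard_of_injOn (s := (Set.univ : Set (Fin l0)))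
      (f := fun t => (⟨t, f t⟩ : Σ t, I t)) (fun t _ => hf t)
      fun t _ t' _ hh => congrArg Sigma.fst hh)

end Pool.Agent.MP_7f38c2_co.H28

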