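import Pool.Agent.MP_7f38c2_co.H28.Spec

/-! Hypergraph packing with reservations, from the theorem of Rado. -/

namespace Pool.Agent.MP_7f38c2_co.H28

open Classical Module

universe u

namespace HYP

section rado

variable {W Λ H : Type*} [AddCommGroup W] [Module ℚ W] (B : Submodule ℚ W) (vec : Λ → W)

/-- the span of `B` and of the options of the items in `A` -/
def Sp (O : H → Finset Λ) (A : Finset H) : Submodule ℚ W :=
  B ⊔ Submodule.span ℚ (vec '' {x | ∃ h ∈ A, x ∈ O h})

variable {B vec}

lemma mem_Sp {O : H → Finset Λ} {A : Finset H} {h x} (hh : h ∈ A) (hx : x ∈ O h) :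
    vec x ∈ Sp B vec O A :=
  Submodule.mem_sup_right (Submodule.subset_span ⟨x, ⟨h, hh, hx⟩, rfl⟩)

lemma Sp_le {O : H → Finset Λ} {A : Finset H} {S : Submodule ℚ W} (h1 : B ≤ S)
    (h2 : ∀ h ∈ A, ∀ x ∈ O h, vec x ∈ S) : Sp B vec O A ≤ S :=
  sup_le h1 (Submodule.span_le.2 (by rintro _ ⟨x, ⟨h, a, b⟩, rfl⟩; exact h2 h a x b))

lemma rado [FiniteDimensional ℚ W] [Fintype H] (n : ℕ) : ∀ O : H → Finset Λ,
    ∑ h, (O h).card = n →
    (∀ A : Finset H, finrank ℚ W + A.card ≤ finrank ℚ (Sp B vec O A) + Fintype.card H) →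
    ∃ ch : H → Option Λ, (∀ h x, ch h = some x → x ∈ O h) ∧
      ∀ S : Submodule ℚ W, B ≤ S → (∀ h x, ch h = some x → vec x ∈ S) → S = ⊤ := by
  induction n using Nat.strong_induction_on with
  | _ n ih =>
  intro O hn hO
  by_cases hc : ∃ h, ∃ x ∈ O h, ∃ y ∈ O h, x ≠ y
  · obtain ⟨h, x, hx, y, hy, hxy⟩ := hc
    have sub : ∀ z k, Function.update O h ((O h).erase z) k ⊆ O k := by
      intro z k
      by_cases e : k = h
      · subst e
        rw [Function.update_self]
        exact Finset.erase_subset _ _
      · rw [Function.update_of_ne e]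
    by_contra hno
    have bad : ∀ z ∈ O h, ∃ A : Finset H, h ∈ A ∧ finrank ℚ
        (Sp B vec (Function.update O h ((O h).erase z)) A) + Fintype.card H <
          finrank ℚ W + A.card := by
      intro z hz
      by_contra hA
      push Not at hA
      obtain ⟨ch, c1, c2⟩ := ih _ (hn ▸ Finset.sum_lt_sum
        (fun k _ => Finset.card_le_card (sub z k)) ⟨h, Finset.mem_univ _, by
          rw [Function.update_self]
          exact Finset.card_erase_lt_of_mem hz⟩) (Function.update O h ((O h).erase z)) rfl
        fun A => by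
          by_cases hh : h ∈ A
          · exact hA A hh
          · refine (hO A).trans (Nat.add_le_add_right (Submodule.finrank_mono
              (Sp_le le_sup_left fun k hk w hw => mem_Sp hk ?_)) _)
            rwa [Function.update_of_ne (fun e : k = h => hh (e ▸ hk))]
      exact hno ⟨ch, fun k w e => sub z k (c1 k w e), c2⟩
    obtain ⟨A1, a1, b1⟩ := bad x hx
    obtain ⟨A2, a2, b2⟩ := bad y hy
    have s := Submodule.finrank_sup_add_finrank_inf_eq
      (Sp B vec (Function.update O h ((O h).erase x)) A1)
      (Sp B vec (Function.update O h ((O h).erase y)) A2)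
    have u1 : Sp B vec O (A1 ∪ A2) ≤ Sp B vec (Function.update O h ((O h).erase x)) A1 ⊔
        Sp B vec (Function.update O h ((O h).erase y)) A2 := by
      refine Sp_le (le_sup_left.trans le_sup_left) fun k hk w hw => ?_
      by_cases e : k = h
      · subst e
        by_cases ew : w = x
        · refine Submodule.mem_sup_right (mem_Sp a2 ?_)
          rw [Function.update_self]
          exact Finset.mem_erase.2 ⟨ew ▸ hxy, hw⟩
        · refine Submodule.mem_sup_left (mem_Sp a1 ?_)
          rw [Function.update_self]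
          exact Finset.mem_erase.2 ⟨ew, hw⟩
      · rcases Finset.mem_union.1 hk with hk | hk
        · exact Submodule.mem_sup_left (mem_Sp hk (by rwa [Function.update_of_ne e]))
        · exact Submodule.mem_sup_right (mem_Sp hk (by rwa [Function.update_of_ne e]))
    have u2 : Sp B vec O ((A1 ∩ A2).erase h) ≤
        Sp B vec (Function.update O h ((O h).erase x)) A1 ⊓
          Sp B vec (Function.update O h ((O h).erase y)) A2 := by
      refine Sp_le (le_inf le_sup_left le_sup_left) fun k hk w hw => ?_
      obtain ⟨e, hk⟩ := Finset.mem_erase.1 hk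
      obtain ⟨k1, k2⟩ := Finset.mem_inter.1 hk
      exact ⟨mem_Sp k1 (by rwa [Function.update_of_ne e]),
        mem_Sp k2 (by rwa [Function.update_of_ne e])⟩
    have v1 := Submodule.finrank_mono u1
    have v2 := Submodule.finrank_mono u2
    have w1 := hO (A1 ∪ A2)
    have w2 := hO ((A1 ∩ A2).erase h)
    have c1 := Finset.card_union_add_card_inter A1 A2
    have c2 := Finset.card_erase_add_one (Finset.mem_inter.2 ⟨a1, a2⟩)
    omega
  · push Not at hc
    refine ⟨fun h => if e : (O h).Nonempty then some e.choose else none, fun h x e => ?_,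
      fun S h1 h2 => ?_⟩
    · simp only at e
      split_ifs at e with k
      cases e
      exact k.choose_spec
    · have a := hO Finset.univ
      rw [Finset.card_univ] at a
      have b : Sp B vec O Finset.univ ≤ S := Sp_le h1 fun h _ x hx => h2 h x (by
        have k : (O h).Nonempty := ⟨x, hx⟩
        simp only [dif_pos k]
        rw [hc h _ k.choose_spec x hx])
      have c := Submodule.finrank_mono b
      exact Submodule.eq_top_of_finrank_eq (le_antisymm (Submodule.finrank_le _) (by omega))

end rado

variable {T : Type u} {r ν : ℕ}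

/-- the vector of an option -/
noncomputable def vec : Fin r × T × T ⊕ T × Fin ν → Fin r × T ⊕ T × Fin ν → ℚ
  | .inl p => Pi.single (.inl (p.1, p.2.1)) 1 - Pi.single (.inl (p.1, p.2.2)) 1
  | .inr p => Pi.single (.inr p) 1

/-- the options of an item -/
def ok (U R : Set T) : Fin r × T × T ⊕ T × Fin ν → Prop
  | .inl p => p.2.1 ∈ U ∧ p.2.2 ∈ U
  | .inr p => p.1 ∈ R

end HYP

open HYP in
theorem rowHyp : StHyp.{u} := by
  intro T H _ _ r ν Us Rv hyp
  rcases isEmpty_or_nonempty T with hT | ⟨⟨s0⟩⟩
  · exact ⟨fun _ => none, by simp, by simp, fun _ _ h => h.elim fun a => isEmptyElim a,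
      fun y => isEmptyElim y⟩
  obtain ⟨ch, c1, c2⟩ := rado (B := Submodule.span ℚ (Set.range fun i : Fin r =>
      (Pi.single (.inl (i, s0)) 1 : Fin r × T ⊕ T × Fin ν → ℚ))) (vec := vec) _
      (fun h : H => Finset.univ.filter (ok (Us h) (Rv h))) rfl (by
    intro A
    set S := Sp _ (vec (T := T) (r := r) (ν := ν)) _ A with hS
    let ρ : Setoid T := Relation.EqvGen.setoid fun a b => ∃ h ∈ A, a ∈ Us h ∧ b ∈ Us h
    let f : T → T := fun a => (Quotient.mk ρ a).out
    have f1 : ∀ a b, ρ a b ↔ f a = f b := fun a b => by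
      simp only [f, Quotient.out_inj, Quotient.eq]
    have f2 : ∀ a, ρ (f a) a := fun a => Quotient.mk_out a
    have d : ∀ i a b, ρ a b → (Pi.single (.inl (i, a)) 1 - Pi.single (.inl (i, b)) 1 :
        Fin r × T ⊕ T × Fin ν → ℚ) ∈ S := by
      intro i a b h
      induction h with
      | rel a b h =>
        obtain ⟨h, hh, k⟩ := h
        exact mem_Sp (vec := vec) (x := .inl (i, a, b)) hh (Finset.mem_filter.2 ⟨Finset.mem_univ _, k⟩)
      | refl => simp
      | symm a b _ ih => simpa using S.neg_mem ih
      | trans a b c _ _ i1 i2 => simpa using S.add_mem i1 i2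
    let Y := Finset.univ.filter fun y => ∀ h ∈ A, y ∉ Rv h
    have a := (hyp f Y).trans (Set.ncard_le_ncard (t := ((Aᶜ : Finset H) : Set H)) (by
      rintro h (⟨a, ha, b, hb, e⟩ | ⟨y, hy, e⟩)
      · exact Finset.mem_coe.2 (Finset.mem_compl.2 fun k =>
          e ((f1 a b).1 (Relation.EqvGen.rel _ _ ⟨h, k, ha, hb⟩)))
      · exact Finset.mem_coe.2 (Finset.mem_compl.2 fun k => (Finset.mem_filter.1 hy).2 h k e)))
    rw [Set.ncard_coe_finset] at a
    have b := Finset.card_add_card_compl A
    let X : Finset (Fin r × T ⊕ T × Fin ν) :=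
      (Finset.univ ×ˢ (Finset.univ.image f).erase (f s0)).disjSum (Y ×ˢ Finset.univ)
    have hX : X.card = r * ((Finset.univ.image f).card - 1) + ν * Y.card := by
      rw [Finset.card_disjSum, Finset.card_product, Finset.card_product, Finset.card_erase_of_mem
        (Finset.mem_image_of_mem f (Finset.mem_univ _)), mul_comm Y.card]
      simp
    let S' := Submodule.span ℚ ((X.image fun j => (Pi.single j 1 : Fin r × T ⊕ T × Fin ν → ℚ) :
      Finset _) : Set (Fin r × T ⊕ T × Fin ν → ℚ))
    have m : ∀ j ∈ X, (Pi.single j 1 : Fin r × T ⊕ T × Fin ν → ℚ) ∈ S' := fun j hj =>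
      Submodule.subset_span (Finset.mem_coe.2 (Finset.mem_image_of_mem _ hj))
    have t : S ⊔ S' = ⊤ := by
      rw [eq_top_iff, ← (Pi.basisFun ℚ _).span_eq, Submodule.span_le]
      rintro _ ⟨⟨i, a⟩ | ⟨y, k⟩, rfl⟩ <;> rw [Pi.basisFun_apply]
      · by_cases e : f a = f s0
        · have := S.add_mem (d i a s0 ((f1 _ _).2 e))
            (Submodule.mem_sup_left (Submodule.subset_span ⟨i, rfl⟩))
          exact Submodule.mem_sup_left (by simpa using this)
        · have := (S ⊔ S').add_mem (Submodule.mem_sup_left (d i a (f a) (ρ.symm (f2 a))))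
            (Submodule.mem_sup_right (m (.inl (i, f a)) (by simp [X, e])))
          simpa using this
      · by_cases e : y ∈ Y
        · exact Submodule.mem_sup_right (m _ (by simp [X, e]))
        · simp only [Y, Finset.mem_filter, Finset.mem_univ, true_and, not_forall, not_not] at e
          obtain ⟨h, hh, e⟩ := e
          exact Submodule.mem_sup_left
            (mem_Sp (vec := vec) (x := .inr (y, k)) hh (Finset.mem_filter.2 ⟨Finset.mem_univ _, e⟩))
    have e1 := Submodule.finrank_add_le_finrank_add_finrank S S'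
    have e2 : finrank ℚ S' ≤ X.card :=
      (finrank_span_finset_le_card _).trans Finset.card_image_le
    rw [t, finrank_top] at e1
    omega)
  have key : ∀ G : Fin r × T ⊕ T × Fin ν → ℚ, (∀ i, G (.inl (i, s0)) = 0) →
      (∀ h i a b, ch h = some (.inl (i, a, b)) → G (.inl (i, a)) = G (.inl (i, b))) →
      (∀ h p, ch h = some (.inr p) → G (.inr p) = 0) → ∀ j, G j = 0 := by
    intro G g1 g2 g3 j
    have := c2 (LinearMap.ker (Fintype.linearCombination ℚ G)) (Submodule.span_le.2 (by
      rintro _ ⟨i, rfl⟩
      simp [g1])) (by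
      rintro h (⟨i, a, b⟩ | p) e
      · simp [vec, g2 h i a b e]
      · simp [vec, g3 h p e])
    have k : (Pi.single j 1 : Fin r × T ⊕ T × Fin ν → ℚ) ∈
        LinearMap.ker (Fintype.linearCombination ℚ G) := this ▸ Submodule.mem_top
    simpa using k
  refine ⟨fun h => (ch h).map (Sum.map id Prod.fst), fun h i a b e => ?_, fun h y e => ?_,
    fun i B hB hB' => ?_, fun y => ?_⟩
  · obtain ⟨p | p, e1, e2⟩ := Option.map_eq_some_iff.1 e <;> cases e2
    exact (Finset.mem_filter.1 (c1 h _ e1)).2
  · obtain ⟨p | p, e1, e2⟩ := Option.map_eq_some_iff.1 e <;> cases e2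
    exact (Finset.mem_filter.1 (c1 h _ e1)).2
  · by_contra hn
    push Not at hn
    have k := key (Sum.elim (fun p => if p.1 = i ∧ ¬(p.2 ∈ B ↔ s0 ∈ B) then 1 else 0) fun _ => 0)
      (by simp) (fun h j a b e => by
        by_cases hj : j = i
        · subst hj
          simp only [Sum.elim_inl, hn h a b (by rw [e]; rfl)]
        · simp [hj]) fun _ _ _ => rfl
    obtain ⟨a, ha⟩ := hB
    obtain ⟨b, hb⟩ := hB'
    have ka := k (.inl (i, a))
    have kb := k (.inl (i, b))
    have hb' : b ∉ B := hb
    by_cases h0 : s0 ∈ B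
    · simp [h0, hb'] at kb
    · simp [h0, ha] at ka
  · have ex : ∀ k : Fin ν, ∃ h, ch h = some (.inr (y, k)) := by
      intro k
      by_contra hn
      push Not at hn
      have := key (Sum.elim (fun _ => 0) fun p => if p = (y, k) then 1 else 0) (fun _ => rfl)
        (fun _ _ _ _ _ => rfl) (fun h p e => if_neg fun k' : p = (y, k) => hn h (k' ▸ e)) (.inr (y, k))
      simp at this
    choose g hg using ex
    have gi : Function.Injective g := fun k k' e => by
      have := (hg k).symm.trans (e ▸ hg k')
      simpa using this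
    calc ν = (Set.range g).ncard := by rw [Set.ncard_range_of_injective gi]; simp
      _ ≤ _ := Set.ncard_le_ncard (by
        rintro _ ⟨k, rfl⟩
        show (ch (g k)).map _ = _
        rw [hg k]
        rfl)

end Pool.Agent.MP_7f38c2_co.H28
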