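import Pool.Agent.MP_7f38c2_co.H28.Spec

/-! Splitting off a pair of edges at a vertex that is not a terminal. -/

namespace Pool.Agent.MP_7f38c2_co.H28

open Classical

universe u

namespace LIFT

variable {V E : Type u} {G : Gr V E}

lemma dg_insert {M : Set E} (hM : M.Finite) {e : E} (he : e ∉ M) (U : Set V) :
    G.dg (insert e M) U = G.dg M U + if e ∈ G.cut U then 1 else 0 := by
  unfold Gr.dg
  split_ifs with h
  · rw [Set.insert_inter_of_mem h,
      Set.ncard_insert_of_notMem (fun h' => he h'.1) (hM.subset Set.inter_subset_left)]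
  · rw [Set.insert_inter_of_notMem h, add_zero]

/-- the edge `e` gets the new ends `a` and `b` -/
noncomputable def sw (G : Gr V E) (e : E) (a b : V) : Gr V E :=
  ⟨Function.update G.s e a, Function.update G.t e b⟩

variable {e1 e2 : E} {x a b : V}

lemma sw_s {e : E} (h : e ≠ e1) : (sw G e1 a b).s e = G.s e := Function.update_of_ne h _ _

lemma sw_t {e : E} (h : e ≠ e1) : (sw G e1 a b).t e = G.t e := Function.update_of_ne h _ _

lemma sw_joins : (sw G e1 a b).Joins e1 a b :=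
  Or.inl ⟨by simp [sw], by simp [sw]⟩

lemma sw_cut {e : E} (h : e ≠ e1) (U : Set V) : e ∈ (sw G e1 a b).cut U ↔ e ∈ G.cut U := by
  simp only [Gr.cut, Set.mem_ofPred_eq, sw_s h, sw_t h]

lemma dg_sw {M : Set E} (he : e1 ∉ M) (U : Set V) : (sw G e1 a b).dg M U = G.dg M U := by
  unfold Gr.dg
  congr 1
  ext e
  exact and_congr_right fun h => sw_cut (ne_of_mem_of_not_mem h he) U

lemma key (hne : e1 ≠ e2) (h1 : G.Joins e1 x a) (h2 : G.Joins e2 x b) {M : Set E}
    (hM : M.Finite) (h : e1 ∈ M ↔ e2 ∈ M) (U : Set V) :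
    G.dg M U = (sw G e1 a b).dg (M \ {e2}) U +
      if e1 ∈ M ∧ ¬(x ∈ U ↔ a ∈ U) ∧ ¬(x ∈ U ↔ b ∈ U) then 2 else 0 := by
  by_cases he : e1 ∈ M
  · have h3 : M = insert e2 (insert e1 (M \ {e1, e2})) := by
      ext e
      simp only [Set.mem_insert_iff, Set.mem_sdiff, Set.mem_singleton_iff]
      constructor
      · tauto
      · rintro (rfl | rfl | h')
        exacts [h.1 he, he, h'.1]
    have h4 : M \ {e2} = insert e1 (M \ {e1, e2}) := by
      ext e
      simp only [Set.mem_insert_iff, Set.mem_sdiff, Set.mem_singleton_iff]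
      constructor
      · tauto
      · rintro (rfl | h')
        exacts [⟨he, hne⟩, ⟨h'.1, fun h'' => h'.2 (Or.inr h'')⟩]
    have h5 : (M \ {e1, e2}).Finite := hM.subset Set.sdiff_subset
    have h6 : e1 ∉ M \ {e1, e2} := fun h' => h'.2 (Or.inl rfl)
    have h7 : e2 ∉ insert e1 (M \ {e1, e2}) := by
      rintro (h' | h')
      exacts [hne h'.symm, h'.2 (Or.inr rfl)]
    rw [h4, dg_insert h5 h6, dg_sw h6]
    conv_lhs => rw [h3, dg_insert (h5.insert _) h7, dg_insert h5 h6]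
    simp only [h1.mem_cut, h2.mem_cut, (sw_joins (G := G)).mem_cut, he, true_and]
    by_cases hx : x ∈ U <;> by_cases ha : a ∈ U <;> by_cases hb : b ∈ U <;> simp [hx, ha, hb]
  · rw [Set.sdiff_singleton_eq_self (mt h.2 he), dg_sw he, if_neg fun h' => he h'.1, add_zero]

lemma main {r : ℕ} {N : Set E} {S : Set V} {z : V} {c0 : E → Option (Fin r)}
    (h : CH G r N S z c0) (ih : IH V E r N.ncard) (hx : x ∉ S) (m1 : e1 ∈ N) (m2 : e2 ∈ N)
    (hne : e1 ≠ e2) (h1 : G.Joins e1 x a) (h2 : G.Joins e2 x b) (ha : a ∈ S) (hb : b ∈ S)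
    (hU : ∀ U, x ∉ U → Spl S U → a ∈ U → b ∈ U → 72 * r + 2 ≤ G.dg N U) (hbz : b ≠ z) :
    ∃ c, CC G r N S z c0 c := by
  have hxz : x ≠ z := fun e => hx (e ▸ h.zS)
  have z1 : (sw G e1 a b).cut {z} = G.cut {z} := by
    ext e
    by_cases he : e = e1
    · subst he
      simp [h1.mem_cut, (sw_joins (G := G)).mem_cut, hxz, hbz]
    · exact sw_cut he _
  have z2 : e2 ∉ G.cut {z} := by simp [h2.mem_cut, hxz, hbz]
  have z3 : ∀ M : Set E, (sw G e1 a b).dg (M \ {e2}) {z} = G.dg M {z} := by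
    intro M
    unfold Gr.dg
    rw [z1]
    congr 1
    ext e
    exact ⟨fun h' => ⟨h'.1.1, h'.2⟩, fun h' => ⟨⟨h'.1, fun e' => z2 (e' ▸ h'.2)⟩, h'.2⟩⟩
  have hc : CH (sw G e1 a b) r (N \ {e2}) S z c0 := by
    refine ⟨h.fin.subset Set.sdiff_subset, h.pos, fun U hS => ?_, h.zS, h.two,
      (z3 N).trans h.dz, ?_⟩
    · have k := key hne h1 h2 h.fin (iff_of_true m1 m2) U
      have k1 := h.ec U hS
      split_ifs at k with h3
      · have k2 : 72 * r + 2 ≤ G.dg N U := by
          by_cases h4 : x ∈ U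
          · have := hU Uᶜ (not_not.2 h4) hS.compl (fun h5 => h3.2.1 (iff_of_true h4 h5))
              fun h5 => h3.2.2 (iff_of_true h4 h5)
            rwa [Gr.dg, Gr.cut_compl] at this
          · exact hU U h4 hS (by_contra fun h5 => h3.2.1 (iff_of_false h4 h5))
              (by_contra fun h5 => h3.2.2 (iff_of_false h4 h5))
        omega
      · omega
    · have : cls (N \ {e2}) c0 none = cls N c0 none \ {e2} := by
        ext e
        exact and_right_comm
      rw [this, z3]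
      exact h.unc
  obtain ⟨c', hc'⟩ := ih _ _ S z c0 hc (Set.ncard_sdiff_singleton_lt_of_mem m2 h.fin)
  set c := Function.update c' e2 (c' e1) with hcd
  have c1 : ∀ o, cls (N \ {e2}) c' o = cls N c o \ {e2} := by
    intro o
    ext e
    constructor
    · exact fun h' => ⟨⟨h'.1.1, (Function.update_of_ne h'.1.2 _ _).trans h'.2⟩, h'.1.2⟩
    · exact fun h' => ⟨⟨h'.1.1, h'.2⟩, (Function.update_of_ne h'.2 _ _).symm.trans h'.1.2⟩
  have c2 : ∀ o, e1 ∈ cls N c o ↔ e2 ∈ cls N c o := by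
    intro o
    simp [cls, m1, m2, hcd, Function.update_of_ne hne]
  have c3 := fun o U => key hne h1 h2 (M := cls N c o) (h.fin.subset fun e he => he.1) (c2 o) U
  simp only [← c1] at c3
  refine ⟨c, fun e he => ?_, fun i v hv => ?_, fun i s hs hsz y hy hy' => ?_, fun s hs hsz => ?_⟩
  · have h3 : e ≠ e2 := fun e' => z2 (e' ▸ he.2)
    exact (Function.update_of_ne h3 _ _).trans (hc'.ext e ⟨⟨he.1, h3⟩, z1 ▸ he.2⟩)
  · rw [c3]
    refine (hc'.par i v hv).add ?_
    split_ifs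
    exacts [even_two, Even.zero]
  · have tr : ∀ y, y ≠ z → (y ∈ S ∨ ∃ e ∈ cls (N \ {e2}) c' (some i), (sw G e1 a b).Tch e y) →
        G.Conn (cls N c (some i) ∩ G.In {z}ᶜ) s y := by
      intro y hy hy'
      refine Gr.Conn.transfer (fun e he => ?_) (hc'.con i s hs hsz y hy hy')
      rw [c1] at he
      by_cases h3 : e = e1
      · subst h3
        have h4 := (sw_joins (G := G)).mem_In.1 he.2
        have h5 : G.Conn (cls N c (some i) ∩ G.In {z}ᶜ) a b :=
          (Gr.Conn.edge (Set.mem_inter he.1.1 (h1.mem_In.2 ⟨hxz, h4.1⟩)) h1.symm).trans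
            (Gr.Conn.edge ⟨(c2 _).1 he.1.1, h2.mem_In.2 ⟨hxz, hbz⟩⟩ h2)
        simpa [sw] using h5
      · have h4 := he.2
        simp only [Gr.In, Set.mem_ofPred_eq, sw_s h3, sw_t h3] at h4 ⊢
        exact Gr.Conn.edge ⟨he.1.1, h4⟩ (G.joins_st e)
    have tx : e2 ∈ cls N c (some i) → G.Conn (cls N c (some i) ∩ G.In {z}ᶜ) s x := fun h3 =>
      (tr b hbz (Or.inl hb)).trans (Gr.Conn.edge ⟨h3, h2.mem_In.2 ⟨hxz, hbz⟩⟩ h2.symm)
    rcases hy' with h3 | ⟨e, he, h3⟩
    · exact tr y hy (Or.inl h3)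
    · by_cases h4 : e = e1
      · subst h4
        rcases h3.eq_or h1 with rfl | rfl
        exacts [tx ((c2 _).1 he), tr _ hy (Or.inl ha)]
      · by_cases h5 : e = e2
        · subst h5
          rcases h3.eq_or h2 with rfl | rfl
          exacts [tx he, tr _ hy (Or.inl hb)]
        · refine tr y hy (Or.inr ⟨e, c1 _ ▸ ⟨he, h5⟩, ?_⟩)
          rwa [Gr.Tch, sw_s h4, sw_t h4]
  · rw [c3]
    exact (hc'.unc s hs hsz).trans (Nat.le_add_right _ _)

end LIFT

theorem rowLift : StLift.{u} := by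
  rintro V E G r N S z c0 h ih ⟨x, e1, e2, a, b, hx, m1, m2, hne, h1, h2, ha, hb, hU⟩
  by_cases hbz : b = z
  · by_cases haz : a = z
    · obtain ⟨s, hs, hsz⟩ := h.two
      have h3 := hU {z} (fun e => hx (e ▸ h.zS)) (spl_of_mem h.zS hs rfl hsz) haz hbz
      rw [h.dz] at h3
      omega
    · exact LIFT.main h ih hx m2 m1 hne.symm h2 h1 hb ha (fun U k1 k2 k3 k4 => hU U k1 k2 k4 k3)
        haz
  · exact LIFT.main h ih hx m1 m2 hne h1 h2 ha hb hU hbz

end Pool.Agent.MP_7f38c2_co.H28
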