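import Pool.Agent.MP_7f38c2_co.H28.Spec

/-! The linear order obtained by splitting jobs for ever. -/

namespace Pool.Agent.MP_7f38c2_co.H28

open Classical

universe u

namespace LIMIT

variable {V E : Type u}

/-- a binary tree of jobs, each split at its first edge -/
structure Tr (G : Gr V E) (idx : E → ℕ) where
  N : Type u
  u : N → V
  v : N → V
  F : N → Set E
  piv : N → E
  L : N → N
  R : N → N
  min : ∀ J, ∀ g ∈ F J, idx (piv J) ≤ idx g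
  uL : ∀ J, (F J).Nonempty → u (L J) = u J
  vR : ∀ J, (F J).Nonempty → v (R J) = v J
  tL : ∀ J, (F J).Nonempty → G.Tch (piv J) (v (L J))
  tR : ∀ J, (F J).Nonempty → G.Tch (piv J) (u (R J))
  dis : ∀ J, (F J).Nonempty → ∀ x ∈ F (L J), x ∉ F (R J)
  nL : ∀ J, (F J).Nonempty → piv J ∉ F (L J)
  nR : ∀ J, (F J).Nonempty → piv J ∉ F (R J)
  mem : ∀ J, (F J).Nonempty → ∀ x, x ∈ F J ↔ x ∈ F (L J) ∨ x = piv J ∨ x ∈ F (R J)
  con : ∀ J, G.Conn (F J) (u J) (v J)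
  fb : ∀ J, G.FB (F J)
  tch : ∀ J, ∀ e ∈ F J, ∃ x, G.Tch e x ∧ G.Conn (F J) (u J) x

namespace Tr

variable {G : Gr V E} {idx : E → ℕ}

def flip (T : Tr G idx) : Tr G idx where
  N := T.N
  u := T.v
  v := T.u
  F := T.F
  piv := T.piv
  L := T.R
  R := T.L
  min := T.min
  uL := T.vR
  vR := T.uL
  tL := T.tR
  tR := T.tL
  dis J h x h1 h2 := T.dis J h x h2 h1
  nL := T.nR
  nR := T.nL
  mem J h x := (T.mem J h x).trans (by tauto)
  con J := (T.con J).symm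
  fb := T.fb
  tch J e he := (T.tch J e he).imp fun _ h => ⟨h.1, (T.con J).symm.trans h.2⟩

inductive Lt (T : Tr G idx) : T.N → E → E → Prop
  | le {J x} : (T.F J).Nonempty → x ∈ T.F (T.L J) → Lt T J x (T.piv J)
  | er {J y} : (T.F J).Nonempty → y ∈ T.F (T.R J) → Lt T J (T.piv J) y
  | lr {J x y} : (T.F J).Nonempty → x ∈ T.F (T.L J) → y ∈ T.F (T.R J) → Lt T J x y
  | l {J x y} : (T.F J).Nonempty → Lt T (T.L J) x y → Lt T J x y
  | r {J x y} : (T.F J).Nonempty → Lt T (T.R J) x y → Lt T J x y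

variable {T : Tr G idx}

lemma Lt.to_flip {J : T.N} {x y : E} (h : T.Lt J x y) : T.flip.Lt J y x := by
  induction h with
  | le h h1 => exact Lt.er (T := T.flip) h h1
  | er h h1 => exact Lt.le (T := T.flip) h h1
  | lr h h1 h2 => exact Lt.lr (T := T.flip) h h2 h1
  | l h _ ih => exact Lt.r (T := T.flip) h ih
  | r h _ ih => exact Lt.l (T := T.flip) h ih

lemma lt_flip {J : T.N} {x y : E} : T.flip.Lt J x y ↔ T.Lt J y x :=
  ⟨fun h => Lt.to_flip (T := T.flip) h, Lt.to_flip⟩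

lemma Lt.mem {J : T.N} {x y : E} (h : T.Lt J x y) : x ∈ T.F J ∧ y ∈ T.F J := by
  induction h with
  | le h h1 => simp [T.mem _ h, h1]
  | er h h1 => simp [T.mem _ h, h1]
  | lr h h1 h2 => simp [T.mem _ h, h1, h2]
  | l h _ ih => simp [T.mem _ h, ih]
  | r h _ ih => simp [T.mem _ h, ih]

lemma Lt.invL {J : T.N} {x y : E} (h : T.Lt J x y) (hy : y ∈ T.F (T.L J)) : T.Lt (T.L J) x y := by
  cases h with
  | le h _ => exact absurd hy (T.nL _ h)
  | er h h1 => exact absurd h1 (T.dis _ h _ hy)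
  | lr h _ h1 => exact absurd h1 (T.dis _ h _ hy)
  | l _ h1 => exact h1
  | r h h1 => exact absurd h1.mem.2 (T.dis _ h _ hy)

lemma Lt.invR {J : T.N} {x y : E} (h : T.Lt J x y) (hx : x ∈ T.F (T.R J)) : T.Lt (T.R J) x y :=
  lt_flip.mp (Lt.invL (T := T.flip) h.to_flip hx)

lemma Lt.pivL {J : T.N} {x : E} (h : T.Lt J x (T.piv J)) : x ∈ T.F (T.L J) := by
  have hn : (T.F J).Nonempty := ⟨_, h.mem.1⟩
  generalize hy : T.piv J = y at h
  cases h with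
  | le _ h1 => exact h1
  | er _ h1 => exact absurd (hy ▸ h1) (T.nR _ hn)
  | lr _ h1 _ => exact h1
  | l _ h1 => exact h1.mem.1
  | r _ h1 => exact absurd (hy ▸ h1.mem.2) (T.nR _ hn)

lemma Lt.pivR {J : T.N} {y : E} (h : T.Lt J (T.piv J) y) : y ∈ T.F (T.R J) :=
  Lt.pivL (T := T.flip) h.to_flip

lemma Lt.ne {J : T.N} {x y : E} (h : T.Lt J x y) : x ≠ y := by
  induction h with
  | le h h1 => exact fun h2 => T.nL _ h (h2 ▸ h1)
  | er h h1 => exact fun h2 => T.nR _ h (h2 ▸ h1)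
  | lr h h1 h2 => exact fun h3 => T.dis _ h _ h1 (h3 ▸ h2)
  | l _ _ ih => exact ih
  | r _ _ ih => exact ih

lemma Lt.trans {J : T.N} {x y z : E} (h : T.Lt J x y) (h' : T.Lt J y z) : T.Lt J x z := by
  induction h with
  | le h h1 => exact Lt.lr h h1 h'.pivR
  | er h h1 => exact Lt.er h (h'.invR h1).mem.2
  | lr h h1 h2 => exact Lt.lr h h1 (h'.invR h2).mem.2
  | l h h1 ih =>
    rcases (T.mem _ h z).mp h'.mem.2 with h2 | rfl | h2
    · exact Lt.l h (ih (h'.invL h2))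
    · exact Lt.le h h1.mem.1
    · exact Lt.lr h h1.mem.1 h2
  | r h h1 ih => exact Lt.r h (ih (h'.invR h1.mem.2))

lemma Lt.asymm {J : T.N} {x y : E} (h : T.Lt J x y) : ¬ T.Lt J y x := fun h' => (h.trans h').ne rfl

lemma ind (hi : Function.Injective idx) (B : ℕ) (P : T.N → Prop)
    (h : ∀ J, ((∃ g ∈ T.F J, idx g ≤ B) → P (T.L J) ∧ P (T.R J)) → P J) (J : T.N) : P J := by
  have hf : ∀ J, {g | g ∈ T.F J ∧ idx g ≤ B}.Finite := fun J =>
    ((Set.finite_Iic B).preimage hi.injOn).subset fun g hg => hg.2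
  induction hn : {g | g ∈ T.F J ∧ idx g ≤ B}.ncard using Nat.strong_induction_on generalizing J with
  | h n ih =>
  refine h J fun ⟨g, hg, hB⟩ => ?_
  have h0 : (T.F J).Nonempty := ⟨g, hg⟩
  have h1 : T.piv J ∈ {g | g ∈ T.F J ∧ idx g ≤ B} :=
    ⟨(T.mem J h0 _).mpr (Or.inr (Or.inl rfl)), (T.min J g hg).trans hB⟩
  exact ⟨ih _ (hn ▸ Set.ncard_lt_ncard ⟨fun x hx => ⟨(T.mem J h0 x).mpr (Or.inl hx.1), hx.2⟩,
      fun h2 => T.nL J h0 (h2 h1).1⟩ (hf J)) _ rfl,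
    ih _ (hn ▸ Set.ncard_lt_ncard ⟨fun x hx => ⟨(T.mem J h0 x).mpr (Or.inr (Or.inr hx.1)), hx.2⟩,
      fun h2 => T.nR J h0 (h2 h1).1⟩ (hf J)) _ rfl⟩

lemma total (hi : Function.Injective idx) (x y : E) (J : T.N) :
    x ∈ T.F J → y ∈ T.F J → T.Lt J x y ∨ x = y ∨ T.Lt J y x := by
  refine ind hi (idx x) (fun J => x ∈ T.F J → y ∈ T.F J → T.Lt J x y ∨ x = y ∨ T.Lt J y x)
    (fun J ih hx hy => ?_) J
  obtain ⟨ih1, ih2⟩ := ih ⟨x, hx, le_rfl⟩
  have h : (T.F J).Nonempty := ⟨x, hx⟩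
  rcases (T.mem J h x).mp hx with h1 | rfl | h1 <;> rcases (T.mem J h y).mp hy with h2 | rfl | h2
  · exact (ih1 h1 h2).imp (Lt.l h) (Or.imp_right (Lt.l h))
  · exact Or.inl (Lt.le h h1)
  · exact Or.inl (Lt.lr h h1 h2)
  · exact Or.inr (Or.inr (Lt.le h h2))
  · exact Or.inr (Or.inl rfl)
  · exact Or.inl (Lt.er h h2)
  · exact Or.inr (Or.inr (Lt.lr h h2 h1))
  · exact Or.inr (Or.inr (Lt.er h h1))
  · exact (ih2 h1 h2).imp (Lt.r h) (Or.imp_right (Lt.r h))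

lemma eq_of_empty {J : T.N} (h : ¬ (T.F J).Nonempty) : T.v J = T.u J :=
  (T.con J).eq_or_tch.resolve_right fun ⟨e, he, _⟩ => h ⟨e, he⟩

lemma first (hi : Function.Injective idx) (hG : G.LF) (J : T.N) (hJ : (T.F J).Nonempty) :
    ∃ m ∈ T.F J, G.Tch m (T.u J) ∧ ∀ y ∈ T.F J, y = m ∨ T.Lt J m y := by
  obtain ⟨B, hB⟩ := ((hG (T.u J)).image idx).bddAbove
  refine ind hi B (fun J' => T.u J' = T.u J → (T.F J').Nonempty →
    ∃ m ∈ T.F J', G.Tch m (T.u J') ∧ ∀ y ∈ T.F J', y = m ∨ T.Lt J' m y) ?_ J rfl hJ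
  intro J' ih hu h
  obtain ⟨g, hg, hgu⟩ : ∃ g ∈ T.F J', G.Tch g (T.u J') := by
    obtain ⟨e, he⟩ := h
    obtain ⟨x, h1, h2⟩ := T.tch J' e he
    exact h2.symm.eq_or_tch.elim (fun h => ⟨e, he, h ▸ h1⟩) id
  have ih1 := (ih ⟨g, hg, hB ⟨g, hu ▸ hgu, rfl⟩⟩).1 ((T.uL J' h).trans hu)
  by_cases hL : (T.F (T.L J')).Nonempty
  · obtain ⟨m, h1, h2, h3⟩ := ih1 hL
    refine ⟨m, (T.mem J' h m).mpr (Or.inl h1), T.uL J' h ▸ h2, fun y hy => ?_⟩
    rcases (T.mem J' h y).mp hy with h4 | rfl | h4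
    · exact (h3 y h4).imp_right (Lt.l h)
    · exact Or.inr (Lt.le h h1)
    · exact Or.inr (Lt.lr h h1 h4)
  · refine ⟨T.piv J', (T.mem J' h _).mpr (Or.inr (Or.inl rfl)), ?_, fun y hy => ?_⟩
    · rw [← T.uL J' h, ← eq_of_empty hL]
      exact T.tL J' h
    · rcases (T.mem J' h y).mp hy with h4 | rfl | h4
      · exact absurd ⟨y, h4⟩ hL
      · exact Or.inl rfl
      · exact Or.inr (Lt.er h h4)

lemma last (hi : Function.Injective idx) (hG : G.LF) (J : T.N) (hJ : (T.F J).Nonempty) :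
    ∃ m ∈ T.F J, G.Tch m (T.v J) ∧ ∀ y ∈ T.F J, y = m ∨ T.Lt J y m := by
  obtain ⟨m, h1, h2, h3⟩ := first (T := T.flip) hi hG J hJ
  exact ⟨m, h1, h2, fun y hy => (h3 y hy).imp_right lt_flip.mp⟩

lemma succ (hi : Function.Injective idx) (hG : G.LF) (x : E) (J : T.N) : x ∈ T.F J →
    (G.Tch x (T.v J) ∧ ∀ y ∈ T.F J, y = x ∨ T.Lt J y x) ∨
      ∃ y, T.Lt J x y ∧ G.Touch x y ∧ ∀ w, T.Lt J x w → ¬ T.Lt J w y := by
  refine ind hi (idx x) (fun J => x ∈ T.F J → (G.Tch x (T.v J) ∧ ∀ y ∈ T.F J, y = x ∨ T.Lt J y x) ∨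
    ∃ y, T.Lt J x y ∧ G.Touch x y ∧ ∀ w, T.Lt J x w → ¬ T.Lt J w y) (fun J ih hx => ?_) J
  obtain ⟨ih1, ih2⟩ := ih ⟨x, hx, le_rfl⟩
  have h : (T.F J).Nonempty := ⟨x, hx⟩
  rcases (T.mem J h x).mp hx with h1 | rfl | h1
  · rcases ih1 h1 with ⟨h2, h3⟩ | ⟨y, h2, h3, h4⟩
    · refine Or.inr ⟨_, Lt.le h h1, ⟨_, h2, T.tL J h⟩, fun w h4 h5 => ?_⟩
      have h6 := h4.invL h5.pivL
      exact (h3 w h5.pivL).elim h6.ne.symm h6.asymm
    · refine Or.inr ⟨y, Lt.l h h2, h3, fun w h5 h6 => ?_⟩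
      have h7 := h6.invL h2.mem.2
      exact h4 w (h5.invL h7.mem.1) h7
  · by_cases hR : (T.F (T.R J)).Nonempty
    · obtain ⟨m, h1, h2, h3⟩ := first hi hG _ hR
      refine Or.inr ⟨m, Lt.er h h1, ⟨_, T.tR J h, h2⟩, fun w h4 h5 => ?_⟩
      have h6 := h5.invR h4.pivR
      exact (h3 w h4.pivR).elim h6.ne h6.asymm
    · refine Or.inl ⟨?_, fun y hy => ?_⟩
      · rw [← T.vR J h, eq_of_empty hR]
        exact T.tR J h
      · rcases (T.mem J h y).mp hy with h4 | rfl | h4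
        · exact Or.inr (Lt.le h h4)
        · exact Or.inl rfl
        · exact absurd ⟨y, h4⟩ hR
  · rcases ih2 h1 with ⟨h2, h3⟩ | ⟨y, h2, h3, h4⟩
    · refine Or.inl ⟨T.vR J h ▸ h2, fun y hy => ?_⟩
      rcases (T.mem J h y).mp hy with h4 | rfl | h4
      · exact Or.inr (Lt.lr h h4 h1)
      · exact Or.inr (Lt.er h h1)
      · exact (h3 y h4).imp_right (Lt.r h)
    · refine Or.inr ⟨y, Lt.r h h2, h3, fun w h5 h6 => ?_⟩
      have h7 := h5.invR h1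
      exact h4 w h7 (h6.invR h7.mem.2)

lemma fb_lt (hi : Function.Injective idx) (hG : G.LF) (z : E) (J : T.N) :
    z ∈ T.F J → G.FB {x | T.Lt J x z} := by
  refine ind hi (idx z) (fun J => z ∈ T.F J → G.FB {x | T.Lt J x z}) (fun J ih hz => ?_) J
  obtain ⟨ih1, ih2⟩ := ih ⟨z, hz, le_rfl⟩
  have h : (T.F J).Nonempty := ⟨z, hz⟩
  rcases (T.mem J h z).mp hz with h1 | rfl | h1
  · rw [show {x | T.Lt J x z} = {x | T.Lt (T.L J) x z} from
      Set.ext fun x => ⟨fun h2 => Lt.invL h2 h1, Lt.l h⟩]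
    exact ih1 h1
  · rw [show {x | T.Lt J x (T.piv J)} = T.F (T.L J) from Set.ext fun x => ⟨Lt.pivL, Lt.le h⟩]
    exact T.fb _
  · rw [show {x | T.Lt J x z} = T.F (T.L J) ∪ ({T.piv J} ∪ {x | T.Lt (T.R J) x z}) from
      Set.ext fun x => ⟨fun h2 => ((T.mem J h x).mp (Lt.mem h2).1).imp_right
        (Or.imp_right (Lt.invR h2)), by
        rintro (h2 | rfl | h2)
        · exact Lt.lr h h2 h1
        · exact Lt.er h h1
        · exact Lt.r h h2⟩]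
    exact (T.fb _).union ((hG.fb (Set.finite_singleton _)).union (ih2 h1))

end Tr

lemma touch_link {G : Gr V E} {LG : SimpleGraph E} (hLG : ∀ e f, LG.Adj e f ↔ e ≠ f ∧ G.Touch e f)
    {S : Finset E} {x y : E} (h : G.Touch x y) (hx : x ∉ S) (hy : y ∉ S) : H94.Link LG S x y := by
  by_cases hxy : x = y
  · exact hxy ▸ H94.Link.refl hx
  · exact H94.Link.of_adj ((hLG x y).mpr ⟨hxy, h⟩) hx hy

lemma conn_link {G : Gr V E} {LG : SimpleGraph E} (hLG : ∀ e f, LG.Adj e f ↔ e ≠ f ∧ G.Touch e f)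
    {S : Finset E} {F : Set E} (hF : ∀ g ∈ F, g ∉ S) {x : E} (hx : x ∈ F) {a b : V}
    (ha : G.Tch x a) (h : G.Conn F a b) : ∀ y ∈ F, G.Tch y b → H94.Link LG S x y := by
  induction h with
  | refl => exact fun y hy h => touch_link hLG ⟨a, ha, h⟩ (hF x hx) (hF y hy)
  | tail _ hbc ih =>
    obtain ⟨g, hg, h⟩ := hbc
    exact fun y hy h' => (ih g hg h.tch).trans
      (touch_link hLG ⟨_, h.tch', h'⟩ (hF g hg) (hF y hy))

lemma Tr.link {G : Gr V E} {idx : E → ℕ} {T : Tr G idx} (hi : Function.Injective idx) (hG : G.LF)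
    {LG : SimpleGraph E} (hLG : ∀ e f, LG.Adj e f ↔ e ≠ f ∧ G.Touch e f) (S : Finset E)
    (J : T.N) : ∀ x ∈ T.F J, ∀ y ∈ T.F J, (x = y ∨ T.Lt J x y) →
      (∀ s ∈ S, s ∈ T.F J → T.Lt J s x ∨ T.Lt J y s) → H94.Link LG S x y := by
  refine Tr.ind hi (S.sup idx) (fun J => ∀ x ∈ T.F J, ∀ y ∈ T.F J, (x = y ∨ T.Lt J x y) →
    (∀ s ∈ S, s ∈ T.F J → T.Lt J s x ∨ T.Lt J y s) → H94.Link LG S x y)
    (fun J ih x hx y hy hxy hS => ?_) J
  by_cases hB : ∃ g ∈ T.F J, idx g ≤ S.sup idx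
  swap
  · obtain ⟨a, h1, h2⟩ := T.tch J x hx
    obtain ⟨b, h3, h4⟩ := T.tch J y hy
    exact conn_link hLG (fun g hg h => hB ⟨g, hg, Finset.le_sup h⟩) hx h1 (h2.symm.trans h4) y hy h3
  obtain ⟨ih1, ih2⟩ := ih hB
  have h : (T.F J).Nonempty := ⟨x, hx⟩
  have hp : T.piv J ∈ T.F J := (T.mem J h _).mpr (Or.inr (Or.inl rfl))
  have hA : x ∈ T.F (T.L J) → y ∉ T.F (T.L J) → T.piv J ∉ S → H94.Link LG S x (T.piv J) := by
    intro h1 h2 h3
    obtain ⟨m, h4, h5, h6⟩ := Tr.last hi hG _ ⟨x, h1⟩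
    have h7 := ih1 x h1 m h4 (h6 x h1) fun s hs hs' =>
      (hS s hs ((T.mem J h s).mpr (Or.inl hs'))).elim (fun h => Or.inl (h.invL h1))
        fun h => absurd (h.invL hs').mem.1 h2
    exact h7.trans (touch_link hLG ⟨_, h5, T.tL J h⟩ h7.right h3)
  have hB : y ∈ T.F (T.R J) → x ∉ T.F (T.R J) → T.piv J ∉ S → H94.Link LG S (T.piv J) y := by
    intro h1 h2 h3
    obtain ⟨m, h4, h5, h6⟩ := Tr.first hi hG _ ⟨y, h1⟩
    have h7 := ih2 m h4 y h1 ((h6 y h1).imp_left Eq.symm) fun s hs hs' =>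
      (hS s hs ((T.mem J h s).mpr (Or.inr (Or.inr hs')))).elim
        (fun h => absurd (h.invR hs').mem.2 h2) fun h => Or.inr (h.invR h1)
    exact (touch_link hLG ⟨_, T.tR J h, h5⟩ h3 h7.left).trans h7
  rcases hxy with rfl | hxy
  · exact H94.Link.refl fun h => (hS x h hx).elim (fun h => h.ne rfl) fun h => h.ne rfl
  cases id hxy with
  | le _ h1 =>
    exact hA h1 (T.nL J h) fun h2 => (hS _ h2 hp).elim hxy.asymm fun h => h.ne rfl
  | er _ h1 =>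
    exact hB h1 (T.nR J h) fun h2 => (hS _ h2 hp).elim (fun h => h.ne rfl) hxy.asymm
  | lr _ h1 h2 =>
    have h3 : T.piv J ∉ S := fun h3 =>
      (hS _ h3 hp).elim (Tr.Lt.le h h1).asymm (Tr.Lt.er h h2).asymm
    exact (hA h1 (fun h4 => T.dis J h y h4 h2) h3).trans (hB h2 (T.dis J h x h1) h3)
  | l _ h1 =>
    exact ih1 x h1.mem.1 y h1.mem.2 (Or.inr h1) fun s hs hs' =>
      (hS s hs ((T.mem J h s).mpr (Or.inl hs'))).imp (fun h => h.invL h1.mem.1) fun h => h.invL hs'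
  | r _ h1 =>
    exact ih2 x h1.mem.1 y h1.mem.2 (Or.inr h1) fun s hs hs' =>
      (hS s hs ((T.mem J h s).mpr (Or.inr (Or.inr hs')))).imp (fun h => h.invR hs')
        fun h => h.invR h1.mem.2

theorem Tr.ham [Countable E] [Infinite E] {G : Gr V E} {idx : E → ℕ} (T : Tr G idx)
    (hi : Function.Injective idx) (hG : G.LF) {LG : SimpleGraph E}
    (hLG : ∀ e f, LG.Adj e f ↔ e ≠ f ∧ G.Touch e f) (J : T.N) (hJ : ∀ x, x ∈ T.F J)
    (huv : T.u J = T.v J) : H94.HasHamiltonCircle LG := by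
  have : LG.LocallyFinite := fun e => Set.Finite.fintype (by
    refine ((hG (G.s e)).union (hG (G.t e))).subset fun f hf => ?_
    obtain ⟨-, v, rfl | rfl, h⟩ := (hLG e f).mp hf
    · exact Or.inl h
    · exact Or.inr h)
  have : IsStrictTotalOrder E (T.Lt J) :=
    { trichotomous := fun a b h1 h2 =>
        ((Tr.total hi a b J (hJ a) (hJ b)).resolve_left h1).resolve_right h2
      irrefl := fun a h => h.ne rfl
      trans := fun _ _ _ => Tr.Lt.trans }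
  let : LinearOrder E := linearOrderOfSTO (T.Lt J)
  have hlt : ∀ x y, x < y ↔ T.Lt J x y := fun _ _ => Iff.rfl
  have hne : (T.F J).Nonempty := ⟨Classical.arbitrary E, hJ _⟩
  obtain ⟨b, -, hb1, hb2⟩ := Tr.first hi hG J hne
  obtain ⟨t, -, ht1, ht2⟩ := Tr.last hi hG J hne
  have hb : ∀ x, b ≤ x := fun x => (hb2 x (hJ x)).elim (fun h => h.ge) fun h => ((hlt _ _).mpr h).le
  have ht : ∀ x, x ≤ t := fun x => (ht2 x (hJ x)).elim (fun h => h.le) fun h => ((hlt _ _).mpr h).le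
  have hs : ∀ x, x ≠ t → ∃ y, x ⋖ y ∧ G.Touch x y := by
    intro x hx
    rcases Tr.succ hi hG x J (hJ x) with ⟨-, h⟩ | ⟨y, h1, h2, h3⟩
    · exact absurd (le_antisymm (ht x) ((h t (hJ t)).elim (fun h => h.le)
        fun h => ((hlt _ _).mpr h).le)) hx
    · exact ⟨y, ⟨h1, h3⟩, h2⟩
  refine H94.ham_of_order b t hb ht (fun x hx => (hs x hx).imp fun _ => And.left)
    (fun y hy => ?_) (fun x y hxy => ?_) ((hLG _ _).mpr ⟨fun h => ?_, _, ht1, huv ▸ hb1⟩)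
    (fun S x y hxy hS => Tr.link hi hG hLG S J x (hJ x) y (hJ y) hxy.eq_or_lt fun s hs _ => hS s hs)
    fun z => ?_
  · rcases Tr.succ (T := T.flip) hi hG y J (hJ y) with ⟨-, h⟩ | ⟨x, h1, -, h3⟩
    · exact absurd (le_antisymm ((h b (hJ b)).elim (fun h => h.ge)
        fun h => ((hlt _ _).mpr (Tr.lt_flip.mp h)).le) (hb y)) hy
    · exact ⟨x, Tr.lt_flip.mp h1, fun w h4 h5 => h3 w (Tr.lt_flip.mpr h5) (Tr.lt_flip.mpr h4)⟩
  · obtain ⟨y', h1, h2⟩ := hs x (hxy.lt.trans_le (ht y)).ne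
    exact (hLG x y).mpr ⟨hxy.ne, h1.unique_right hxy ▸ h2⟩
  · exact Set.infinite_univ (α := E)
      ((Set.finite_singleton b).subset fun x _ => le_antisymm (h ▸ ht x) (hb x))
  · have hf := Tr.fb_lt hi hG z J (hJ z)
    refine ⟨hf.toFinset, fun x y hx hy h => lt_asymm hy ?_⟩
    refine h.ind (P := (· < z)) (fun a c hac _ hc ha => ?_) hx
    by_contra h1
    exact hc (hf.mem_toFinset.mpr ⟨h1, a, ha, ((hLG a c).mp hac).2.symm⟩)

end LIMIT

open LIMIT in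
theorem rowLimit : StLimit.{u} := by
  intro V E _ _ G LG Job hG hLG h1 h2 ⟨x, hx⟩
  obtain ⟨idx, hi⟩ := Countable.exists_injective_nat E
  have key : ∀ J : {J : V × V × Set E // Job J.1 J.2.1 J.2.2}, ∃ (e : E)
      (L R : {J : V × V × Set E // Job J.1 J.2.1 J.2.2}), (∀ g ∈ J.1.2.2, idx e ≤ idx g) ∧
      (J.1.2.2.Nonempty → L.1.1 = J.1.1 ∧ R.1.2.1 = J.1.2.1 ∧ G.Tch e L.1.2.1 ∧ G.Tch e R.1.1 ∧
        Disjoint L.1.2.2 R.1.2.2 ∧ e ∉ L.1.2.2 ∧ e ∉ R.1.2.2 ∧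
        J.1.2.2 = L.1.2.2 ∪ {e} ∪ R.1.2.2) := by
    rintro ⟨⟨u, v, F⟩, hJ⟩
    by_cases h : F.Nonempty
    · obtain ⟨p, q, F1, F2, h3, h4, h5, h6, h7⟩ := h1 u v F hJ _
        (Function.argminOn_mem idx F h)
      exact ⟨_, ⟨(u, p, F1), h5⟩, ⟨(q, v, F2), h6⟩, fun g hg => Function.argminOn_le idx F hg,
        fun _ => ⟨rfl, rfl, h3, h4, h7⟩⟩
    · exact ⟨Classical.arbitrary E, ⟨_, hJ⟩, ⟨_, hJ⟩, fun g hg => absurd ⟨g, hg⟩ h,
        fun h' => absurd h' h⟩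
  choose piv L R h3 h4 using key
  exact Tr.ham
    { N := {J : V × V × Set E // Job J.1 J.2.1 J.2.2}
      u := fun J => J.1.1
      v := fun J => J.1.2.1
      F := fun J => J.1.2.2
      piv := piv
      L := L
      R := R
      min := h3
      uL := fun J h => (h4 J h).1
      vR := fun J h => (h4 J h).2.1
      tL := fun J h => (h4 J h).2.2.1
      tR := fun J h => (h4 J h).2.2.2.1
      dis := fun J h => Set.disjoint_left.mp (h4 J h).2.2.2.2.1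
      nL := fun J h => (h4 J h).2.2.2.2.2.1
      nR := fun J h => (h4 J h).2.2.2.2.2.2.1
      mem := fun J h x => by
        rw [(h4 J h).2.2.2.2.2.2.2]
        exact or_assoc
      con := fun J => (h2 _ _ _ J.2).1
      fb := fun J => (h2 _ _ _ J.2).2.1
      tch := fun J => (h2 _ _ _ J.2).2.2 } hi hG hLG ⟨(x, x, Set.univ), hx⟩ Set.mem_univ rfl

end Pool.Agent.MP_7f38c2_co.H28
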