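import Pool.Agent.MP_7f38c2_co.H28.Spec

/-! An admissible splitting in the critical case. -/

namespace Pool.Agent.MP_7f38c2_co.H28

open Classical

universe u

namespace MADER

variable {V E : Type u} {G : Gr V E} {r : ℕ} {N : Set E} {S : Set V} {z x : V}
  {c0 : E → Option (Fin r)} {o : E → V}

lemma ncard_sum (hN : N.Finite) (A : Set E) :
    (N ∩ A).ncard = ∑ g ∈ hN.toFinset, if g ∈ A then 1 else 0 := by
  rw [← Finset.card_filter, ← Set.ncard_coe_finset]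
  congr 1
  ext g
  simp

lemma posi (hN : N.Finite) (Y Z : Set V) : G.dg N Y + G.dg N Z = G.dg N (Y \ Z) + G.dg N (Z \ Y) +
    2 * (N ∩ (G.cut (Y ∩ Z) ∩ G.cut (Y ∪ Z))).ncard := by
  simp only [Gr.dg, ncard_sum hN, Finset.mul_sum, ← Finset.sum_add_distrib]
  refine Finset.sum_congr rfl fun g _ => ?_
  simp only [Gr.cut, Set.mem_ofPred_eq, Set.mem_inter_iff, Set.mem_union, Set.mem_sdiff]
  by_cases h1 : G.s g ∈ Y <;> by_cases h2 : G.s g ∈ Z <;> by_cases h3 : G.t g ∈ Y <;>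
    by_cases h4 : G.t g ∈ Z <;> simp [h1, h2, h3, h4]

lemma ins (hN : N.Finite) (U : Set V) (hx : x ∉ U) :
    G.dg N U + G.dg N {x} = G.dg N (insert x U) + 2 * (N ∩ (G.cut {x} ∩ G.cut U)).ncard := by
  simp only [Gr.dg, ncard_sum hN, Finset.mul_sum, ← Finset.sum_add_distrib]
  refine Finset.sum_congr rfl fun g _ => ?_
  simp only [Gr.cut, Set.mem_ofPred_eq, Set.mem_inter_iff, Set.mem_insert_iff,
    Set.mem_singleton_iff]
  by_cases h1 : G.s g = x <;> by_cases h2 : G.t g = x <;> by_cases h3 : G.s g ∈ U <;>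
    by_cases h4 : G.t g ∈ U <;> simp_all

/-- the edges at `x` end in terminals of minimal degree -/
def Ends (G : Gr V E) (r : ℕ) (N : Set E) (S : Set V) (x : V) (o : E → V) : Prop :=
  x ∉ S ∧ ∀ e ∈ N ∩ G.cut {x}, G.Joins e x (o e) ∧ o e ∈ S ∧ G.dg N {o e} = 72 * r

/-- dangerous sets -/
def Dan (G : Gr V E) (r : ℕ) (N : Set E) (S : Set V) (x : V) (U : Set V) : Prop :=
  x ∉ U ∧ Spl S U ∧ G.dg N U ≤ 72 * r + 1

lemma exists_ends (hC : Crit G r N S) (hx : x ∉ S) : ∃ o, Ends G r N S x o := by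
  have : ∀ e ∈ N ∩ G.cut {x}, ∃ a, G.Joins e x a ∧ a ∈ S ∧ G.dg N {a} = 72 * r := by
    rintro e ⟨h1, h2⟩
    obtain ⟨s, hs, h3, h4⟩ := hC e h1
    refine ⟨s, ?_, hs, h4⟩
    have hne : s ≠ x := fun h => hx (h ▸ hs)
    simp only [Gr.cut, Set.mem_ofPred_eq, Set.mem_singleton_iff] at h2 h3
    unfold Gr.Joins
    grind
  have := Nonempty.intro x
  choose! o ho using ‹∀ e ∈ N ∩ G.cut {x}, _›
  exact ⟨o, hx, ho⟩

lemma count (hH : CH G r N S z c0) (ho : Ends G r N S x o) {U : Set V} (hx : x ∉ U)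
    (hU : Spl S U) {A : Set E} (hA : ∀ e ∈ A, e ∈ N ∩ G.cut {x} ∧ o e ∈ U) :
    72 * r + 2 * A.ncard ≤ G.dg N U + G.dg N {x} := by
  have h1 := hH.ec (insert x U) ⟨hU.1.mono fun _ h => ⟨h.1, .inr h.2⟩, hU.2.mono fun _ h =>
    ⟨h.1, fun h' => h'.elim (fun e => ho.1 (e ▸ h.1)) h.2⟩⟩
  have h2 : A.ncard ≤ (N ∩ (G.cut {x} ∩ G.cut U)).ncard :=
    Set.ncard_le_ncard (fun e he => ⟨(hA e he).1.1, (hA e he).1.2,
      (ho.2 e (hA e he).1).1.mem_cut.2 fun h => hx (h.2 (hA e he).2)⟩)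
      (hH.fin.subset Set.inter_subset_left)
  have := ins (G := G) hH.fin U hx
  omega

/-- two crossing dangerous sets -/
lemma cross (hH : CH G r N S z c0) (hT : TT G r N S) (ho : Ends G r N S x o) {Y Z : Set V}
    (hY : Dan G r N S x Y) (hZ : Dan G r N S x Z) {et ey eu : E} (ht : et ∈ N ∩ G.cut {x})
    (hy : ey ∈ N ∩ G.cut {x}) (hu : eu ∈ N ∩ G.cut {x}) (t1 : o et ∈ Y) (t2 : o et ∈ Z)
    (y1 : o ey ∈ Y) (y2 : o ey ∉ Z) (u1 : o eu ∉ Y) (u2 : o eu ∈ Z) :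
    (∀ g ∈ N, ∀ v w, G.Joins g v w → v ∈ Y → v ∈ Z → w ∉ Y → w ∉ Z → g = et) ∧
      ∀ g ∈ N, ∀ v w, G.Joins g v w → v ∈ Y → v ∉ Z → v = o ey := by
  have s1 : Spl S (Y \ Z) := spl_of_mem (ho.2 _ hy).2.1 (ho.2 _ hu).2.1 ⟨y1, y2⟩ fun h => u1 h.1
  have s2 : Spl S (Z \ Y) := spl_of_mem (ho.2 _ hu).2.1 (ho.2 _ hy).2.1 ⟨u2, u1⟩ fun h => y2 h.1
  have hm : ∀ g ∈ N, ∀ v w, G.Joins g v w → v ∈ Y → v ∈ Z → w ∉ Y → w ∉ Z →
      g ∈ N ∩ (G.cut (Y ∩ Z) ∩ G.cut (Y ∪ Z)) := fun g hg v w h a b c d =>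
    ⟨hg, h.mem_cut.2 fun e => c (e.1 ⟨a, b⟩).1, h.mem_cut.2 fun e => (e.1 (.inl a)).elim c d⟩
  have m1 := hm et ht.1 _ _ (ho.2 _ ht).1.symm t1 t2 hY.1 hZ.1
  have hf : (N ∩ (G.cut (Y ∩ Z) ∩ G.cut (Y ∪ Z))).Finite := hH.fin.subset Set.inter_subset_left
  have m2 := (Set.ncard_pos hf).2 ⟨et, m1⟩
  have m3 := posi (G := G) hH.fin Y Z
  have m4 := hH.ec _ s1
  have m5 := hH.ec _ s2
  have m6 := hY.2.2
  have m7 := hZ.2.2
  refine ⟨fun g hg v w h a b c d =>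
    (Set.ncard_le_one hf).1 (by omega) _ (hm g hg v w h a b c d) _ m1, ?_⟩
  have k1 : ∀ g ∈ N, ∀ v w, G.Joins g v w → v ∈ Y \ Z → w ∉ Y \ Z := by
    intro g hg v w h a b
    rcases hT _ s1 (by omega) with e | e
    · exact Set.eq_empty_iff_forall_notMem.1 e g ⟨hg, h.mem_In.2 ⟨a, b⟩⟩
    · exact Set.eq_empty_iff_forall_notMem.1 e et
        ⟨ht.1, (ho.2 _ ht).1.mem_In.2 ⟨fun h => hY.1 h.1, fun h => h.2 t2⟩⟩
  have k2 : N ∩ G.cut {o ey} = N ∩ G.cut (Y \ Z) := by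
    refine Set.eq_of_subset_of_ncard_le ?_ (show G.dg N _ ≤ G.dg N _ by
      rw [(ho.2 _ hy).2.2]; omega) (hH.fin.subset Set.inter_subset_left)
    rintro g ⟨hg, h⟩
    refine ⟨hg, fun e => h ?_⟩
    have a1 : G.s g ∉ Y \ Z := fun a => k1 g hg _ _ (G.joins_st g) a (e.1 a)
    exact iff_of_false (fun a => a1 (a ▸ ⟨y1, y2⟩)) fun a => a1 (e.2 (a ▸ ⟨y1, y2⟩))
  intro g hg v w h a b
  have a1 := k1 g hg v w h ⟨a, b⟩
  have a2 : g ∈ N ∩ G.cut {o ey} := k2 ▸ ⟨hg, h.mem_cut.2 fun e => a1 (e.1 ⟨a, b⟩)⟩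
  by_contra a3
  exact h.mem_cut.1 a2.2 (iff_of_false a3 fun e => a1 (e ▸ ⟨y1, y2⟩))

/-- a dangerous set receives at most two edges from `x` -/
lemma no_three (hH : CH G r N S z c0) (hT : TT G r N S) (ho : Ends G r N S x o)
    (hP : ∀ e ∈ N ∩ G.cut {x}, ∀ e' ∈ N ∩ G.cut {x}, e ≠ e' →
      ∃ U, Dan G r N S x U ∧ o e ∈ U ∧ o e' ∈ U)
    {a b c : E} (ha : a ∈ N ∩ G.cut {x}) (hb : b ∈ N ∩ G.cut {x}) (hc : c ∈ N ∩ G.cut {x})
    (ab : a ≠ b) (ac : a ≠ c) (bc : b ≠ c) {U : Set V} (hU : Dan G r N S x U) (a1 : o a ∈ U)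
    (b1 : o b ∈ U) : o c ∉ U := by
  intro c1
  have hf : (N ∩ G.cut {x}).Finite := hH.fin.subset Set.inter_subset_left
  obtain ⟨Y, ⟨hY, a2, b2, c2⟩, hmax⟩ := Set.Finite.exists_maximalFor'
    (fun U => {e | e ∈ N ∩ G.cut {x} ∧ o e ∈ U})
    {U | Dan G r N S x U ∧ o a ∈ U ∧ o b ∈ U ∧ o c ∈ U}
    (hf.powerset.subset (by rintro _ ⟨U, -, rfl⟩; exact fun e h => h.1)) ⟨U, hU, a1, b1, c1⟩
  obtain ⟨eu, hu, u1⟩ : ∃ e ∈ N ∩ G.cut {x}, o e ∉ Y := by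
    by_contra! h
    have h1 := count hH ho hY.1 hY.2.1 fun e he => ⟨he, h e he⟩
    have h2 : 1 < (N ∩ G.cut {x}).ncard := (Set.one_lt_ncard hf).2 ⟨a, ha, b, hb, ab⟩
    have h3 := hY.2.2
    change _ + 2 * G.dg N {x} ≤ _ at h1
    change _ < G.dg N {x} at h2
    omega
  have key : ∀ et ∈ N ∩ G.cut {x}, o et ∈ Y → ∃ y, y ≠ o et ∧
      ∀ e ∈ N ∩ G.cut {x}, o e ∈ Y → e ≠ et → o e = y := by
    intro et ht t1
    obtain ⟨Z, hZ, t2, u2⟩ := hP et ht eu hu fun e => u1 (e ▸ t1)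
    obtain ⟨ey, hy, y1, y2⟩ : ∃ e ∈ N ∩ G.cut {x}, o e ∈ Y ∧ o e ∉ Z := by
      by_contra! h
      exact u1 (hmax ⟨hZ, h a ha a2, h b hb b2, h c hc c2⟩ (fun e he => ⟨he.1, h e he.1 he.2⟩)
        ⟨hu, u2⟩).2
    obtain ⟨k1, k2⟩ := cross hH hT ho hY hZ ht hy hu t1 t2 y1 y2 u1 u2
    exact ⟨o ey, fun e => y2 (e ▸ t2), fun e he e1 hne => k2 e he.1 _ _ (ho.2 e he).1.symm e1
      fun e2 => hne (k1 e he.1 _ _ (ho.2 e he).1.symm e1 e2 hY.1 hZ.1)⟩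
  obtain ⟨y, -, h1⟩ := key a ha a2
  obtain ⟨y', h2, h3⟩ := key b hb b2
  exact h2 (by rw [← h3 c hc c2 bc.symm, h1 c hc c2 ac.symm, h1 b hb b2 ab.symm])

end MADER

open MADER in
theorem rowMader : StMader.{u} := by
  intro V E G r N S z c0 hH hC hT x hx h0 h3
  obtain ⟨o, ho⟩ := exists_ends hC hx
  have hf : (N ∩ G.cut {x}).Finite := hH.fin.subset Set.inter_subset_left
  have hr := hH.pos
  by_contra hA
  have hP : ∀ e ∈ N ∩ G.cut {x}, ∀ e' ∈ N ∩ G.cut {x}, e ≠ e' →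
      ∃ U, Dan G r N S x U ∧ o e ∈ U ∧ o e' ∈ U := by
    intro e he e' he' hne
    by_contra! h
    refine hA ⟨x, e, e', o e, o e', hx, he.1, he'.1, hne, (ho.2 e he).1, (ho.2 e' he').1,
      (ho.2 e he).2.1, (ho.2 e' he').2.1, fun U a b c d => ?_⟩
    by_contra hn
    exact h U ⟨a, b, by omega⟩ c d
  have h1 : G.dg N {x} ≠ 1 := by
    intro h
    obtain ⟨e, he⟩ := Set.ncard_eq_one.1 h
    have he' : e ∈ N ∩ G.cut {x} := he ▸ rfl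
    obtain ⟨-, a1, a2⟩ := ho.2 e he'
    obtain ⟨s, hs, hne⟩ : ∃ s ∈ S, s ≠ o e := by
      obtain ⟨s, hs, hne⟩ := hH.two
      by_cases h' : s = o e
      · exact ⟨z, hH.zS, fun e => hne (h'.trans e.symm)⟩
      · exact ⟨s, hs, h'⟩
    have := count hH ho (U := {o e}) (fun h => hx (h ▸ a1)) (spl_of_mem a1 hs rfl hne)
      (A := {e}) (by rintro _ rfl; exact ⟨he', rfl⟩)
    rw [Set.ncard_singleton] at this
    omega
  have h2 : G.dg N {x} ≠ 2 := by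
    intro h
    obtain ⟨e, e', hne, he⟩ := Set.ncard_eq_two.1 h
    have a1 : e ∈ N ∩ G.cut {x} := he ▸ .inl rfl
    have a2 : e' ∈ N ∩ G.cut {x} := he ▸ .inr rfl
    obtain ⟨U, hU, b1, b2⟩ := hP e a1 e' a2 hne
    have := count hH ho hU.1 hU.2.1 (A := {e, e'}) (by
      rintro _ (rfl | rfl)
      exacts [⟨a1, b1⟩, ⟨a2, b2⟩])
    rw [Set.ncard_pair hne] at this
    have := hU.2.2
    omega
  obtain ⟨a, b, c, d, ha, hb, hc, hd, ab, ac, ad, bc, bd, cd⟩ :=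
    (Set.three_lt_ncard_iff hf).1 (show 3 < G.dg N {x} by omega)
  obtain ⟨X, hX, x1, x2⟩ := hP a ha b hb ab
  obtain ⟨Y, hY, y1, y2⟩ := hP a ha c hc ac
  obtain ⟨Z, hZ, z1, z2⟩ := hP b hb c hc bc
  have x3 := no_three hH hT ho hP ha hb hc ab ac bc hX x1 x2
  have y3 := no_three hH hT ho hP ha hc hb ac ab bc.symm hY y1 y2
  have z3 := no_three hH hT ho hP hb hc ha bc ab.symm ac.symm hZ z1 z2
  have x4 := no_three hH hT ho hP ha hb hd ab ad bd hX x1 x2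
  have y4 := no_three hH hT ho hP ha hc hd ac ad cd hY y1 y2
  have z4 := no_three hH hT ho hP hb hc hd bc bd cd hZ z1 z2
  obtain ⟨k1, k2⟩ := cross hH hT ho hX hY ha hb hc x1 y1 x2 y3 x3 y2
  obtain ⟨k3, k4⟩ := cross hH hT ho hZ hX hb hc ha z1 x2 z2 x3 z3 x1
  obtain ⟨k5, k6⟩ := cross hH hT ho hY hZ hc ha hb y2 z2 y1 z3 y3 z1
  have h4 := hH.ec (X ∪ Y ∪ Z) (spl_of_mem (ho.2 a ha).2.1 (ho.2 d hd).2.1 (.inl (.inl x1))
    (by simp [x4, y4, z4]))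
  have h5 : ∀ g ∈ N, ∀ v w, G.Joins g v w → v ∈ X ∪ Y ∪ Z → w ∉ X ∪ Y ∪ Z →
      g ∈ ({a, b, c} : Set E) := by
    intro g hg v w h hv hw
    have a1 := k1 g hg v w h
    have a2 := k2 g hg v w h
    have a3 := k3 g hg v w h
    have a4 := k4 g hg v w h
    have a5 := k5 g hg v w h
    have a6 := k6 g hg v w h
    simp only [Set.mem_union, Set.mem_insert_iff, Set.mem_singleton_iff] at hv hw ⊢
    grind
  have h6 : G.dg N (X ∪ Y ∪ Z) ≤ ({a, b, c} : Set E).ncard := by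
    refine Set.ncard_le_ncard (fun g hg => ?_) (Set.toFinite _)
    by_cases h : G.s g ∈ X ∪ Y ∪ Z
    · exact h5 g hg.1 _ _ (G.joins_st g) h fun h' => hg.2 (iff_of_true h h')
    · exact h5 g hg.1 _ _ (G.joins_st g).symm (not_not.1 fun h' => hg.2 (iff_of_false h h')) h
  have h7 : ({a, b, c} : Set E).ncard = 3 := Set.ncard_eq_three.2 ⟨a, b, c, ab, ac, bc, rfl⟩
  omega

end Pool.Agent.MP_7f38c2_co.H28
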