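import Pool.Agent.MP_7f38c2_co.H28.Spec

/-! Minimal states are good. -/

namespace Pool.Agent.MP_7f38c2_co.H28

open Classical

universe u

namespace MIN

section routes

variable {V E : Type u} {G : Gr V E} {a b : V}

/-- junction `k` is `(p, p')`, and all other junctions satisfy `P` -/
def Ex (r : Rt G a b) (k : ℕ) (p p' : V) (P : V → V → Prop) : Prop :=
  k ≤ r.n ∧ r.w k = p ∧ r.w' k = p' ∧ ∀ m ≤ r.n, m ≠ k → P (r.w m) (r.w' m)

lemma Ex.close {r : Rt G a b} {k : ℕ} {p p' : V} {P : V → V → Prop} (h : Ex r k p p' P)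
    (hp : P p p') : ∀ m ≤ r.n, P (r.w m) (r.w' m) := fun m hm => by
  by_cases h1 : m = k
  · rw [h1, h.2.1, h.2.2.1]
    exact hp
  · exact h.2.2.2 m hm h1

lemma short (r : Rt G a b) {P : V → V → Prop} (h : ∀ m ≤ r.n, P (r.w m) (r.w' m)) (k δ : ℕ)
    (hk : k + δ ≤ r.n) :
    ∃ r' : Rt G a b, r'.n + δ = r.n ∧ r'.es ⊆ r.es ∧ Ex r' k (r.w k) (r.w' (k + δ)) P := by
  refine ⟨⟨r.n - δ, fun m => r.e (if m < k then m else m + δ),
    fun m => r.w (if m ≤ k then m else m + δ), fun m => r.w' (if m < k then m else m + δ),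
    ?_, ?_, fun m hm => ?_, fun m hm m' hm' he => ?_⟩, ?_, ?_, ?_, ?_, ?_, fun m hm h1 => ?_⟩
  · rw [if_pos (Nat.zero_le k), r.h0]
  · rw [if_neg (by omega), show r.n - δ + δ = r.n by omega, r.hn]
  · by_cases h1 : m < k
    · rw [if_pos h1, if_pos (show m + 1 ≤ k from h1)]
      exact r.hj m (by omega)
    · rw [if_neg h1, if_neg (show ¬ m + 1 ≤ k from h1), Nat.add_right_comm]
      exact r.hj _ (by omega)
  · have := r.inj _ (by split_ifs <;> omega) _ (by split_ifs <;> omega) he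
    split_ifs at this <;> omega
  · show r.n - δ + δ = r.n
    omega
  · rintro _ ⟨m, hm, rfl⟩
    have h1 : m < r.n - δ := hm
    exact ⟨_, by split_ifs <;> omega, rfl⟩
  · show k ≤ r.n - δ
    omega
  · exact congrArg r.w (if_pos le_rfl)
  · exact congrArg r.w' (if_neg (lt_irrefl k))
  · have h2 : m ≤ r.n - δ := hm
    show P (r.w (if m ≤ k then m else m + δ)) (r.w' (if m < k then m else m + δ))
    by_cases h3 : m < k
    · rw [if_pos h3, if_pos h3.le]
      exact h m (by omega)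
    · rw [if_neg h3, if_neg (by omega)]
      exact h _ (by omega)

lemma Ex.ins {r : Rt G a b} {k : ℕ} {p p' : V} {P : V → V → Prop} (h : Ex r k p p' P) {g : E}
    {x y : V} (hg : G.Joins g x y) (hn : g ∉ r.es) (hp : P p x) :
    ∃ r' : Rt G a b, r'.n = r.n + 1 ∧ r'.es ⊆ insert g r.es ∧ Ex r' (k + 1) y p' P := by
  obtain ⟨h1, h2, h3, h4⟩ := h
  refine ⟨⟨r.n + 1, fun m => if m = k then g else r.e (if m < k then m else m - 1),
    fun m => if m = k + 1 then y else r.w (if m ≤ k then m else m - 1),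
    fun m => if m = k then x else r.w' (if m < k then m else m - 1),
    ?_, ?_, fun m hm => ?_, fun m hm m' hm' he => ?_⟩, rfl, ?_, Nat.succ_le_succ h1, if_pos rfl,
    ?_, fun m hm h5 => ?_⟩
  · rw [if_neg (by omega), if_pos (Nat.zero_le k), r.h0]
  · rw [if_neg (by omega), if_neg (by omega), Nat.add_sub_cancel, r.hn]
  · by_cases h5 : m = k
    · rw [if_pos h5, if_pos h5, if_pos (by omega)]
      exact hg
    · rw [if_neg h5, if_neg h5, if_neg (show ¬ m + 1 = k + 1 by omega)]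
      by_cases h6 : m < k
      · rw [if_pos h6, if_pos (show m + 1 ≤ k from h6)]
        exact r.hj m (by omega)
      · rw [if_neg h6, if_neg (show ¬ m + 1 ≤ k from h6), show m + 1 - 1 = m - 1 + 1 by omega]
        exact r.hj _ (by omega)
  · by_cases h5 : m = k <;> by_cases h6 : m' = k
    · rw [h5, h6]
    · rw [if_pos h5, if_neg h6] at he
      exact absurd ⟨_, by split_ifs <;> omega, he.symm⟩ hn
    · rw [if_neg h5, if_pos h6] at he
      exact absurd ⟨_, by split_ifs <;> omega, he⟩ hn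
    · rw [if_neg h5, if_neg h6] at he
      have := r.inj _ (by split_ifs <;> omega) _ (by split_ifs <;> omega) he
      split_ifs at this <;> omega
  · rintro _ ⟨m, hm, rfl⟩
    have h5 : m < r.n + 1 := hm
    show (if m = k then g else r.e (if m < k then m else m - 1)) ∈ _
    by_cases h6 : m = k
    · rw [if_pos h6]
      exact Or.inl rfl
    · rw [if_neg h6]
      exact Or.inr ⟨_, by split_ifs <;> omega, rfl⟩
  · show (if k + 1 = k then x else r.w' (if k + 1 < k then k + 1 else k + 1 - 1)) = p'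
    rw [if_neg (by omega), if_neg (by omega), Nat.add_sub_cancel, h3]
  · have h6 : m ≤ r.n + 1 := hm
    show P (if m = k + 1 then y else r.w (if m ≤ k then m else m - 1))
      (if m = k then x else r.w' (if m < k then m else m - 1))
    rw [if_neg h5]
    by_cases h7 : m = k
    · rw [if_pos h7, if_pos h7.le, h7, h2]
      exact hp
    · rw [if_neg h7]
      by_cases h8 : m < k
      · rw [if_pos h8, if_pos h8.le]
        exact h4 m (by omega) h7
      · rw [if_neg h8, if_neg (by omega)]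
        exact h4 _ (by omega) (by omega)

end routes

variable {V E L : Type u} {G : Gr V E} {X : Set V} {F : Set E} {j : ℕ} {ι : Type} {a b : ι → V}
  {Cap : Set ι → Prop}

/-- admissible junctions for a new route with index `i` -/
def Ok (σ : St G X F j a b Cap L) (i : ι) (p p' : V) : Prop :=
  p ∈ X ∧ p' ∈ X ∧ σ.l p = σ.l p' ∧ (p ≠ p' → i ∈ σ.J (σ.l p) ∨ Cap (insert i (σ.J (σ.l p))))

lemma ok_old (σ : St G X F j a b Cap L) (i : ι) :
    ∀ m ≤ (σ.r i).n, Ok σ i ((σ.r i).w m) ((σ.r i).w' m) := fun m hm =>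
  ⟨(σ.mem i m hm).1, (σ.mem i m hm).2.1, (σ.mem i m hm).2.2, fun h => Or.inl ⟨m, hm, rfl, h⟩⟩

/-- replacing one route -/
lemma replace (hC : ∀ T T', T' ⊆ T → Cap T → Cap T') (σ : St G X F j a b Cap L) (i : ι)
    (r' : Rt G (a i) (b i))
    (h1 : ∀ g ∈ r'.es, g ∈ (σ.r i).es ∨ (g ∈ σ.free ∧ σ.l (G.s g) ≠ σ.l (G.t g)))
    (h2 : ∀ m ≤ r'.n, Ok σ i (r'.w m) (r'.w' m)) :
    ∃ σ' : St G X F j a b Cap L, σ'.l = σ.l ∧ σ'.r = Function.update σ.r i r' := by
  have h3 : ∀ i', i' ≠ i → Disjoint r'.es (σ.r i').es := fun i' hi =>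
    Set.disjoint_left.mpr fun g hg hg' => (h1 g hg).elim
      (fun h => Set.disjoint_left.mp (σ.dis hi) hg' h) fun h => h.1.2 (Set.mem_iUnion.mpr ⟨i', hg'⟩)
  refine ⟨⟨σ.l, Function.update σ.r i r', σ.hF, σ.cof, σ.fin, σ.cutf, fun i' => ?_,
    fun i' i'' hi => ?_, fun i' => ?_, fun q => ?_, fun q => ?_⟩, rfl, rfl⟩
  · by_cases h : i' = i
    · subst h
      rw [Function.update_self]
      exact fun g hg => (h1 g hg).elim (fun h => σ.sub _ h) fun h => h.1.1
    · rw [Function.update_of_ne h]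
      exact σ.sub i'
  · beta_reduce
    by_cases h : i' = i
    · subst h
      rw [Function.update_self, Function.update_of_ne hi.symm]
      exact h3 _ hi.symm
    · rw [Function.update_of_ne h]
      by_cases h' : i'' = i
      · subst h'
        rw [Function.update_self]
        exact (h3 _ h).symm
      · rw [Function.update_of_ne h']
        exact σ.dis hi
  · by_cases h : i' = i
    · subst h
      rw [Function.update_self]
      exact fun m hm => ⟨(h2 m hm).1, (h2 m hm).2.1, (h2 m hm).2.2.1⟩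
    · rw [Function.update_of_ne h]
      exact σ.mem i'
  · refine (σ.ec q).mono le_rfl subset_rfl fun g hg => ⟨⟨hg.1.1, fun h => ?_⟩, hg.2⟩
    obtain ⟨i', h⟩ := Set.mem_iUnion.mp h
    by_cases h' : i' = i
    · subst h'
      rw [Function.update_self] at h
      exact (h1 g h).elim (fun h4 => hg.1.2 (Set.mem_iUnion.mpr ⟨_, h4⟩))
        fun h4 => h4.2 (Eq.trans hg.2.1.2 (Eq.symm hg.2.2.2))
    · rw [Function.update_of_ne h'] at h
      exact hg.1.2 (Set.mem_iUnion.mpr ⟨_, h⟩)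
  · have h4 : ∀ i', i' ≠ i → (∃ k ≤ (Function.update σ.r i r' i').n,
        σ.l ((Function.update σ.r i r' i').w k) = q ∧
        (Function.update σ.r i r' i').w k ≠ (Function.update σ.r i r' i').w' k) → i' ∈ σ.J q :=
      fun i' h => by
        rw [Function.update_of_ne h]
        exact id
    by_cases h : Cap (insert i (σ.J q))
    · refine hC _ _ (fun i' hi => ?_) h
      by_cases h' : i' = i
      · exact Or.inl h'
      · exact Or.inr (h4 i' h' hi)
    · refine hC (σ.J q) _ (fun i' hi => ?_) (σ.cap q)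
      by_cases h' : i' = i
      · subst h'
        rw [Set.mem_ofPred_eq, Function.update_self] at hi
        obtain ⟨m, hm, rfl, h5⟩ := hi
        exact ((h2 m hm).2.2.2 h5).resolve_right h
      · exact h4 i' h' hi

/-- merging letters -/
lemma merge (hC : ∀ T T', T' ⊆ T → Cap T → Cap T') (σ : St G X F j a b Cap L) (Z : Set L)
    (h1 : G.EC j (X ∩ σ.l ⁻¹' Z) (σ.free ∩ G.In (X ∩ σ.l ⁻¹' Z))) (h2 : Cap (⋃ q ∈ Z, σ.J q))
    {q0 : L} (h0 : q0 ∈ Z) :
    ∃ σ' : St G X F j a b Cap L, σ'.l = fun v => if σ.l v ∈ Z then q0 else σ.l v := by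
  have h3 : ∀ q, q ≠ q0 → ∀ v, (if σ.l v ∈ Z then q0 else σ.l v) = q → σ.l v ∉ Z ∧ σ.l v = q :=
    fun q hq v hv => by
      split_ifs at hv with h
      · exact absurd hv.symm hq
      · exact ⟨h, hv⟩
  have h4 : ∀ v, (if σ.l v ∈ Z then q0 else σ.l v) = q0 ↔ σ.l v ∈ Z := fun v => by
    split_ifs with h
    · exact iff_of_true rfl h
    · exact iff_of_false (fun h' => h (h' ▸ h0)) h
  refine ⟨⟨fun v => if σ.l v ∈ Z then q0 else σ.l v, σ.r, σ.hF, σ.cof, ?_, fun q => ?_, σ.sub,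
    σ.dis, fun i k hk => ?_, fun q => ?_, fun q => ?_⟩, rfl⟩
  · refine (σ.fin.image fun q => if q ∈ Z then q0 else q).subset ?_
    rintro _ ⟨v, hv, rfl⟩
    exact ⟨_, ⟨v, hv, rfl⟩, rfl⟩
  · have h5 : X ∩ (fun v => if σ.l v ∈ Z then q0 else σ.l v) ⁻¹' {q} =
        ⋃ y ∈ σ.l '' X ∩ {y | (if y ∈ Z then q0 else y) = q}, X ∩ σ.l ⁻¹' {y} := by
      ext v
      refine ⟨fun h => Set.mem_biUnion (x := σ.l v) ⟨⟨v, h.1, rfl⟩, h.2⟩ ⟨h.1, rfl⟩, fun h => ?_⟩
      obtain ⟨y, hy, h6, h7⟩ := Set.mem_iUnion₂.mp h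
      obtain rfl : σ.l v = y := h7
      exact ⟨h6, hy.2⟩
    rw [h5]
    exact Gr.cut_biUnion_finite (σ.fin.inter_of_left _) fun y _ => σ.cutf y
  · obtain ⟨h5, h6, h7⟩ := σ.mem i k hk
    exact ⟨h5, h6, by rw [h7]⟩
  · by_cases hq : q = q0
    · have h5 : (fun v => if σ.l v ∈ Z then q0 else σ.l v) ⁻¹' {q} = σ.l ⁻¹' Z :=
        Set.ext fun v => hq ▸ h4 v
      rw [h5]
      exact h1
    · by_cases hZ : q ∈ Z
      · rintro U ⟨⟨v, hv, -⟩, -⟩
        obtain ⟨h5, h6⟩ := h3 q hq v hv.2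
        exact absurd (h6 ▸ hZ) h5
      · have h5 : (fun v => if σ.l v ∈ Z then q0 else σ.l v) ⁻¹' {q} = σ.l ⁻¹' {q} :=
          Set.ext fun v => ⟨fun h => (h3 q hq v h).2, fun h => by
            have h6 : σ.l v = q := h
            exact (if_neg (h6 ▸ hZ)).trans h6⟩
        rw [h5]
        exact σ.ec q
  · by_cases hq : q = q0
    · refine hC _ _ ?_ h2
      rintro i ⟨k, hk, h5, h6⟩
      exact Set.mem_biUnion ((h4 _).mp (h5.trans hq)) ⟨k, hk, rfl, h6⟩
    · refine hC _ _ ?_ (σ.cap q)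
      rintro i ⟨k, hk, h5, h6⟩
      exact ⟨k, hk, (h3 q hq _ h5).2, h6⟩

lemma btw_facts {σ : St G X F j a b Cap L} {q y : L} (h : (σ.btw q {y}).Nonempty) (hq : y ≠ q) :
    ∃ g u x, G.Joins g u x ∧ σ.l u = q ∧ σ.l x = y ∧ u ∈ X ∧ x ∈ X ∧ g ∈ σ.free ∧
      σ.l (G.s g) ≠ σ.l (G.t g) := by
  obtain ⟨g, hg, u, x, h1, h2, h3⟩ := h
  have h4 : σ.l x = y := h3
  have h5 := h1.mem_In.mp (σ.hF hg.1)
  refine ⟨g, u, x, h1, h2, h4, h5.1, h5.2, hg, fun h6 => hq ?_⟩
  rcases h1 with ⟨rfl, rfl⟩ | ⟨rfl, rfl⟩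
  · rw [← h4, ← h6, h2]
  · rw [← h4, h6, h2]

end MIN

open MIN in
theorem rowMin : StMin.{u} := by
  intro V E L G X F j ι _ a b Cap hC hne
  obtain ⟨σ0, -, h0⟩ := WellFounded.has_min
    (InvImage.wf (fun σ : St G X F j a b Cap L => (σ.l '' X).ncard) wellFounded_lt) Set.univ
    Set.univ_nonempty
  obtain ⟨σ, hσ, h1⟩ := WellFounded.has_min
    (InvImage.wf (fun σ : St G X F j a b Cap L => ∑ i, (σ.r i).n) wellFounded_lt)
    {σ | σ.l = σ0.l} ⟨σ0, rfl⟩
  have hl : σ.l = σ0.l := hσ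
  have key : ∀ (i : ι) (r' : Rt G (a i) (b i)),
      (∀ g ∈ r'.es, g ∈ (σ.r i).es ∨ (g ∈ σ.free ∧ σ.l (G.s g) ≠ σ.l (G.t g))) →
      (∀ m ≤ r'.n, Ok σ i (r'.w m) (r'.w' m)) → (σ.r i).n ≤ r'.n := fun i r' h2 h3 => by
    obtain ⟨σ', h4, h5⟩ := replace hC σ i r' h2 h3
    by_contra h6
    refine h1 σ' (h4.trans hl) (Finset.sum_lt_sum (fun i' _ => ?_) ⟨i, Finset.mem_univ _, ?_⟩)
    · rw [h5]
      by_cases h : i' = i
      · subst h
        rw [Function.update_self]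
        omega
      · rw [Function.update_of_ne h]
    · rw [h5, Function.update_self]
      omega
  have twice : ∀ i k k', k < k' → k' ≤ (σ.r i).n → σ.l ((σ.r i).w k) = σ.l ((σ.r i).w k') →
      ¬ Cap (insert i (σ.J (σ.l ((σ.r i).w k)))) := fun i k k' h2 h3 h4 h5 => by
    obtain ⟨δ, rfl⟩ := Nat.exists_eq_add_of_le h2.le
    obtain ⟨r', h6, h7, h8⟩ := short (σ.r i) (ok_old σ i) k δ h3
    have := key i r' (fun g hg => Or.inl (h7 hg)) (h8.close ⟨(σ.mem i k (by omega)).1,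
      (σ.mem i _ h3).2.1, h4.trans (σ.mem i _ h3).2.2, fun _ => Or.inr h5⟩)
    omega
  refine ⟨σ, fun Z h2 h3 x hx y hy => ?_, fun i k hk k' hk' h2 h3 => ?_,
    fun i k hk k' hk' q h2 h3 h4 h5 h6 h7 h8 h9 => ?_⟩
  · by_contra h4
    obtain ⟨σ', h5⟩ := merge hC σ Z h2 h3 (q0 := σ.l x) hx.2
    refine h0 σ' trivial ?_
    show (σ'.l '' X).ncard < (σ0.l '' X).ncard
    rw [← hl, h5]
    refine Set.ncard_lt_ncard ⟨?_, fun h => ?_⟩ σ.fin
    · rintro _ ⟨v, hv, rfl⟩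
      beta_reduce
      split_ifs
      · exact ⟨x, hx.1, rfl⟩
      · exact ⟨v, hv, rfl⟩
    · obtain ⟨v, -, h6⟩ := h ⟨y, hy.1, rfl⟩
      beta_reduce at h6
      split_ifs at h6 with h7
      · exact h4 h6
      · exact h7 (h6 ▸ hy.2)
  · rcases lt_trichotomy k k' with h | h | h
    · exact absurd h3 (twice i k k' h hk' h2)
    · exact h
    · exact absurd (h2 ▸ h3) (twice i k' k h hk h2.symm)
  · by_contra h
    obtain ⟨δ, rfl⟩ := Nat.exists_eq_add_of_le (show k ≤ k' by omega)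
    obtain ⟨g, u, x, g1, g2, g3, g4, g5, g6, g7⟩ := btw_facts h5 h2
    obtain ⟨g', u', x', k1, k2, k3, k4, k5, k6, k7⟩ := btw_facts h6 h3
    have hn : ∀ f ∈ σ.free, f ∉ (σ.r i).es := fun f hf h' => hf.2 (Set.mem_iUnion.mpr ⟨i, h'⟩)
    have hg : g' ≠ g := by
      rintro rfl
      rcases g1.eq_or k1 with ⟨-, rfl⟩ | ⟨rfl, -⟩
      · exact h4 (g3.symm.trans k3)
      · exact h3 (k3.symm.trans g2)
    obtain ⟨r1, a1, a2, a3⟩ := short (σ.r i) (ok_old σ i) k δ hk'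
    obtain ⟨r2, b1, b2, b3⟩ := a3.ins g1.symm (fun h' => hn g g6 (a2 h'))
      ⟨(σ.mem i k hk).1, g5, g3.symm, fun _ => Or.inr h8⟩
    obtain ⟨r3, c1, c2, c3⟩ := b3.ins k1 (fun h' => (b2 h').elim hg fun h' => hn g' k6 (a2 h'))
      ⟨g4, k4, g2.trans k2.symm, fun _ => Or.inr (g2 ▸ h7)⟩
    have := key i r3 (fun f hf => (c2 hf).elim (fun e => Or.inr (e ▸ ⟨k6, k7⟩)) fun hf =>
      (b2 hf).elim (fun e => Or.inr (e ▸ ⟨g6, g7⟩)) fun hf => Or.inl (a2 hf))
      (c3.close ⟨k5, (σ.mem i _ hk').2.1, k3.trans (σ.mem i _ hk').2.2,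
        fun _ => Or.inr (k3 ▸ h9)⟩)
    omega

end Pool.Agent.MP_7f38c2_co.H28
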