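import Pool.Agent.MP_7f38c2_co.H28.Spec

/-! One demand in a cell. -/

namespace Pool.Agent.MP_7f38c2_co.H28

open Classical

universe u

namespace ONE

variable {V : Type u}

/-- contract the parts of a labelling of `A` -/
noncomputable def pr (A : Set V) (l : V → ℕ) (v : V) : V ⊕ ℕ :=
  if v ∈ A then Sum.inr (l v) else Sum.inl v

lemma pr_eq {A : Set V} {l : V → ℕ} {u v : V} (h : pr A l u = pr A l v) :
    u = v ∨ (u ∈ A ∧ v ∈ A ∧ l u = l v) := by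
  unfold pr at h
  split_ifs at h with h1 h2 h2
  · exact Or.inr ⟨h1, h2, Sum.inr.inj h⟩
  · exact Or.inl (Sum.inl.inj h)

lemma pre_inl {A : Set V} {l : V → ℕ} {v : V} (h : v ∉ A) : pr A l ⁻¹' {Sum.inl v} = {v} := by
  ext u
  simp only [Set.mem_preimage, Set.mem_singleton_iff, pr]
  split_ifs with h1
  · exact iff_of_false id fun h2 => h (h2 ▸ h1)
  · exact Sum.inl_injective.eq_iff

lemma pre_inr (A : Set V) (l : V → ℕ) (q : ℕ) : pr A l ⁻¹' {Sum.inr q} = A ∩ l ⁻¹' {q} := by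
  ext u
  simp only [Set.mem_preimage, Set.mem_singleton_iff, pr, Set.mem_inter_iff]
  split_ifs with h1
  · simp [h1]
  · simp [h1]

end ONE

open ONE in
theorem rowOne : StS.{u} → StCT2.{u} → StOne.{u} := by
  intro hS hC V E G κ hG hκ X F hX z hz hz0
  obtain ⟨hcut, hF, hcof, hec⟩ := hX
  rcases X.eq_empty_or_nonempty with rfl | ⟨a, ha⟩
  · have : z = 0 := Finsupp.ext fun v => not_not.mp (hz v)
    exact ⟨∅, Set.empty_subset _, this ▸ Gr.PP.nil G κ, fun x hx => absurd hx (Set.notMem_empty _)⟩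
  obtain ⟨S, hSd⟩ : ∃ S : Set V, S = {v | ∃ e ∈ G.In X \ F, G.Tch e v} := ⟨_, rfl⟩
  have hSf : S.Finite := hSd ▸ G.ends_finite hcof
  obtain ⟨l, hl, hreg⟩ := hS V E G κ hG (X \ S)
    ((hcut.union (hG.1.cut hSf)).subset (G.cut_diff_subset X S))
  have hN : {e | e ∈ F ∧ pr (X \ S) l (G.s e) ≠ pr (X \ S) l (G.t e)}.Finite := by
    refine ((hG.1.inc hSf).union (hl.biUnion fun q _ => (hreg q).1)).subset ?_
    rintro e ⟨he, hne⟩
    by_cases h : G.s e ∈ S ∨ G.t e ∈ S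
    · exact Or.inl h
    · rw [not_or] at h
      have h1 : G.s e ∈ X \ S := ⟨(hF he).1, h.1⟩
      have h2 : G.t e ∈ X \ S := ⟨(hF he).2, h.2⟩
      refine Or.inr (Set.mem_biUnion ⟨_, h1, rfl⟩ fun h3 => hne ?_)
      have h4 : l (G.t e) = l (G.s e) := (h3.mp ⟨h1, rfl⟩).2
      rw [pr, pr, if_pos h1, if_pos h2, h4]
  obtain ⟨W, hW, hb, hc, -⟩ := hC (V ⊕ ℕ) E (G.map (pr (X \ S) l)) _ (pr (X \ S) l '' X)
    (Finsupp.mapDomain (pr (X \ S) l) z) (pr (X \ S) l a) hN (by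
      rintro U ⟨⟨_, ⟨x, hx, rfl⟩, h1⟩, ⟨_, ⟨y, hy, rfl⟩, h2⟩⟩
      refine (hec (pr (X \ S) l ⁻¹' U) (spl_of_mem hx hy h1 h2)).trans
        (Set.encard_le_encard fun e he => ⟨⟨he.1, fun h => he.2 ?_⟩, he.2⟩)
      rw [Set.mem_preimage, Set.mem_preimage, h])
    (fun q hq => by
      by_contra h
      refine hq ?_
      rw [mapDomain_apply_eq]
      exact ev_eq_zero fun v hv => not_not.mp fun h' => h ⟨v, hz v h', hv⟩)
    (by rw [ev_mapDomain, Set.preimage_univ, hz0]) ⟨a, ha, rfl⟩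
  have hxi : ∀ q, ev (pr (X \ S) l ⁻¹' {q}) (G.bdy W + z) = 0 := fun q => by
    rw [← mapDomain_apply_eq, Finsupp.mapDomain_add, ← Gr.bdy_map, hb, ch_add_self]
    rfl
  have hsup : ∀ v, (G.bdy W + z) v ≠ 0 → v ∈ X \ S := fun v hv => by
    by_contra h
    have := hxi (Sum.inl v)
    rw [pre_inl h, ev_singleton] at this
    exact hv this
  have hP := Gr.PP.asm (G := G) (κ := κ) (X \ S) l hl.toFinset (G.bdy W + z) W
    (fun q => G.In ((X \ S) ∩ l ⁻¹' {q}))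
    (fun v hv => ⟨hsup v hv, hl.mem_toFinset.mpr ⟨v, hsup v hv, rfl⟩⟩)
    (fun q _ => ⟨subset_rfl, Gr.Item.pp (Or.inr ⟨_, hreg q, rfl, fun v hv => by
      by_contra h
      exact hv (by rw [res_apply, if_neg h]), by rw [ev_res, ← pre_inr, hxi]⟩)⟩)
    (fun q _ => Set.disjoint_left.mpr fun e he h => (hW he).2 (by
      rw [pr, pr, if_pos h.1.1, if_pos h.2.1, show l (G.s e) = q from h.1.2,
        show l (G.t e) = q from h.2.2]))
  rw [← add_assoc, ch_add_self, zero_add] at hP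
  refine ⟨_, Set.union_subset (fun e he => (hW he).1) ?_, hP, fun x hx y hy => ?_⟩
  · refine Set.iUnion₂_subset fun q _ e he => ?_
    by_contra h
    exact he.1.1.2 (hSd ▸ ⟨e, ⟨⟨he.1.1.1, he.2.1.1⟩, h⟩, Or.inl rfl⟩)
  · refine Gr.Conn.lift (G' := G) (W := W) (P := fun v => v ∈ X)
      (fun e he => ⟨Gr.Conn.edge (Set.mem_union_left _ he) (G.joins_st e),
      (hF (hW he).1).1, (hF (hW he).1).2⟩) (fun p q _ _ h _ => ?_)
      ((hc _ ⟨x, hx, rfl⟩).symm.trans (hc _ ⟨y, hy, rfl⟩)) x y hx hy rfl rfl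
    rcases pr_eq h with rfl | ⟨h1, h2, h3⟩
    · exact Gr.Conn.refl _ _ _
    · refine ((hreg (l p)).2.conn hκ ⟨h1, rfl⟩ ⟨h2, h3.symm⟩).mono fun e he => Or.inr ?_
      exact Set.mem_biUnion (hl.mem_toFinset.mpr ⟨p, h1, rfl⟩) he

end Pool.Agent.MP_7f38c2_co.H28
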