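import Pool.Agent.MP_7f38c2_co.H28.Spec

/-! Extracting a connected patch along a path, and splitting a job at an edge. -/

namespace Pool.Agent.MP_7f38c2_co.H28

open Classical

universe u

namespace PATH

variable {V E : Type u} {G : Gr V E} {κ : ℕ}

lemma last_hit {I F : Set E} {u w : V} (h : G.Conn (I ∪ F) u w) :
    G.Conn F u w ∨ ∃ c, (∃ e ∈ I, G.Tch e c) ∧ G.Conn F c w := by
  induction h with
  | refl => exact Or.inl (Gr.Conn.refl _ _ _)
  | tail _ hbc ih =>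
    obtain ⟨e, he | he, h⟩ := hbc
    · exact Or.inr ⟨_, ⟨e, he, h.tch'⟩, Gr.Conn.refl _ _ _⟩
    · exact ih.imp (fun h' => h'.trans (Gr.Conn.edge he h))
        fun ⟨c, h1, h2⟩ => ⟨c, h1, h2.trans (Gr.Conn.edge he h)⟩

lemma item_split (hTC : StTC.{u}) (hG : G.Amb κ) (hκ : 30000000 ≤ κ) {ζ : Ch V} {I : Set E}
    (hI : G.Item κ ζ I) {u c : V} (hu : ∃ e ∈ I, G.Tch e u) (hc : ∃ e ∈ I, G.Tch e c) :
    ∃ F1 F2, F1 ⊆ I ∧ F2 ⊆ I ∧ Disjoint F1 F2 ∧ G.PP κ (pt u + pt c) F1 ∧ G.Root F1 u ∧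
      G.PP κ (ζ + (pt u + pt c)) F2 ∧ ∀ e ∈ I, G.Conn (F1 ∪ F2) (G.s e) (G.t e) := by
  by_cases huc : u = c
  · subst huc
    rw [ch_add_self, add_zero]
    exact ⟨∅, I, Set.empty_subset _, subset_rfl, Set.empty_disjoint _, Gr.PP.nil G κ,
      fun _ h => h.elim, hI.pp, fun e he => Gr.Conn.edge (Or.inr he) (G.joins_st e)⟩
  rcases id hI with ⟨e, rfl, rfl⟩ | ⟨D, hD, rfl, h1, h2⟩
  · obtain ⟨_, rfl, hu⟩ := hu
    obtain ⟨_, rfl, hc⟩ := hc
    obtain ⟨v, hv⟩ := hu.exists_joins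
    obtain rfl : c = v := (hc.eq_or hv).resolve_left (Ne.symm huc)
    rw [← hv.dd_eq, ch_add_self]
    refine ⟨_, ∅, subset_rfl, Set.empty_subset _, Set.disjoint_empty _, hI.pp, ?_,
      Gr.PP.nil G κ, fun e he => Gr.Conn.edge (Or.inl he) (G.joins_st e)⟩
    rintro _ rfl
    exact (hu.conn (Set.mem_singleton _)).symm
  · obtain ⟨e, he, hu⟩ := hu
    obtain ⟨e', he', hc⟩ := hc
    obtain ⟨F1, F2, h3, h4, h5, h6, h7, h8, h9⟩ := hTC V E G κ hG hκ D hD u (hu.mem he) c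
      (hc.mem he') (ζ + (pt u + pt c)) (fun v hv => by
        by_contra h
        refine hv ?_
        rw [Finsupp.add_apply, Finsupp.add_apply, pt_apply, pt_apply, not_not.mp (mt (h1 v) h),
          if_neg fun h' : u = v => h (h' ▸ hu.mem he), if_neg fun h' : c = v => h (h' ▸ hc.mem he')]
        rfl)
      (by
        rw [map_add, h2, map_add, ev_pt, ev_pt, if_pos (Set.mem_univ _), if_pos (Set.mem_univ _)]
        rfl)
    exact ⟨F1, F2, h3, h4, h5, h6, h7, h8, fun g hg => (h9 _ hg.1).symm.trans (h9 _ hg.2)⟩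

end PATH

open PATH in
theorem rowPath (hTC : StTC.{u}) : StPath.{u} := by
  intro V E G κ hG hκ z F u w ⟨n, h⟩ huw
  induction n generalizing z F u with
  | zero =>
    cases h
    obtain rfl : w = u := huw.eq_or_tch.resolve_right fun ⟨_, h, _⟩ => h
    rw [ch_add_self, add_zero]
    exact ⟨∅, ∅, subset_rfl, subset_rfl, Set.empty_disjoint _, Gr.PP.nil G κ, fun _ h => h.elim,
      Gr.PP.nil G κ, fun _ h => h.elim⟩
  | succ n ih =>
    rcases huw.symm.eq_or_tch with rfl | ⟨e, he, hu⟩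
    · rw [ch_add_self, add_zero]
      exact ⟨∅, F, Set.empty_subset _, subset_rfl, Set.empty_disjoint _, Gr.PP.nil G κ,
        fun _ h => h.elim, ⟨_, h⟩, fun e he => Gr.Conn.edge (Or.inr he) (G.joins_st e)⟩
    obtain ⟨m, ζ, z', I, F', hm, hI, heI, h1, hd, rfl, rfl⟩ := h.pick he
    obtain rfl : n = m := by omega
    obtain ⟨c, hc, hcw⟩ : ∃ c, (∃ e ∈ I, G.Tch e c) ∧ G.Conn F' c w :=
      (last_hit huw).elim (fun h => ⟨u, ⟨e, heI, hu⟩, h⟩) id
    obtain ⟨A1, A2, a1, a2, a3, a4, a5, a6, a7⟩ := item_split hTC hG hκ hI ⟨e, heI, hu⟩ hc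
    obtain ⟨B1, B2, b1, b2, b3, b4, b5, b6, b7⟩ := ih z' F' c h1 hcw
    refine ⟨A1 ∪ B1, A2 ∪ B2, Set.union_subset_union a1 b1, Set.union_subset_union a2 b2,
      ?_, ?_, ?_, ?_, ?_⟩
    · simp only [Set.disjoint_union_left, Set.disjoint_union_right]
      exact ⟨⟨a3, (hd.mono a2 b1).symm⟩, hd.mono a1 b2, b3⟩
    · have := a4.union b4 (hd.mono a1 b1)
      rwa [add_assoc, ← add_assoc (pt c), ch_add_self, zero_add] at this
    · rintro g (hg | hg)
      · exact (a5 g hg).mono Set.subset_union_left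
      · exact ((a4.conn (by omega)).mono Set.subset_union_left).trans
          ((b5 g hg).mono Set.subset_union_right)
    · have := a6.union b6 (hd.mono a2 b2)
      rwa [add_add_add_comm, add_assoc (pt u), ← add_assoc (pt c), ch_add_self, zero_add] at this
    · rintro g (hg | hg)
      · exact (a7 g hg).mono (Set.union_subset_union Set.subset_union_left Set.subset_union_left)
      · exact (b7 g hg).mono (Set.union_subset_union Set.subset_union_right Set.subset_union_right)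

namespace PATH

variable {V E : Type u} {G : Gr V E} {κ : ℕ}

lemma split (hP : StPath.{u}) (hG : G.Amb κ) (hκ : 30000000 ≤ κ) {u v p q : V} {F F0 : Set E}
    {e : E} (he : e ∈ F) (h0 : F0 ⊆ F) (he0 : e ∉ F0)
    (h1 : G.PP κ (pt q + pt v + (pt u + pt p)) F0) (h2 : G.Conn F0 u p)
    (h3 : ∀ g ∈ F, ∃ y, G.Tch g y ∧ (G.Conn F0 u y ∨ G.Conn F0 q y)) :
    ∃ F1 F2, G.Job κ u p F1 ∧ G.Job κ q v F2 ∧ Disjoint F1 F2 ∧ e ∉ F1 ∧ e ∉ F2 ∧
      F = F1 ∪ {e} ∪ F2 := by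
  obtain ⟨A, B, a1, a2, a3, a4, a5, a6, a7⟩ := hP V E G κ hG hκ _ F0 u p h1 h2
  rw [add_assoc, ch_add_self, add_zero] at a6
  have hκ0 : 0 < κ := by omega
  set C := {x | G.Conn B q x} with hC
  have hq : q ∈ C := Gr.Conn.refl _ _ _
  have hv : v ∈ C := a6.conn hκ0
  have hcl : ∀ g ∈ B, g ∉ G.cut C := fun g hg => Gr.not_mem_cut_conn hg
  have b1 := (a6.res hκ0 hcl).1
  have b2 := (a6.res hκ0 (U := Cᶜ) (by rwa [Gr.cut_compl])).1
  rw [map_add, res_pt, res_pt, if_pos hq, if_pos hv] at b1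
  rw [map_add, res_pt, res_pt, if_neg (Set.notMem_compl_iff.mpr hq),
    if_neg (Set.notMem_compl_iff.mpr hv), add_zero] at b2
  set F2 := {g | g ∈ F ∧ g ≠ e ∧ g ∉ A ∧ ∃ y ∈ C, G.Tch g y} with hF2
  have key : ∀ x y, G.Conn (A ∪ B) x y → (x ∈ C ∨ G.Conn (A ∪ B ∩ G.In Cᶜ) u x) →
      (y ∈ C ∨ G.Conn (A ∪ B ∩ G.In Cᶜ) u y) := by
    intro x y h hx
    induction h with
    | refl => exact hx
    | @tail b c _ hbc ih =>
      obtain ⟨g, hg | hg, h⟩ := hbc
      · exact Or.inr ((a5.tch hg h.tch').mono Set.subset_union_left)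
      · have h4 := not_not.mp fun h' => hcl g hg (h.mem_cut.mpr h')
        by_cases hc : c ∈ C
        · exact Or.inl hc
        · have hb := mt h4.mp hc
          exact Or.inr ((ih.resolve_left hb).trans
            (Gr.Conn.edge (Or.inr ⟨hg, h.mem_In.mpr ⟨hb, hc⟩⟩) h))
  refine ⟨F \ ({e} ∪ F2), F2, ⟨A ∪ B ∩ G.In Cᶜ, ?_, ?_, ?_⟩, ⟨B ∩ G.In C, ?_, b1, ?_⟩,
    Set.disjoint_left.mpr fun g hg hg' => hg.2 (Or.inr hg'), fun h => h.2 (Or.inl rfl),
    fun h => h.2.1 rfl, ?_⟩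
  · rintro g (hg | hg)
    · refine ⟨h0 (a1 hg), ?_⟩
      rintro (rfl | h)
      · exact he0 (a1 hg)
      · exact h.2.2.1 hg
    · refine ⟨h0 (a2 hg.1), ?_⟩
      rintro (rfl | ⟨-, -, -, y, hy, h⟩)
      · exact he0 (a2 hg.1)
      · exact h.mem hg.2 hy
  · simpa using a4.union b2 (a3.mono_right Set.inter_subset_left)
  · intro g hg
    by_cases hA : g ∈ A
    · exact ⟨_, Or.inl rfl, (a5 g hA).mono Set.subset_union_left⟩
    obtain ⟨y, h4, h5⟩ := h3 g hg.1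
    refine ⟨y, h4, Or.resolve_left ?_ fun hy =>
      hg.2 (Or.inr ⟨hg.1, fun h => hg.2 (Or.inl h), hA, y, hy, h4⟩)⟩
    rcases h5 with h5 | h5
    · exact key u y (h5.of_edges a7) (Or.inr (Gr.Conn.refl _ _ _))
    · exact key q y (h5.of_edges a7) (Or.inl hq)
  · exact fun g hg => ⟨h0 (a2 hg.1), fun h => he0 (h ▸ a2 hg.1),
      fun h => Set.disjoint_left.mp a3 h hg.1, _, hg.2.1, Or.inl rfl⟩
  · rintro g ⟨-, -, -, y, hy, h⟩
    exact ⟨y, h, Gr.Conn.restrict hy⟩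
  · rw [Set.union_assoc, Set.sdiff_union_of_subset]
    exact Set.union_subset (Set.singleton_subset_iff.mpr he) fun g hg => hg.1

end PATH

open PATH in
theorem rowStep (hOne : StOne.{u}) (hP : StPath.{u}) : StStep.{u} := by
  intro V E G κ hG hκ u v F hJ e he
  have pend : ∀ F0, F0 ⊆ F → e ∉ F0 → G.PP κ (pt u + pt v) F0 →
      (∀ g ∈ F, ∃ x, G.Tch g x ∧ G.Conn F0 u x) → ∃ p q F1 F2, G.Tch e p ∧ G.Tch e q ∧
      G.Job κ u p F1 ∧ G.Job κ q v F2 ∧ Disjoint F1 F2 ∧ e ∉ F1 ∧ e ∉ F2 ∧ F = F1 ∪ {e} ∪ F2 := by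
    intro F0 h0 he0 h1 h2
    obtain ⟨x, h3, h4⟩ := h2 e he
    obtain ⟨F1, F2, h⟩ := split (q := x) (v := v) hP hG hκ he h0 he0
      (by rwa [add_comm (pt u), add_add_add_comm, ch_add_self, zero_add, add_comm]) h4
      fun g hg => (h2 g hg).imp fun y hy => ⟨hy.1, Or.inl hy.2⟩
    exact ⟨x, x, F1, F2, h3, h3, h⟩
  obtain ⟨F0, h0, ⟨n, h1⟩, h2⟩ := hJ
  by_cases he0 : e ∈ F0
  swap
  · exact pend F0 h0 he0 ⟨n, h1⟩ h2
  obtain ⟨m, ζ, z', I, F', -, hI, heI, h3, hd, hz, rfl⟩ := h1.pick he0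
  rcases hI with ⟨e', rfl, rfl⟩ | ⟨D, hD, rfl, h4, h5⟩
  · obtain rfl : e = e' := heI
    have h6 : ∀ y, G.Conn ({e} ∪ F') u y → G.Conn F' u y ∨ ∃ c, G.Tch e c ∧ G.Conn F' c y :=
      fun y h => (last_hit h).imp_right fun ⟨c, ⟨_, h1, h2⟩, h3⟩ => ⟨c, h1 ▸ h2, h3⟩
    obtain ⟨p, hp, hup⟩ : ∃ p, G.Tch e p ∧ G.Conn F' u p := by
      obtain ⟨x, h7, h8⟩ := h2 e he
      rcases last_hit h8.symm with h | ⟨c, ⟨_, rfl, h9⟩, h⟩
      · exact ⟨x, h7, h.symm⟩
      · exact ⟨c, h9, h.symm⟩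
    obtain ⟨q, hq⟩ := hp.exists_joins
    obtain ⟨F1, F2, h⟩ := split (q := q) (v := v) hP hG hκ he (Set.subset_union_right.trans h0)
      (fun h => Set.disjoint_left.mp hd rfl h) (by
        have : z' = pt q + pt v + (pt u + pt p) := by
          rw [hq.dd_eq] at hz
          rw [← zero_add z', ← ch_add_self (pt p + pt q), add_assoc, ← hz]
          abel
        exact ⟨m, this ▸ h3⟩) hup fun g hg => by
        obtain ⟨y, h7, h8⟩ := h2 g hg
        refine ⟨y, h7, ?_⟩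
        rcases h6 y h8 with h | ⟨c, h9, h⟩
        · exact Or.inl h
        · rcases h9.eq_or hq with rfl | rfl
          · exact Or.inl (hup.trans h)
          · exact Or.inr h
    exact ⟨p, q, F1, F2, hp, hq.tch', h⟩
  · obtain ⟨A, a1, a2, a3⟩ := hOne V E G κ hG (by omega) D (G.In D \ {e})
      ⟨hD.1, Set.sdiff_subset, (Set.finite_singleton e).subset fun g hg => by
        by_contra h
        exact hg.2 ⟨hg.1, h⟩, fun U hU => by
        have h6 := hD.2 U hU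
        have h7 : (G.In D ∩ G.cut U).encard ≤ (G.In D \ {e} ∩ G.cut U).encard + 1 := by
          refine le_trans (Set.encard_le_encard fun g hg => ?_) (Set.encard_insert_le _ e)
          by_cases h : g = e
          · exact Or.inl h
          · exact Or.inr ⟨⟨hg.1, h⟩, hg.2⟩
        have h8 : ((144 : ℕ) : ℕ∞) + 1 ≤ κ := by exact_mod_cast (by omega : 144 + 1 ≤ κ)
        exact (ENat.add_le_add_iff_right ENat.one_ne_top).mp (h8.trans (h6.trans h7))⟩ ζ h4 h5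
    refine pend (A ∪ F') (Set.union_subset (fun g hg => h0 (Or.inl (a1 hg).1))
      (Set.subset_union_right.trans h0)) ?_
      (hz ▸ a2.union ⟨m, h3⟩ (hd.mono_left fun g hg => (a1 hg).1)) fun g hg => ?_
    · rintro (h | h)
      · exact (a1 h).2 rfl
      · exact Set.disjoint_left.mp hd heI h
    · refine (h2 g hg).imp fun y hy => ⟨hy.1, hy.2.of_edges ?_⟩
      rintro f (hf | hf)
      · exact (a3 _ hf.1 _ hf.2).mono Set.subset_union_left
      · exact Gr.Conn.edge (Or.inr hf) (G.joins_st f)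

end Pool.Agent.MP_7f38c2_co.H28
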