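import Pool.Agent.MP_7f38c2_co.H28.Spec

/-! Regular regions, finite connectivity certificates and the initial state. -/

namespace Pool.Agent.MP_7f38c2_co.H28

open Classical Set

universe u

namespace REG

variable {V E : Type u} {G : Gr V E} {κ : ℕ}

lemma lt (hG : G.Amb κ) {A U : Set V} (hA : (G.cut A).Finite) (hU : Spl A U)
    (hc : (G.In A ∩ G.cut U).encard < κ) :
    (G.cut (A ∩ U)).Finite ∧ (G.cut (A ∩ U)).ncard < (G.cut A).ncard := by
  have hf : (G.In A ∩ G.cut U).Finite := finite_of_encard_le_coe hc.le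
  have h1 : G.cut (A ∩ U) ⊆ G.cut A ∩ G.cut (A ∩ U) ∪ G.In A ∩ G.cut U := fun e he => by
    simp only [Gr.cut, Gr.In, mem_ofPred_eq, mem_inter_iff, mem_union] at he ⊢
    tauto
  have h2 : G.cut (A \ U) ⊆ G.cut A \ G.cut (A ∩ U) ∪ G.In A ∩ G.cut U := fun e he => by
    simp only [Gr.cut, Gr.In, mem_ofPred_eq, mem_inter_iff, mem_union, mem_sdiff] at he ⊢
    tauto
  have f1 := (hA.inter_of_left (G.cut (A ∩ U))).union hf
  have f2 := (hA.sdiff (t := G.cut (A ∩ U))).union hf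
  obtain ⟨⟨x, hx⟩, y, hy⟩ := hU
  have h3 := hG.2.1 (A \ U) (spl_of_mem trivial trivial hy fun h => h.2 hx.2)
  rw [univ_inter, ← (f2.subset h2).cast_ncard_eq, Nat.cast_le] at h3
  rw [← hf.cast_ncard_eq, Nat.cast_lt] at hc
  have h4 := (ncard_le_ncard h1 f1).trans (ncard_union_le _ _)
  have h5 := (ncard_le_ncard h2 f2).trans (ncard_union_le _ _)
  have h6 := ncard_inter_add_ncard_sdiff_eq_ncard (G.cut A) (G.cut (A ∩ U)) hA
  exact ⟨f1.subset h1, by omega⟩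

lemma ec_sub {j : ℕ} {X : Set V} (h : X.Subsingleton) (F : Set E) : G.EC j X F :=
  fun _ ⟨⟨_, hx⟩, _, hy⟩ => (hy.2 (h hx.1 hy.1 ▸ hx.2)).elim

end REG

open REG in
theorem rowS : StS.{u} := by
  intro V E G κ hG A hA
  induction hn : (G.cut A).ncard using Nat.strong_induction_on generalizing A with
  | h n ih =>
  by_cases h : G.EC κ A (G.In A)
  · refine ⟨fun _ => 0, (finite_singleton 0).subset (by simp), fun q => ?_⟩
    rcases eq_or_ne q 0 with rfl | hq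
    · rw [show A ∩ (fun _ => 0) ⁻¹' {0} = A by ext; simp]
      exact ⟨hA, h⟩
    · rw [show A ∩ (fun _ => 0) ⁻¹' {q} = ∅ by ext; simp [hq.symm]]
      exact ⟨hG.1.cut finite_empty, ec_sub subsingleton_empty _⟩
  simp only [Gr.EC, not_forall, not_le] at h
  obtain ⟨U, hU, hc⟩ := h
  obtain ⟨f1, k1⟩ := lt hG hA hU hc
  obtain ⟨f2, k2⟩ := lt hG hA hU.compl (by rwa [Gr.cut_compl])
  obtain ⟨l1, a1, b1⟩ := ih _ (hn ▸ k1) _ f1 rfl
  obtain ⟨l2, a2, b2⟩ := ih _ (hn ▸ k2) _ f2 rfl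
  refine ⟨fun v => if v ∈ U then 2 * l1 v else 2 * l2 v + 1,
    ((a1.image fun k => 2 * k).union (a2.image fun k => 2 * k + 1)).subset ?_, fun q => ?_⟩
  · rintro _ ⟨v, hv, rfl⟩
    by_cases hu : v ∈ U
    · exact .inl ⟨_, ⟨v, ⟨hv, hu⟩, rfl⟩, (if_pos hu).symm⟩
    · exact .inr ⟨_, ⟨v, ⟨hv, hu⟩, rfl⟩, (if_neg hu).symm⟩
  · obtain ⟨k, rfl | rfl⟩ := q.even_or_odd'
    · refine (congrArg _ (Set.ext fun v => ?_)).mp (b1 k)
      by_cases hu : v ∈ U <;> simp [hu]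
      omega
    · refine (congrArg _ (Set.ext fun v => ?_)).mp (b2 k)
      by_cases hu : v ∈ U <;> simp [hu]
      omega

theorem rowFin : StFin.{u} := by
  intro V E G j S F hS h
  by_contra! hc
  have k : ∀ T : Finset E, ∃ U, Spl S U ∧ (F ∩ T ∩ G.cut U).encard < j := fun T => by
    simpa only [Gr.EC, not_forall, not_le, exists_prop] using
      hc (F ∩ T) inter_subset_left (T.finite_toSet.inter_of_right F)
  choose U h1 h2 using k
  obtain ⟨o, ho⟩ := H10.exists_limit (Filter.atTop : Filter (Finset E)) fun T v => v ∈ U T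
  obtain ⟨T₀, -, h3⟩ := ho S hS (fun _ => True) (by simp)
  obtain ⟨⟨x, hx⟩, y, hy⟩ := h1 T₀
  obtain ⟨B, b1, b2⟩ := exists_subset_encard_eq (h {v | o v}
    (spl_of_mem hx.1 hy.1 ((h3 x hx.1).mp hx.2) fun k => hy.2 ((h3 y hy.1).mpr k)))
  have b3 : B.Finite := finite_of_encard_eq_coe b2
  obtain ⟨T, h4, h5⟩ := ho _ (G.ends_finite b3) _ (Filter.eventually_ge_atTop b3.toFinset)
  refine (h2 T).not_ge (b2 ▸ encard_le_encard fun e he =>
    ⟨⟨(b1 he).1, h4 (b3.mem_toFinset.2 he)⟩, fun k => (b1 he).2 ?_⟩)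
  rwa [h5 _ ⟨e, he, .inl rfl⟩, h5 _ ⟨e, he, .inr rfl⟩] at k

open REG in
theorem rowInit : StS.{u} → StInit.{u} := by
  intro hS V E G κ j hG hj X F hX hF hc ι _ a b Cap r h0 ha hr hd
  have hB := G.ends_finite ((finite_iUnion fun i => (r i).es_finite).union hc)
  set S := {v | ∃ e ∈ (⋃ i, (r i).es) ∪ G.In X \ F, G.Tch e v}
  obtain ⟨l, l1, l2⟩ := hS V E G κ hG (X \ S)
    ((hX.union (hG.1.cut hB)).subset (G.cut_diff_subset _ _))
  have e1 : ∀ v, X ∩ (fun v => if v ∈ S then Sum.inl v else Sum.inr (l v)) ⁻¹' {.inl v} ⊆ {v} :=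
    fun v x hx => by
      by_cases h : x ∈ S <;> simp_all
  have e2 : ∀ q, X ∩ (fun v => if v ∈ S then Sum.inl v else Sum.inr (l v)) ⁻¹' {.inr q} =
      X \ S ∩ l ⁻¹' {q} := fun q => Set.ext fun x => by
    by_cases h : x ∈ S <;> simp [h]
  have e3 : ∀ i, ∀ k ≤ (r i).n, (r i).w k ∈ X := by
    rintro i (_ | k) hk
    · exact (r i).h0.symm ▸ ha i
    · exact ((r i).hj k hk).tch'.mem (hF ((hr i).2 ⟨k, hk, rfl⟩))
  refine ⟨⟨fun v => if v ∈ S then .inl v else .inr (l v), r, hF, hc,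
    ((hB.image Sum.inl).union (l1.image Sum.inr)).subset ?_, ?_, fun i => (hr i).2, hd,
    fun i k hk => ⟨e3 i k hk, (hr i).1 k ▸ e3 i k hk, by rw [(hr i).1 k]⟩, ?_, fun q => ?_⟩⟩
  · rintro _ ⟨v, hv, rfl⟩
    by_cases hu : v ∈ S
    · exact .inl ⟨v, hu, (if_pos hu).symm⟩
    · exact .inr ⟨_, ⟨v, ⟨hv, hu⟩, rfl⟩, (if_neg hu).symm⟩
  · rintro (v | q)
    · exact hG.1.cut ((finite_singleton v).subset (e1 v))
    · rw [e2]
      exact (l2 q).1
  · rintro (v | q)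
    · exact ec_sub (subsingleton_singleton.anti (e1 v)) _
    · rw [e2]
      refine (l2 q).2.mono hj subset_rfl fun e he => ⟨⟨by_contra fun h => ?_, fun h => ?_⟩, he⟩
      · exact he.1.1.2 ⟨e, .inr ⟨⟨he.1.1.1, he.2.1.1⟩, h⟩, .inl rfl⟩
      · exact he.1.1.2 ⟨e, .inl h, .inl rfl⟩
  · refine (congrArg Cap (eq_empty_of_forall_notMem ?_)).mpr h0
    exact fun i ⟨k, _, _, h⟩ => h ((hr i).1 k)

end Pool.Agent.MP_7f38c2_co.H28
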