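import Pool.Agent.MP_7f38c2_co.H28.Spec

/-! The induction step across a non-trivial tight cut. -/

namespace Pool.Agent.MP_7f38c2_co.H28

open Classical

universe u

namespace TIGHT

variable {V E : Type u} {G : Gr V E} {Y : Set V} {y : V}

/-- contraction of `Y` to the point `y` -/
noncomputable def ct (Y : Set V) (y v : V) : V := if v ∈ Y then y else v

lemma ct_in {v : V} (h : v ∈ Y) : ct Y y v = y := if_pos h

lemma ct_out {v : V} (h : v ∉ Y) : ct Y y v = v := if_neg h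

lemma pre_in (hy : y ∈ Y) : ct Y y ⁻¹' {y} = Y := by
  ext v
  by_cases h : v ∈ Y
  · simp [ct_in h, h]
  · simpa [ct_out h, h] using fun e : v = y => h (e ▸ hy)

lemma pre_out (hy : y ∈ Y) {x : V} (hx : x ∉ Y) : ct Y y ⁻¹' {x} = {x} := by
  ext v
  by_cases h : v ∈ Y
  · simp only [Set.mem_preimage, ct_in h, Set.mem_singleton_iff]
    exact iff_of_false (fun e => hx (e ▸ hy)) fun e => hx (e ▸ h)
  · simp [ct_out h]

lemma mem_im (hy : y ∈ Y) {x : V} (hx : x ∉ Y) {S : Set V} : x ∈ ct Y y '' S ↔ x ∈ S := by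
  refine ⟨?_, fun h => ⟨x, h, ct_out hx⟩⟩
  rintro ⟨v, hv, e⟩
  have : v ∈ ct Y y ⁻¹' {x} := e
  rw [pre_out hy hx] at this
  exact this ▸ hv

lemma dg_ct (M : Set E) (U : Set V) :
    (G.map (ct Y y)).dg (M \ G.In Y) U = G.dg M (ct Y y ⁻¹' U) := by
  unfold Gr.dg
  rw [Gr.cut_map]
  congr 1
  ext e
  refine ⟨fun h => ⟨h.1.1, h.2⟩, fun h => ⟨⟨h.1, fun h' => h.2 ?_⟩, h.2⟩⟩
  simp only [Set.mem_preimage, ct_in h'.1, ct_in h'.2]

lemma dg_compl (M : Set E) (U : Set V) : G.dg M Uᶜ = G.dg M U := by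
  unfold Gr.dg
  rw [Gr.cut_compl]

lemma cls_diff {r : ℕ} (N A : Set E) (c : E → Option (Fin r)) (o : Option (Fin r)) :
    cls (N \ A) c o = cls N c o \ A := by
  ext e
  simp only [cls, Set.mem_ofPred_eq, Set.mem_sdiff]
  tauto

lemma cls_congr {r : ℕ} {N : Set E} {c c' : E → Option (Fin r)} (h : ∀ e ∈ N, c e = c' e)
    (o : Option (Fin r)) : cls N c o = cls N c' o := by
  ext e
  exact and_congr_right fun he => by rw [h e he]

lemma spl_pre {S U : Set V} (π : V → V) (h : Spl (π '' S) U) : Spl S (π ⁻¹' U) := by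
  obtain ⟨⟨_, ⟨a, ha, rfl⟩, h1⟩, _, ⟨b, hb, rfl⟩, h2⟩ := h
  exact spl_of_mem ha hb h1 h2

lemma tch_ct {e : E} {x : V} (h : G.Tch e x) (hx : x ∉ Y) : (G.map (ct Y y)).Tch e x :=
  h.imp (fun h => (congrArg (ct Y y) h).trans (ct_out hx))
    fun h => (congrArg (ct Y y) h).trans (ct_out hx)

lemma card_lt {N A : Set E} (hN : N.Finite) (h : N ∩ A ≠ ∅) : (N \ A).ncard < N.ncard := by
  obtain ⟨e, he⟩ := Set.nonempty_iff_ne_empty.2 h
  exact Set.ncard_lt_ncard ⟨Set.sdiff_subset, fun h' => (h' he.1).2 he.2⟩ hN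

lemma core {r : ℕ} {N : Set E} {S : Set V} {z : V} {c0 : E → Option (Fin r)}
    (h : CH G r N S z c0) (ih : IH V E r N.ncard) {X : Set V} (hX : Spl S X)
    (hd : G.dg N X = 72 * r) (h1 : N ∩ G.In X ≠ ∅) (h2 : N ∩ G.In Xᶜ ≠ ∅) (hz : z ∉ X) :
    ∃ c, CC G r N S z c0 c := by
  obtain ⟨x, hxS, hx⟩ := hX.1
  have hxz : x ≠ z := fun e => hz (e ▸ hx)
  have hz' : z ∈ Xᶜ := hz
  have hx' : x ∉ Xᶜ := fun h => h hx
  obtain ⟨c1, k1⟩ := ih (G.map (ct X x)) (N \ G.In X) (ct X x '' S) z c0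
    ⟨h.fin.subset Set.sdiff_subset, h.pos, fun U hU => by
      rw [dg_ct]; exact h.ec _ (spl_pre _ hU), (mem_im hx hz).2 h.zS,
      ⟨x, ⟨x, hxS, ct_in hx⟩, hxz⟩, by rw [dg_ct, pre_out hx hz, h.dz],
      by rw [cls_diff, dg_ct, pre_out hx hz]; exact h.unc⟩ (card_lt h.fin h1)
  obtain ⟨c2, k2⟩ := ih (G.map (ct Xᶜ z)) (N \ G.In Xᶜ) (ct Xᶜ z '' S) z c1
    ⟨h.fin.subset Set.sdiff_subset, h.pos, fun U hU => by
      rw [dg_ct]; exact h.ec _ (spl_pre _ hU), ⟨z, h.zS, ct_in hz'⟩,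
      ⟨x, (mem_im hz' hx').2 hxS, hxz⟩, by rw [dg_ct, pre_in hz', dg_compl, hd], by
      have := k1.unc x ⟨x, hxS, ct_in hx⟩ hxz
      rw [cls_diff, dg_ct, pre_in hx] at this
      rwa [cls_diff, dg_ct, pre_in hz', dg_compl]⟩ (card_lt h.fin h2)
  let c : E → Option (Fin r) := fun e => if e ∈ G.In X then c2 e else c1 e
  have e1 : ∀ o, cls (N \ G.In X) c1 o = cls N c o \ G.In X := fun o => by
    rw [← cls_diff]
    exact cls_congr (fun e he => (if_neg he.2).symm) o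
  have e2 : ∀ o, cls (N \ G.In Xᶜ) c2 o = cls N c o \ G.In Xᶜ := fun o => by
    rw [← cls_diff]
    refine cls_congr (fun e he => ?_) o
    by_cases h3 : e ∈ G.In X
    · exact (if_pos h3).symm
    · refine (k2.ext e ⟨he, ?_⟩).trans (if_neg h3).symm
      rw [Gr.cut_map, pre_in hz', Gr.cut_compl]
      intro h4
      by_cases h5 : G.s e ∈ X
      · exact h3 ⟨h5, h4.1 h5⟩
      · exact he.2 ⟨h5, fun h6 => h5 (h4.2 h6)⟩
  have d1 : ∀ o v, v ∉ X →
      G.dg (cls N c o) {v} = (G.map (ct X x)).dg (cls (N \ G.In X) c1 o) {v} := fun o v hv => by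
    rw [e1, dg_ct, pre_out hx hv]
  have d2 : ∀ o v, v ∉ Xᶜ →
      G.dg (cls N c o) {v} = (G.map (ct Xᶜ z)).dg (cls (N \ G.In Xᶜ) c2 o) {v} := fun o v hv => by
    rw [e2, dg_ct, pre_out hz' hv]
  have hA : ∀ i, ∀ v ∈ X, (v ∈ S ∨ ∃ e ∈ cls N c (some i), G.Tch e v) →
      G.Conn (cls N c (some i) ∩ G.In {z}ᶜ) x v := by
    intro i v hv hr
    have hv' : v ∉ Xᶜ := fun h => h hv
    refine Gr.Conn.transfer (fun e he => ?_) (k2.con i x ((mem_im hz' hx').2 hxS) hxz v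
      (fun e => hz (e ▸ hv)) (hr.imp (mem_im hz' hv').2 ?_))
    · obtain ⟨h3, h4⟩ := he
      rw [Gr.In_map, Set.preimage_compl, pre_in hz'] at h4
      rw [e2] at h3
      change G.Conn _ (ct Xᶜ z (G.s e)) (ct Xᶜ z (G.t e))
      rw [ct_out h4.1, ct_out h4.2]
      exact Gr.Conn.edge ⟨h3.1, Gr.In_mono (Set.compl_subset_compl.2
        (Set.singleton_subset_iff.2 hz')) h4⟩ (G.joins_st e)
    · rintro ⟨e, he, h3⟩
      exact ⟨e, e2 _ ▸ ⟨he, fun h4 => hv' (h3.mem h4)⟩, tch_ct h3 hv'⟩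
  have hB : ∀ i v, v ≠ z → (v ∈ S ∨ ∃ e ∈ cls N c (some i), G.Tch e v) →
      G.Conn (cls N c (some i) ∩ G.In {z}ᶜ) x v := by
    intro i v hvz hr
    by_cases hv : v ∈ X
    · exact hA i v hv hr
    refine Gr.Conn.transfer (fun e he => ?_) (k1.con i x ⟨x, hxS, ct_in hx⟩ hxz v hvz
      (hr.imp (mem_im hx hv).2 ?_))
    · obtain ⟨h3, h4⟩ := he
      rw [Gr.In_map, Set.preimage_compl, pre_out hx hz] at h4
      rw [e1] at h3
      have h5 : ∀ w, G.Tch e w → G.Conn (cls N c (some i) ∩ G.In {z}ᶜ) (ct X x w) w := by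
        intro w hw
        by_cases h6 : w ∈ X
        · rw [ct_in h6]
          exact hA i w h6 (Or.inr ⟨e, h3.1, hw⟩)
        · rw [ct_out h6]
          exact Gr.Conn.refl _ _ _
      exact ((h5 _ (Or.inl rfl)).trans (Gr.Conn.edge ⟨h3.1, h4⟩ (G.joins_st e))).trans
        (h5 _ (Or.inr rfl)).symm
    · rintro ⟨e, he, h3⟩
      exact ⟨e, e1 _ ▸ ⟨he, fun h4 => hv (h3.mem h4)⟩, tch_ct h3 hv⟩
  refine ⟨c, fun e he => ?_, fun i v hv => ?_,
    fun i s hs hsz v hvz hr => (hB i s hsz (Or.inl hs)).symm.trans (hB i v hvz hr),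
    fun s hs hsz => ?_⟩
  · have h3 : e ∉ G.In X := fun h3 => he.2 (iff_of_false (fun e' => hz (Eq.symm e' ▸ h3.1))
      fun e' => hz (Eq.symm e' ▸ h3.2))
    refine (if_neg h3).trans (k1.ext e ⟨⟨he.1, h3⟩, ?_⟩)
    rw [Gr.cut_map, pre_out hx hz]
    exact he.2
  · by_cases h3 : v ∈ X
    · have h4 : v ∉ Xᶜ := fun h => h h3
      rw [d2 _ v h4]
      exact k2.par i v fun h5 => hv ((mem_im hz' h4).1 h5)
    · rw [d1 _ v h3]
      exact k1.par i v fun h5 => hv ((mem_im hx h3).1 h5)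
  · by_cases h3 : s ∈ X
    · have h4 : s ∉ Xᶜ := fun h => h h3
      rw [d2 _ s h4]
      exact k2.unc s ((mem_im hz' h4).2 hs) hsz
    · rw [d1 _ s h3]
      exact k1.unc s ((mem_im hx h3).2 hs) hsz

end TIGHT

theorem rowTight : StTight.{u} := by
  intro V E G r N S z c0 h ih hT
  simp only [TT, not_forall, not_or] at hT
  obtain ⟨X, h1, h2, h3, h4⟩ := hT
  by_cases hz : z ∈ X
  · exact TIGHT.core h ih h1.compl (by rw [TIGHT.dg_compl, h2]) h4 (by rwa [compl_compl])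
      fun h => h hz
  · exact TIGHT.core h ih h1 h2 h3 h4 hz

end Pool.Agent.MP_7f38c2_co.H28
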