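import Pool.Agent.MP_7f38c2_co.H28.Asm
import Pool.Agent.MP_7f38c2_co.H28.HYP
import Pool.Agent.MP_7f38c2_co.H28.MADER
import Pool.Agent.MP_7f38c2_co.H28.LIFT
import Pool.Agent.MP_7f38c2_co.H28.TIGHT
import Pool.Agent.MP_7f38c2_co.H28.BASE
import Pool.Agent.MP_7f38c2_co.H28.CT
import Pool.Agent.MP_7f38c2_co.H28.FAM
import Pool.Agent.MP_7f38c2_co.H28.REG
import Pool.Agent.MP_7f38c2_co.H28.ONE
import Pool.Agent.MP_7f38c2_co.H28.MIN
import Pool.Agent.MP_7f38c2_co.H28.CNT
import Pool.Agent.MP_7f38c2_co.H28.MR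
import Pool.Agent.MP_7f38c2_co.H28.ANCH
import Pool.Agent.MP_7f38c2_co.H28.BUILD
import Pool.Agent.MP_7f38c2_co.H28.PATH
import Pool.Agent.MP_7f38c2_co.H28.LIMIT

/-! Hamilton circles in line graphs of highly edge-connected graphs with arbitrary ends. -/

namespace Pool.Agent.MP_7f38c2_co.H28

universe u

theorem ct : StCT.{u} := rowCT rowMader rowLift rowTight (rowBase rowHyp)

theorem one : StOne.{u} := rowOne rowS (rowCT2 ct)

theorem tc : StTC.{u} :=
  rowTC rowFin (rowFam ct) (rowInit rowS) rowMin rowCnt rowAnch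
    (rowBuild (rowCT2 ct) one (rowMR rowFin (rowLink ct) (rowInit rowS) rowMin rowCnt one))

theorem main_any {V : Type u} (G : SimpleGraph V) [G.LocallyFinite] [Infinite V]
    (hk : G.IsEdgeConnected (10 ^ 8)) : H94.HasHamiltonCircle G.lineGraph :=
  main_of one (rowStep one (rowPath tc)) rowLimit G hk

end Pool.Agent.MP_7f38c2_co.H28
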