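import Pool.Agent.MP_7f38c2_co.H28.Spec

/-! Boundedly many pairs in a cell. -/

namespace Pool.Agent.MP_7f38c2_co.H28

open Classical

universe u

namespace MR

variable {V E L : Type u} {G : Gr V E} {Y : Set V} {F : Set E} {ι : Type} {a b : ι → V}

lemma vis_of_J {j : ℕ} {Cap : Set ι → Prop} (σ : St G Y F j a b Cap L) {q : L} {i : ι}
    (h : i ∈ σ.J q) : σ.Vis i q := by
  obtain ⟨k, hk, h1, -⟩ := h
  exact ⟨k, hk, h1⟩

lemma exists_own [Nonempty ι] {j : ℕ} (σ : St G Y F j a b Set.Subsingleton L) (q : L) :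
    ∃ i, σ.J q ⊆ {i} ∧ ((∃ i', σ.Vis i' q) → σ.Vis i q) := by
  by_cases h : (σ.J q).Nonempty
  · obtain ⟨i, hi⟩ := h
    exact ⟨i, fun i' hi' => σ.cap q hi' hi, fun _ => vis_of_J σ hi⟩
  · by_cases h' : ∃ i', σ.Vis i' q
    · obtain ⟨i, hi⟩ := h'
      exact ⟨i, fun i' hi' => absurd ⟨i', hi'⟩ h, fun _ => hi⟩
    · exact ⟨Classical.arbitrary ι, fun i' hi' => absurd ⟨i', hi'⟩ h, fun h'' => absurd h'' h'⟩

lemma sub_insert {i : ι} {T : Set ι} (h : T ⊆ {i}) : (insert i T).Subsingleton :=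
  Set.subsingleton_singleton.anti (Set.insert_subset (Set.mem_singleton i) h)

lemma all_vis [Fintype ι] [Nonempty ι] (hι : Fintype.card ι ≤ 145) (hF : G.EC 63000 Y F)
    (σ : St G Y F 144 a b Set.Subsingleton L) (hc : σ.Cnt) :
    ∀ q ∈ σ.l '' Y, ∃ i, σ.Vis i q := by
  by_contra hcon
  push Not at hcon
  have hJ : ∀ q, (∀ i, ¬ σ.Vis i q) → σ.J q = ∅ := fun q hq =>
    Set.eq_empty_of_forall_notMem fun i hi => hq i (vis_of_J σ hi)
  obtain ⟨q, ⟨hqY, hq⟩, h1⟩ := hc.den {q | q ∈ σ.l '' Y ∧ ∀ i, ¬ σ.Vis i q} (fun q hq => hq.1)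
    hcon (by
      intro i hi
      obtain ⟨q, hq, hi⟩ := Set.mem_iUnion₂.mp hi
      exact absurd (vis_of_J σ hi) (hq.2 i))
  have h2 := hc.win q Finset.univ {y | ∃ i, σ.Vis i y} 143 (fun ⟨i, hi⟩ => hq i hi)
    (fun y hy => by
      obtain ⟨i, h3, h4⟩ := exists_own σ y
      refine ⟨i, Finset.mem_univ _, h4 hy, sub_insert h3, sub_insert ?_⟩
      rw [hJ q hq]
      exact Set.empty_subset _)
    (fun y hy => by
      have h3 := hc.pair q y (fun h => by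
        obtain ⟨i, hi⟩ := hy
        exact hq i (h ▸ hi)) (by
        rw [hJ q hq, Set.empty_union]
        exact σ.cap y)
      exact Order.le_of_lt_add_one (lt_of_lt_of_eq h3 (by norm_num)))
  obtain ⟨x, hx, hxq⟩ := hqY
  have h3 := hF (σ.l ⁻¹' {q}) (spl_of_mem hx (σ.mem (Classical.arbitrary ι) 0 (Nat.zero_le _)).1
    hxq fun h => hq _ ⟨0, Nat.zero_le _, h⟩)
  have h4 : F ∩ G.cut (σ.l ⁻¹' {q}) ⊆
      σ.btw q ({q | q ∈ σ.l '' Y ∧ ∀ i, ¬ σ.Vis i q} \ {q}) ∪ σ.btw q {y | ∃ i, σ.Vis i y} := by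
    rintro g ⟨hg, hg'⟩
    have h5 : g ∈ σ.free := by
      refine ⟨hg, fun h => ?_⟩
      obtain ⟨i, k, hk, rfl⟩ := Set.mem_iUnion.mp h
      refine ((σ.r i).hj k hk).mem_cut.mp hg' (iff_of_false (fun h => hq i ⟨k, hk.le, ?_⟩)
        fun h => hq i ⟨k + 1, hk, h⟩)
      exact (σ.mem i k hk.le).2.2.trans h
    have h6 : ∃ u x, G.Joins g u x ∧ σ.l u = q ∧ σ.l x ≠ q := by
      by_cases h : σ.l (G.s g) = q
      · exact ⟨_, _, G.joins_st g, h, fun h' => hg' (iff_of_true h h')⟩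
      · refine ⟨_, _, (G.joins_st g).symm, ?_, h⟩
        by_contra h'
        exact hg' (iff_of_false h h')
    obtain ⟨u, x, h6, h7, h8⟩ := h6
    by_cases h9 : ∃ i, σ.Vis i (σ.l x)
    · exact Or.inr ⟨h5, u, x, h6, h7, h9⟩
    · exact Or.inl ⟨h5, u, x, h6, h7, ⟨⟨x, (h6.mem_In.mp (σ.hF hg)).2, rfl⟩,
        fun i hi => h9 ⟨i, hi⟩⟩, h8⟩
  have h5 := h3.trans ((Set.encard_le_encard h4).trans ((Set.encard_union_le _ _).trans
    (add_le_add h1.le h2)))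
  rw [Finset.card_univ] at h5
  have h6 : 63000 ≤ 2 * 144 + 3 * 143 * Fintype.card ι := by exact_mod_cast h5
  omega

lemma jz_mem {j : ℕ} {Cap : Set ι → Prop} (σ : St G Y F j a b Cap L) (i : ι) (v : V)
    (h : (σ.r i).jz v ≠ 0) : v ∈ Y := by
  by_contra hv
  apply h
  rw [Rt.jz, Finsupp.finsetSum_apply]
  refine Finset.sum_eq_zero fun k hk => ?_
  have h1 := σ.mem i k (Nat.lt_succ_iff.mp (Finset.mem_range.mp hk))
  rw [Finsupp.add_apply, pt_apply, pt_apply,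
    if_neg (fun h : (σ.r i).w k = v => hv (h ▸ h1.1)),
    if_neg (fun h : (σ.r i).w' k = v => hv (h ▸ h1.2.1)), add_zero]

lemma ev_jz {j : ℕ} {Cap : Set ι → Prop} (σ : St G Y F j a b Cap L) (i : ι) (q : L) :
    ev (Y ∩ σ.l ⁻¹' {q}) (σ.r i).jz = 0 := by
  rw [Rt.jz, map_sum]
  refine Finset.sum_eq_zero fun k hk => ?_
  have h1 := σ.mem i k (Nat.lt_succ_iff.mp (Finset.mem_range.mp hk))
  rw [map_add, ev_pt, ev_pt]
  by_cases h : σ.l ((σ.r i).w k) = q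
  · rw [if_pos ⟨h1.1, h⟩, if_pos ⟨h1.2.1, h1.2.2.symm.trans h⟩]
    rfl
  · rw [if_neg fun h' => h h'.2, if_neg fun h' => h (h1.2.2.trans h'.2), add_zero]

lemma res_jz {j : ℕ} {Cap : Set ι → Prop} (σ : St G Y F j a b Cap L) {i : ι} {q : L}
    (hi : i ∉ σ.J q) : res (Y ∩ σ.l ⁻¹' {q}) (σ.r i).jz = 0 := by
  rw [Rt.jz, map_sum]
  refine Finset.sum_eq_zero fun k hk => ?_
  have h0 := Nat.lt_succ_iff.mp (Finset.mem_range.mp hk)
  have h1 := σ.mem i k h0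
  by_cases h2 : (σ.r i).w k = (σ.r i).w' k
  · rw [h2, ch_add_self, map_zero]
  · have h : σ.l ((σ.r i).w k) ≠ q := fun h => hi ⟨k, h0, h, h2⟩
    rw [map_add, res_pt, res_pt, if_neg fun h' => h h'.2,
      if_neg fun h' => h (h1.2.2.trans h'.2), add_zero]

lemma main [Fintype ι] [Nonempty ι] (hOne : StOne.{u}) {κ : ℕ} (hA : G.Amb κ) (hκ : 0 < κ)
    (σ : St G Y F 144 a b Set.Subsingleton L) (hv : ∀ q ∈ σ.l '' Y, ∃ i, σ.Vis i q) :
    ∃ Φ : ι → Set E, (∀ i, Φ i ⊆ F) ∧ (∀ i i', i ≠ i' → Disjoint (Φ i) (Φ i')) ∧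
      (∀ i, G.PP κ (pt (a i) + pt (b i)) (Φ i)) ∧ (∀ i, G.Root (Φ i) (a i)) ∧
      ∀ y ∈ Y, ∃ i, G.Conn (Φ i) (a i) y := by
  choose own ho1 ho2 using exists_own σ
  have hP : ∀ i q, ∃ P : Set E, P ⊆ σ.free ∩ G.In (Y ∩ σ.l ⁻¹' {q}) ∧
      G.PP κ (res (Y ∩ σ.l ⁻¹' {q}) (σ.r i).jz) P ∧ (own q ≠ i → P = ∅) ∧
      (own q = i → ∀ x ∈ Y ∩ σ.l ⁻¹' {q}, ∀ y ∈ Y ∩ σ.l ⁻¹' {q}, G.Conn P x y) := by
    intro i q
    by_cases h : own q = i
    · obtain ⟨P, h1, h2, h3⟩ := hOne V E G κ hA hκ _ _ (σ.cell q)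
        (res (Y ∩ σ.l ⁻¹' {q}) (σ.r i).jz) (fun v hv => by
          by_contra h4
          exact hv (by rw [res_apply, if_neg h4])) (by rw [ev_res, ev_jz])
      exact ⟨P, h1, h2, fun h' => absurd h h', fun _ => h3⟩
    · refine ⟨∅, Set.empty_subset _, ?_, fun _ => rfl, fun h' => absurd h' h⟩
      rw [res_jz σ fun h' => h (Eq.symm (ho1 q h'))]
      exact Gr.PP.nil G κ
  choose P hP1 hP2 hP3 hP4 using hP
  have hes : ∀ i i' q, Disjoint (σ.r i).es (P i' q) := fun i i' q =>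
    Set.disjoint_left.mpr fun g hg hg' => (hP1 i' q hg').1.2 (Set.mem_iUnion.mpr ⟨i, hg⟩)
  have hsub : ∀ i, ∀ x ∈ Y, P i (σ.l x) ⊆ (σ.r i).es ∪ ⋃ q ∈ σ.fin.toFinset, P i q :=
    fun i x hx g hg => Or.inr (Set.mem_iUnion₂.mpr
      ⟨σ.l x, σ.fin.mem_toFinset.mpr ⟨x, hx, rfl⟩, hg⟩)
  have hrt : ∀ i, ∀ k ≤ (σ.r i).n,
      G.Conn ((σ.r i).es ∪ ⋃ q ∈ σ.fin.toFinset, P i q) (a i) ((σ.r i).w k) ∧
      G.Conn ((σ.r i).es ∪ ⋃ q ∈ σ.fin.toFinset, P i q) (a i) ((σ.r i).w' k) := fun i =>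
    (σ.r i).conn Set.subset_union_left fun k hk => by
      have h1 := σ.mem i k hk
      by_cases h2 : (σ.r i).w k = (σ.r i).w' k
      · rw [h2]
        exact Gr.Conn.refl _ _ _
      · have h3 : own (σ.l ((σ.r i).w k)) = i := Eq.symm (ho1 _ ⟨k, hk, rfl, h2⟩)
        exact (hP4 i _ h3 _ ⟨h1.1, rfl⟩ _ ⟨h1.2.1, h1.2.2.symm⟩).mono (hsub i _ h1.1)
  have hall : ∀ i, ∀ y ∈ Y, own (σ.l y) = i →
      G.Conn ((σ.r i).es ∪ ⋃ q ∈ σ.fin.toFinset, P i q) (a i) y := by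
    intro i y hy h
    obtain ⟨k, hk, h1⟩ := h ▸ ho2 (σ.l y) (hv _ ⟨y, hy, rfl⟩)
    exact (hrt i k hk).1.trans
      ((hP4 i _ h _ ⟨(σ.mem i k hk).1, h1⟩ _ ⟨hy, rfl⟩).mono (hsub i y hy))
  refine ⟨fun i => (σ.r i).es ∪ ⋃ q ∈ σ.fin.toFinset, P i q, fun i => ?_, fun i i' h => ?_,
    fun i => ?_, fun i => ?_, fun y hy => ⟨_, hall _ y hy rfl⟩⟩
  · exact Set.union_subset (σ.sub i)
      (Set.iUnion₂_subset fun q _ g hg => (hP1 i q hg).1.1)
  · simp only [Set.disjoint_union_left, Set.disjoint_union_right, Set.disjoint_iUnion_left,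
      Set.disjoint_iUnion_right]
    refine ⟨⟨σ.dis h, fun q _ => (hes i' i q).symm⟩, fun q _ => ⟨hes i i' q, fun q' _ => ?_⟩⟩
    refine Set.disjoint_left.mpr fun g hg hg' => ?_
    have h1 : q' = q := Eq.trans (Eq.symm (hP1 i q' hg).2.1.2) (hP1 i' q hg').2.1.2
    subst h1
    by_cases h2 : own q' = i
    · rw [hP3 i' q' fun h3 => h (h2.symm.trans h3)] at hg'
      exact hg'
    · rw [hP3 i q' h2] at hg
      exact hg
  · have h1 := Gr.PP.asm (κ := κ) Y σ.l σ.fin.toFinset (σ.r i).jz (σ.r i).esF (P i)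
      (fun v hv => ⟨jz_mem σ i v hv, σ.fin.mem_toFinset.mpr ⟨v, jz_mem σ i v hv, rfl⟩⟩)
      (fun q _ => ⟨fun g hg => (hP1 i q hg).2, hP2 i q⟩)
      fun q _ => (σ.r i).coe_esF ▸ hes i i q
    rwa [Rt.bdy_add_jz, Rt.coe_esF] at h1
  · rintro g (⟨k, hk, rfl⟩ | hg)
    · rcases (σ.r i).hj k hk with ⟨h, -⟩ | ⟨h, -⟩
      · rw [h]
        exact (hrt i k hk.le).2
      · rw [h]
        exact (hrt i (k + 1) hk).1
    · obtain ⟨q, -, hg⟩ := Set.mem_iUnion₂.mp hg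
      have h1 := (hP1 i q hg).2.1
      refine hall i _ h1.1 ?_
      rw [show σ.l (G.s g) = q from h1.2]
      by_contra h2
      rw [hP3 i q h2] at hg
      exact hg

end MR

theorem rowMR : StFin.{u} → StLink.{u} → StInit.{u} → StMin.{u} → StCnt.{u} → StOne.{u} →
    StMR.{u} := by
  intro hFin hLink hInit hMin hCnt hOne V E G κ hA hκ Y F hC ι T c d c0 d0 hT hc0 hd0 hcd
  obtain ⟨hcut, hFY, hcof, hEC⟩ := hC
  have : Nonempty E := hA.2.2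
  let a : Option T → V := fun o => o.elim c0 fun x => c x
  let b : Option T → V := fun o => o.elim d0 fun x => d x
  have ha : ∀ i, a i ∈ Y := by
    rintro (_ | x)
    · exact hc0
    · exact (hcd x x.2).1
  have hb : ∀ i, b i ∈ Y := by
    rintro (_ | x)
    · exact hd0
    · exact (hcd x x.2).2
  have hcard : Fintype.card (Option T) ≤ 145 := by
    rw [Fintype.card_option, Fintype.card_coe]
    omega
  obtain ⟨N, hN1, hN2, hN3⟩ := hFin V E G 63000 (Set.range a ∪ Set.range b) F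
    ((Set.finite_range a).union (Set.finite_range b))
    (hEC.mono le_rfl (Set.union_subset (Set.range_subset_iff.mpr ha)
      (Set.range_subset_iff.mpr hb)) subset_rfl)
  obtain ⟨r, hr1, hr2⟩ := hLink V E G N (Set.range a ∪ Set.range b) (Option T) a b 145 hN2
    (hN3.mono (by norm_num) subset_rfl subset_rfl) hcard
    fun i => ⟨Or.inl ⟨i, rfl⟩, Or.inr ⟨i, rfl⟩⟩
  have hmono : ∀ S S' : Set (Option T), S' ⊆ S → S.Subsingleton → S'.Subsingleton :=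
    fun _ _ h h' => h'.anti h
  obtain ⟨σ, hσ⟩ := hMin V E (V ⊕ ℕ) G Y F 144 (Option T) a b Set.Subsingleton hmono
    (hInit V E G κ 144 hA hκ Y F hcut hFY hcof (Option T) a b Set.Subsingleton r
      Set.subsingleton_empty ha (fun i => ⟨(hr1 i).1, (hr1 i).2.trans hN1⟩) hr2)
  have hcnt := hCnt V E (V ⊕ ℕ) G Y F 144 (Option T) a b Set.Subsingleton hmono (by norm_num) σ hσ
  have hκ0 : 0 < κ := by omega
  obtain ⟨Φ, h1, h2, h3, h4, h5⟩ := MR.main hOne hA hκ0 σ (MR.all_vis hcard hEC σ hcnt)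
  have h6 : ∀ x : T, Φ (some x) ⊆ ⋃ x ∈ T.attach, Φ (some x) := fun x g hg =>
    Set.mem_iUnion₂.mpr ⟨x, Finset.mem_attach _ _, hg⟩
  refine ⟨Φ none, ⋃ x ∈ T.attach, Φ (some x), h1 _, Set.iUnion₂_subset fun x _ => h1 _, ?_,
    h3 none, h4 none, ?_, fun x hx => ((h3 (some ⟨x, hx⟩)).conn hκ0).mono (h6 _), fun y hy => ?_⟩
  · simp only [Set.disjoint_iUnion_right]
    exact fun x _ => h2 _ _ (by simp)
  · rw [← Finset.sum_attach]
    exact Gr.PP.biUnion T.attach (fun x _ => h3 (some x))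
      fun x _ x' _ h => h2 _ _ fun h' => h (Option.some.inj h')
  · obtain ⟨_ | x, h7⟩ := h5 y hy
    · exact Or.inl h7
    · exact Or.inr ⟨x, x.2, h7.mono (h6 x)⟩

end Pool.Agent.MP_7f38c2_co.H28
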