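import Pool.Agent.MP_7f38c2_co.H28.Basic

/-! Closure properties of patches; joins, trails and Euler tours. -/

namespace Pool.Agent.MP_7f38c2_co.H28

open Classical

namespace Gr

variable {V E : Type*} {G : Gr V E} {κ : ℕ}

/-- transfer of connectivity between two multigraphs on one vertex set -/
lemma Conn.transfer {E' : Type*} {G' : Gr V E'} {N : Set E'} {N' : Set E}
    (hN : ∀ e ∈ N, G.Conn N' (G'.s e) (G'.t e)) {a b : V} (h : G'.Conn N a b) :
    G.Conn N' a b := by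
  induction h with
  | refl => exact Conn.refl _ _ _
  | tail _ hbc ih =>
    obtain ⟨e, he, ⟨rfl, rfl⟩ | ⟨rfl, rfl⟩⟩ := hbc
    · exact ih.trans (hN e he)
    · exact ih.trans (hN e he).symm

/-- lifting connectivity from a quotient: `P` holds for the ends of all edges of `W` -/
lemma Conn.lift {E' Q : Type*} {G' : Gr V E'} {π : V → Q} {W : Set E'} {N : Set E} {P : V → Prop}
    {p : Q} (h1 : ∀ e ∈ W, G.Conn N (G'.s e) (G'.t e) ∧ P (G'.s e) ∧ P (G'.t e))
    (h2 : ∀ u v, P u → P v → π u = π v → (G'.map π).Conn W p (π u) → G.Conn N u v) {q : Q}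
    (h : (G'.map π).Conn W p q) : ∀ u v, P u → P v → π u = p → π v = q → G.Conn N u v := by
  induction h with
  | refl => exact fun u v hu hv h3 h4 => h2 u v hu hv (h3.trans h4.symm) (h3 ▸ Conn.refl _ _ _)
  | @tail b c hab hbc ih =>
    intro u v hu hv h3 h4
    obtain ⟨e, he, h5⟩ := hbc
    have h6 : (G'.map π).Conn W p c := Conn.trans hab (Conn.edge he h5)
    obtain ⟨h7, h8, h9⟩ := h1 e he
    rcases h5 with ⟨rfl, rfl⟩ | ⟨rfl, rfl⟩
    · exact ((ih u _ hu h8 h3 rfl).trans h7).trans (h2 _ v h9 hv h4.symm h6)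
    · exact ((ih u _ hu h9 h3 rfl).trans h7.symm).trans (h2 _ v h8 hv h4.symm h6)

lemma PP.nil (G : Gr V E) (κ : ℕ) : G.PP κ 0 ∅ := ⟨0, PPn.nil⟩

lemma PP.add {z ζ : Ch V} {F I : Set E} (h : G.PP κ z F) (hI : G.Item κ ζ I) (hd : Disjoint I F) :
    G.PP κ (ζ + z) (I ∪ F) := ⟨_, PPn.add h.choose_spec hI hd⟩

lemma Item.pp {ζ : Ch V} {I : Set E} (hI : G.Item κ ζ I) : G.PP κ ζ I := by
  simpa using (PP.nil G κ).add hI (Set.disjoint_empty _)

lemma PP.union {z z' : Ch V} {F F' : Set E} (h : G.PP κ z F) (h' : G.PP κ z' F')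
    (hd : Disjoint F F') : G.PP κ (z + z') (F ∪ F') := by
  obtain ⟨n, h⟩ := h
  induction h with
  | nil => simpa using h'
  | add _ hI hd' ih =>
    rw [Set.disjoint_union_left] at hd
    rw [add_assoc, Set.union_assoc]
    exact (ih hd.2).add hI (Set.disjoint_union_right.mpr ⟨hd', hd.1⟩)

lemma PP.biUnion {ι : Type*} (T : Finset ι) {z : ι → Ch V} {F : ι → Set E}
    (h : ∀ i ∈ T, G.PP κ (z i) (F i)) (hd : ∀ i ∈ T, ∀ i' ∈ T, i ≠ i' → Disjoint (F i) (F i')) :
    G.PP κ (∑ i ∈ T, z i) (⋃ i ∈ T, F i) := by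
  induction T using Finset.induction_on with
  | empty => simpa using PP.nil G κ
  | insert a T ha ih =>
    rw [Finset.sum_insert ha, Finset.set_biUnion_insert]
    refine (h a (Finset.mem_insert_self _ _)).union
      (ih (fun i hi => h i (Finset.mem_insert_of_mem hi)) fun i hi i' hi' =>
        hd i (Finset.mem_insert_of_mem hi) i' (Finset.mem_insert_of_mem hi')) ?_
    simp only [Set.disjoint_iUnion_right]
    exact fun i hi => hd a (Finset.mem_insert_self _ _) i (Finset.mem_insert_of_mem hi)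
      fun h => ha (h ▸ hi)

lemma PP.edges (G : Gr V E) (κ : ℕ) (W : Finset E) : G.PP κ (G.bdy W) W := by
  have := PP.biUnion (G := G) (κ := κ) W (z := G.dd) (F := fun e => {e})
    (fun e _ => Item.pp (Or.inl ⟨e, rfl, rfl⟩)) fun _ _ _ _ h => Set.disjoint_singleton.mpr h
  rwa [show (⋃ e ∈ W, ({e} : Set E)) = W by
    ext e
    simp] at this

/-- assembling a patch from finitely many edges and one patch in each part of a labelling -/
lemma PP.asm {L : Type*} (X : Set V) (ρ : V → L) (T : Finset L) (ζ : Ch V) (W : Finset E)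
    (F : L → Set E) (hζ : ∀ v, ζ v ≠ 0 → v ∈ X ∧ ρ v ∈ T)
    (hF : ∀ y ∈ T, F y ⊆ G.In (X ∩ ρ ⁻¹' {y}) ∧ G.PP κ (res (X ∩ ρ ⁻¹' {y}) ζ) (F y))
    (hW : ∀ y ∈ T, Disjoint (W : Set E) (F y)) :
    G.PP κ (G.bdy W + ζ) (W ∪ ⋃ y ∈ T, F y) := by
  have h1 := PP.biUnion T (fun y hy => (hF y hy).2) fun y hy y' hy' h =>
    (disjoint_In (Set.disjoint_left.mpr fun v h1 h2 => h (Eq.trans (Eq.symm h1.2) h2.2))).mono
      (hF y hy).1 (hF y' hy').1
  rw [sum_res X ρ T ζ hζ] at h1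
  refine (PP.edges G κ W).union h1 ?_
  simpa only [Set.disjoint_iUnion_right] using hW

lemma Item.res (hκ : 0 < κ) {ζ : Ch V} {I : Set E} (hI : G.Item κ ζ I) {U : Set V}
    (hU : ∀ e ∈ I, e ∉ G.cut U) :
    (I ⊆ G.In U ∧ res U ζ = ζ ∧ ev U ζ = 0) ∨ (I ∩ G.In U = ∅ ∧ res U ζ = 0) := by
  rcases hI with ⟨e, rfl, rfl⟩ | ⟨D, hD, rfl, h1, h2⟩
  · have h := not_not.mp (hU e rfl)
    by_cases hs : G.s e ∈ U
    · refine Or.inl ⟨Set.singleton_subset_iff.mpr ⟨hs, h.mp hs⟩, ?_, ?_⟩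
      · simp [dd, res_pt, hs, h.mp hs]
      · rw [ev_dd, if_neg (hU e rfl)]
    · refine Or.inr ⟨Set.singleton_inter_eq_empty.mpr fun h' => hs h'.1, ?_⟩
      simp [dd, res_pt, hs, mt h.mpr hs]
  · by_cases h : (D ∩ U).Nonempty
    · obtain ⟨x, hx, hx'⟩ := h
      have h3 : D ⊆ U := fun y hy => ((hD.2.conn hκ hx hy).iff_mem hU).mp hx'
      have h4 := res_eq_self fun v hv => h3 (h1 v hv)
      exact Or.inl ⟨In_mono h3, h4, by rw [← ev_res, h4, h2]⟩
    · refine Or.inr ⟨Set.eq_empty_of_forall_notMem fun e he => h ⟨_, he.1.1, he.2.1⟩,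
        res_eq_zero fun v hv => ?_⟩
      by_contra h5
      exact h ⟨v, h1 v h5, hv⟩

lemma PP.res (hκ : 0 < κ) {z : Ch V} {F : Set E} (h : G.PP κ z F) {U : Set V}
    (hU : ∀ e ∈ F, e ∉ G.cut U) : G.PP κ (res U z) (F ∩ G.In U) ∧ ev U z = 0 := by
  obtain ⟨n, h⟩ := h
  induction h with
  | nil => simpa using PP.nil G κ
  | add _ hI hd ih =>
    obtain ⟨h1, h2⟩ := ih fun e he => hU e (Or.inr he)
    rw [map_add, map_add, h2, add_zero, Set.union_inter_distrib_right]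
    rcases hI.res hκ fun e he => hU e (Or.inl he) with ⟨h3, h4, h5⟩ | ⟨h3, h4⟩
    · rw [h4, Set.inter_eq_left.mpr h3]
      exact ⟨h1.add hI (hd.mono_right Set.inter_subset_left), h5⟩
    · rw [h3, h4, zero_add, Set.empty_union, ← ev_res, h4, map_zero]
      exact ⟨h1, rfl⟩

lemma PP.conn (hκ : 0 < κ) {a b : V} {F : Set E} (h : G.PP κ (pt a + pt b) F) : G.Conn F a b := by
  have h1 := (h.res hκ (U := {u | G.Conn F a u}) fun e he => not_mem_cut_conn he).2
  by_contra h2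
  rw [map_add, ev_pt, ev_pt, if_pos (show a ∈ {u | G.Conn F a u} from Conn.refl G F a),
    if_neg (show b ∉ {u | G.Conn F a u} from h2)] at h1
  exact absurd h1 (by decide)

lemma PPn.pick {n : ℕ} {z : Ch V} {F : Set E} (h : G.PPn κ n z F) {e : E} (he : e ∈ F) :
    ∃ m ζ z' I F', n = m + 1 ∧ G.Item κ ζ I ∧ e ∈ I ∧ G.PPn κ m z' F' ∧ Disjoint I F' ∧
      z = ζ + z' ∧ F = I ∪ F' := by
  induction h with
  | nil => exact absurd he (Set.notMem_empty _)
  | @add n z ζ F I h hI hd ih =>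
    rcases he with he | he
    · exact ⟨n, ζ, z, I, F, rfl, hI, he, h, hd, rfl, rfl⟩
    · obtain ⟨m, ζ', z', I', F', rfl, h1, h2, h3, h4, rfl, rfl⟩ := ih he
      rw [Set.disjoint_union_right] at hd
      exact ⟨m + 1, ζ', ζ + z', I', I ∪ F', rfl, h1, h2, h3.add hI hd.2,
        Set.disjoint_union_right.mpr ⟨hd.1.symm, h4⟩, add_left_comm _ _ _,
        Set.union_left_comm _ _ _⟩

lemma FB.union {F F' : Set E} (h : G.FB F) (h' : G.FB F') : G.FB (F ∪ F') :=
  (Set.Finite.union h h').subset (by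
    rintro e ⟨h1, f, hf | hf, h2⟩
    · exact Or.inl ⟨fun h => h1 (Or.inl h), f, hf, h2⟩
    · exact Or.inr ⟨fun h => h1 (Or.inr h), f, hf, h2⟩)

lemma LF.fb (hG : G.LF) {F : Set E} (hF : F.Finite) : G.FB F :=
  (hG.inc (G.ends_finite hF)).subset (by
    rintro e ⟨-, f, hf, v, h1 | h1, h2⟩
    · exact Or.inl ⟨f, hf, h1 ▸ h2⟩
    · exact Or.inr ⟨f, hf, h1 ▸ h2⟩)

lemma PP.fb (hG : G.LF) {z : Ch V} {F : Set E} (h : G.PP κ z F) : G.FB F := by
  obtain ⟨n, h⟩ := h
  induction h with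
  | nil => exact hG.fb Set.finite_empty
  | add _ hI _ ih =>
    refine FB.union ?_ ih
    rcases hI with ⟨e, rfl, -⟩ | ⟨D, hD, rfl, -⟩
    · exact hG.fb (Set.finite_singleton e)
    · refine hD.1.subset ?_
      rintro e ⟨h1, f, hf, v, h2, h3⟩ h4
      have h5 := h3.mem hf
      rcases h2 with rfl | rfl
      · exact h1 ⟨h5, h4.mp h5⟩
      · exact h1 ⟨h4.mpr h5, h5⟩

lemma Job.facts (hG : G.LF) (hκ : 0 < κ) {u v : V} {F : Set E} (h : G.Job κ u v F) :
    G.Conn F u v ∧ G.FB F ∧ ∀ e ∈ F, ∃ x, G.Tch e x ∧ G.Conn F u x := by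
  obtain ⟨F0, h1, h2, h3⟩ := h
  refine ⟨(h2.conn hκ).mono h1, ?_, fun e he => (h3 e he).imp fun x hx => ⟨hx.1, hx.2.mono h1⟩⟩
  rw [← Set.union_sdiff_cancel h1]
  refine (h2.fb hG).union (hG.fb (((hG u).union (h2.fb hG)).subset fun e he => ?_))
  obtain ⟨x, h4, h5⟩ := h3 e he.1
  rcases h5.eq_or_tch with rfl | ⟨f, hf, h6⟩
  · exact Or.inl h4
  · exact Or.inr ⟨he.2, f, hf, x, h4, h6⟩

lemma bdy_union {W W' : Finset E} (h : Disjoint W W') : G.bdy (W ∪ W') = G.bdy W + G.bdy W' :=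
  Finset.sum_union h

lemma bdy_symmDiff (G : Gr V E) (W W' : Finset E) :
    G.bdy (symmDiff W W') = G.bdy W + G.bdy W' := by
  have h1 : G.bdy W = G.bdy (W \ W') + G.bdy (W ∩ W') := by
    rw [← bdy_union (Finset.disjoint_sdiff_inter _ _), Finset.sdiff_union_inter]
  have h2 : G.bdy W' = G.bdy (W' \ W) + G.bdy (W ∩ W') := by
    rw [Finset.inter_comm, ← bdy_union (Finset.disjoint_sdiff_inter _ _), Finset.sdiff_union_inter]
  rw [h1, h2, add_add_add_comm, ch_add_self, add_zero, ← bdy_union disjoint_sdiff_sdiff]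
  rfl

lemma Conn.exists_bdy {N : Set E} {a b : V} (h : G.Conn N a b) :
    ∃ W : Finset E, (W : Set E) ⊆ N ∧ G.bdy W = pt a + pt b := by
  induction h with
  | refl => exact ⟨∅, by simp, by simp [bdy, ch_add_self]⟩
  | @tail b c _ hbc ih =>
    obtain ⟨e, he, h⟩ := hbc
    obtain ⟨W, h1, h2⟩ := ih
    refine ⟨symmDiff W {e}, fun f hf => ?_, ?_⟩
    · rcases Finset.mem_symmDiff.mp hf with hf | hf
      · exact h1 hf.1
      · exact Finset.mem_singleton.mp hf.1 ▸ he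
    · rw [bdy_symmDiff, h2, bdy, Finset.sum_singleton, h.dd_eq, add_assoc, ← add_assoc (pt b),
        ch_add_self, zero_add]

/-- a join for an even demand on a connected set -/
lemma exists_join {N : Set E} {a : V} (z : Ch V) (h : ∀ v, z v ≠ 0 → G.Conn N a v)
    (hz : ev Set.univ z = 0) : ∃ W : Finset E, (W : Set E) ⊆ N ∧ G.bdy W = z := by
  have key : ∀ T : Finset V, (∀ v ∈ T, G.Conn N a v) → ∃ W : Finset E, (W : Set E) ⊆ N ∧
      G.bdy W = ∑ v ∈ T, pt v + Finsupp.single a (T.card : ZMod 2) := by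
    intro T hT
    induction T using Finset.induction_on with
    | empty => exact ⟨∅, by simp, by simp [bdy]⟩
    | insert v T hv ih =>
      obtain ⟨W, h1, h2⟩ := ih fun u hu => hT u (Finset.mem_insert_of_mem hu)
      obtain ⟨W', h3, h4⟩ := (hT v (Finset.mem_insert_self _ _)).exists_bdy
      refine ⟨symmDiff W W', fun f hf => ?_, ?_⟩
      · rcases Finset.mem_symmDiff.mp hf with hf | hf
        · exact h1 hf.1
        · exact h3 hf.1
      · rw [bdy_symmDiff, h2, h4, Finset.sum_insert hv, Finset.card_insert_of_notMem hv,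
          Nat.cast_add, Finsupp.single_add, Nat.cast_one, pt, pt]
        abel
  obtain ⟨W, h1, h2⟩ := key z.support fun v hv => h v (Finsupp.mem_support_iff.mp hv)
  have h3 : ∑ v ∈ z.support, pt v = z := by
    conv_rhs => rw [← Finsupp.sum_single z]
    refine Finset.sum_congr rfl fun v hv => ?_
    have h4 : ∀ x : ZMod 2, x ≠ 0 → x = 1 := by decide
    rw [h4 _ (Finsupp.mem_support_iff.mp hv), pt]
  have h5 : (z.support.card : ZMod 2) = 0 := by
    rw [← hz]
    conv_rhs => rw [← h3]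
    simp [map_sum, ev_pt]
  exact ⟨W, h1, by rw [h2, h3, h5, Finsupp.single_zero, add_zero]⟩

lemma exists_trail (G : Gr V E) (W : Finset E) {a b : V} (h : G.bdy W = pt a + pt b) :
    ∃ l, G.Wk a l b ∧ l.Nodup ∧ ∀ e ∈ l, e ∈ W := by
  induction hn : W.card using Nat.strong_induction_on generalizing W a with
  | h n ih =>
  by_cases hab : a = b
  · exact ⟨[], hab ▸ Wk.nil _, List.nodup_nil, by simp⟩
  obtain ⟨e, he, hu⟩ := tch_of_bdy (G := G) (W := W) (v := a) (by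
    rw [h]
    simp [pt_apply, Ne.symm hab])
  obtain ⟨u, hu⟩ := hu.exists_joins
  obtain ⟨l, h1, h2, h3⟩ := ih _ (hn ▸ Finset.card_erase_lt_of_mem he) (W.erase e) (a := u) (by
    have h4 : G.dd e + G.bdy (W.erase e) = G.bdy W := Finset.add_sum_erase W G.dd he
    rw [h, hu.dd_eq, add_assoc, add_right_inj] at h4
    rw [← h4, ← add_assoc, ch_add_self, zero_add]) rfl
  refine ⟨e :: l, Wk.cons hu h1, List.nodup_cons.mpr ⟨fun h => ?_, h2⟩, ?_⟩
  · exact (Finset.mem_erase.mp (h3 e h)).1 rfl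
  · intro f hf
    rcases List.mem_cons.mp hf with rfl | hf
    · exact he
    · exact Finset.mem_of_mem_erase (h3 f hf)

lemma Conn.exists_rt [Nonempty E] {N : Set E} {a b : V} (h : G.Conn N a b) :
    ∃ r : Rt G a b, r.Real ∧ r.es ⊆ N := by
  obtain ⟨W, h1, h2⟩ := h.exists_bdy
  obtain ⟨l, h3, h4, h5⟩ := G.exists_trail W h2
  obtain ⟨r, h6, h7⟩ := h3.exists_rt h4
  exact ⟨r, h6, fun g hg => h1 (h5 g (h7 g hg))⟩

lemma Wk.split {a c u w : V} {l : List E} (h : G.Wk a l c) {e : E} (he : e ∈ l)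
    (h' : G.Joins e u w) : ∃ A B, l = A ++ B ∧ G.Wk a A w ∧ G.Wk w B c := by
  induction h with
  | nil => simp at he
  | @cons a b c f l hf hl ih =>
    rcases List.mem_cons.mp he with rfl | he
    · rcases hf.eq_or h' with ⟨-, rfl⟩ | ⟨rfl, -⟩
      · exact ⟨[e], l, rfl, Wk.cons hf (Wk.nil _), hl⟩
      · exact ⟨[], e :: l, rfl, Wk.nil _, Wk.cons hf hl⟩
    · obtain ⟨A, B, rfl, h1, h2⟩ := ih he
      exact ⟨f :: A, B, rfl, Wk.cons hf h1, h2⟩

lemma Wk.bdy_eq {a c : V} {l : List E} (h : G.Wk a l c) (hl : l.Nodup) :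
    G.bdy l.toFinset = pt a + pt c := by
  induction h with
  | nil => simp [bdy, ch_add_self]
  | @cons a b c f l hf _ ih =>
    obtain ⟨h1, h2⟩ := List.nodup_cons.mp hl
    rw [List.toFinset_cons, bdy, Finset.sum_insert (by simpa using h1), ← bdy, ih h2, hf.dd_eq,
      add_assoc, ← add_assoc (pt b), ch_add_self, zero_add]

/-- an Euler tour of the component of `v` in an even edge set -/
lemma exists_euler (G : Gr V E) (W : Finset E) (hev : G.bdy W = 0) (v : V) :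
    ∃ l, G.Wk v l v ∧ l.Nodup ∧ (∀ e ∈ l, e ∈ W) ∧
      ∀ u, G.Conn W v u → ∃ A B, l = A ++ B ∧ G.Wk v A u ∧ G.Wk u B v := by
  have hex : ∃ n, ∃ l, G.Wk v l v ∧ l.Nodup ∧ (∀ e ∈ l, e ∈ W) ∧ (W \ l.toFinset).card = n :=
    ⟨_, [], Wk.nil _, List.nodup_nil, by simp, rfl⟩
  obtain ⟨l, h1, h2, h3, h4⟩ := Nat.find_spec hex
  have h5 : ∀ u, (∃ A B, l = A ++ B ∧ G.Wk v A u ∧ G.Wk u B v) → ∀ e ∈ W, ∀ w, G.Joins e u w →
      e ∈ l := by
    rintro u ⟨A, B, rfl, hA, hB⟩ e he w hw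
    by_contra hel
    have h6 : e ∈ W \ (A ++ B).toFinset := Finset.mem_sdiff.mpr ⟨he, mt List.mem_toFinset.mp hel⟩
    obtain ⟨l', h7, h8, h9⟩ := G.exists_trail ((W \ (A ++ B).toFinset).erase e) (a := w) (b := u) (by
      have h10 : G.dd e + G.bdy ((W \ (A ++ B).toFinset).erase e) = G.bdy _ :=
        Finset.add_sum_erase _ G.dd h6
      have h11 : G.bdy (W \ (A ++ B).toFinset) + G.bdy (A ++ B).toFinset = G.bdy W :=
        Finset.sum_sdiff fun f hf => h3 f (List.mem_toFinset.mp hf)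
      rw [h1.bdy_eq h2, ch_add_self, add_zero, hev] at h11
      rw [h11, hw.symm.dd_eq] at h10
      exact (ch_eq_of_add h10).symm)
    have h12 : ∀ f ∈ l', f ≠ e ∧ f ∈ W ∧ f ∉ A ++ B := fun f hf => by
      simpa only [Finset.mem_erase, Finset.mem_sdiff, List.mem_toFinset] using h9 f hf
    refine Nat.find_min hex (m := (W \ (A ++ (e :: l' ++ B)).toFinset).card) ?_
      ⟨_, hA.append ((Wk.cons hw h7).append hB), ?_, ?_, rfl⟩
    · rw [← h4]
      refine Finset.card_lt_card ⟨fun f hf => ?_, fun h => ?_⟩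
      · simp only [Finset.mem_sdiff, List.mem_toFinset, List.mem_append] at hf ⊢
        tauto
      · simpa using h h6
    · rw [(List.perm_append_comm_assoc A (e :: l') B).nodup_iff, List.nodup_append]
      refine ⟨List.nodup_cons.mpr ⟨fun h => (h12 e h).1 rfl, h8⟩, h2, ?_⟩
      rintro f hf g hg rfl
      rcases List.mem_cons.mp hf with rfl | hf
      · exact hel hg
      · exact (h12 f hf).2.2 hg
    · intro f hf
      simp only [List.mem_append, List.mem_cons] at hf h3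
      rcases hf with hf | (rfl | hf) | hf
      · exact h3 f (Or.inl hf)
      · exact he
      · exact (h12 f hf).2.1
      · exact h3 f (Or.inr hf)
  refine ⟨l, h1, h2, h3, fun u hu => ?_⟩
  induction hu with
  | refl => exact ⟨[], l, rfl, Wk.nil _, h1⟩
  | tail _ hbc ih =>
    obtain ⟨e, he, h⟩ := hbc
    exact h1.split (h5 _ ih e he _ h) h

end Gr

end Pool.Agent.MP_7f38c2_co.H28
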