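import Pool.Agent.MP_7f38c2_co.H28.PP
import Pool.Agent.MP_7f38c2_co.H94.Main

/-! Statements of the steps of the proof for graphs with arbitrary ends. -/

namespace Pool.Agent.MP_7f38c2_co.H28

open Classical

universe u

section defs
variable {V E : Type u}

/-- the number of edges of `N` in the cut of `U` -/
noncomputable def Gr.dg (G : Gr V E) (N : Set E) (U : Set V) : ℕ := (N ∩ G.cut U).ncard

/-- a colour class (`none` means uncoloured) -/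
def cls {r : ℕ} (N : Set E) (c : E → Option (Fin r)) (o : Option (Fin r)) : Set E :=
  {e | e ∈ N ∧ c e = o}

/-- hypotheses of the connector theorem with a special terminal `z` -/
structure CH (G : Gr V E) (r : ℕ) (N : Set E) (S : Set V) (z : V) (c0 : E → Option (Fin r)) :
    Prop where
  fin : N.Finite
  pos : 0 < r
  ec : ∀ U, Spl S U → 72 * r ≤ G.dg N U
  zS : z ∈ S
  two : ∃ s ∈ S, s ≠ z
  dz : G.dg N {z} = 72 * r
  unc : 6 * r ≤ G.dg (cls N c0 none) {z}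

/-- conclusion of the connector theorem with a special terminal `z` -/
structure CC (G : Gr V E) (r : ℕ) (N : Set E) (S : Set V) (z : V) (c0 c : E → Option (Fin r)) :
    Prop where
  ext : ∀ e ∈ N ∩ G.cut {z}, c e = c0 e
  par : ∀ i v, v ∉ S → Even (G.dg (cls N c (some i)) {v})
  con : ∀ i, ∀ s ∈ S, s ≠ z → ∀ x, x ≠ z → (x ∈ S ∨ ∃ e ∈ cls N c (some i), G.Tch e x) →
    G.Conn (cls N c (some i) ∩ G.In {z}ᶜ) s x
  unc : ∀ s ∈ S, s ≠ z → 6 * r ≤ G.dg (cls N c none) {s}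

/-- the induction hypothesis -/
def IH (V E : Type u) (r n : ℕ) : Prop :=
  ∀ (G : Gr V E) (N : Set E) (S : Set V) (z : V) (c0 : E → Option (Fin r)),
    CH G r N S z c0 → N.ncard < n → ∃ c, CC G r N S z c0 c

/-- every edge is a non-loop edge at a terminal of degree exactly `72 r` -/
def Crit (G : Gr V E) (r : ℕ) (N : Set E) (S : Set V) : Prop :=
  ∀ e ∈ N, ∃ s ∈ S, e ∈ G.cut {s} ∧ G.dg N {s} = 72 * r

/-- all tight cuts are trivial -/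
def TT (G : Gr V E) (r : ℕ) (N : Set E) (S : Set V) : Prop :=
  ∀ X, Spl S X → G.dg N X = 72 * r → N ∩ G.In X = ∅ ∨ N ∩ G.In Xᶜ = ∅

/-- an admissible splitting -/
def Adm (G : Gr V E) (r : ℕ) (N : Set E) (S : Set V) : Prop :=
  ∃ x e1 e2 a b, x ∉ S ∧ e1 ∈ N ∧ e2 ∈ N ∧ e1 ≠ e2 ∧ G.Joins e1 x a ∧ G.Joins e2 x b ∧ a ∈ S ∧
    b ∈ S ∧ ∀ U, x ∉ U → Spl S U → a ∈ U → b ∈ U → 72 * r + 2 ≤ G.dg N U

/-- a labelling of `X` into finitely many letters together with a system of routes -/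
structure St (G : Gr V E) (X : Set V) (F : Set E) (j : ℕ) {ι : Type} (a b : ι → V)
    (Cap : Set ι → Prop) (L : Type u) where
  l : V → L
  r : ∀ i, Rt G (a i) (b i)
  hF : F ⊆ G.In X
  cof : (G.In X \ F).Finite
  fin : (l '' X).Finite
  cutf : ∀ q, (G.cut (X ∩ l ⁻¹' {q})).Finite
  sub : ∀ i, (r i).es ⊆ F
  dis : Pairwise fun i i' => Disjoint (r i).es (r i').es
  mem : ∀ i, ∀ k ≤ (r i).n, (r i).w k ∈ X ∧ (r i).w' k ∈ X ∧ l ((r i).w k) = l ((r i).w' k)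
  ec : ∀ q, G.EC j (X ∩ l ⁻¹' {q}) ((F \ ⋃ i, (r i).es) ∩ G.In (X ∩ l ⁻¹' {q}))
  cap : ∀ q, Cap {i | ∃ k ≤ (r i).n, l ((r i).w k) = q ∧ (r i).w k ≠ (r i).w' k}

namespace St

variable {G : Gr V E} {X : Set V} {F : Set E} {j : ℕ} {ι : Type} {a b : ι → V}
  {Cap : Set ι → Prop} {L : Type u}

/-- the edges on no route -/
def free (σ : St G X F j a b Cap L) : Set E := F \ ⋃ i, (σ.r i).es

/-- the routes with a non-trivial junction in letter `q` -/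
def J (σ : St G X F j a b Cap L) (q : L) : Set ι :=
  {i | ∃ k ≤ (σ.r i).n, σ.l ((σ.r i).w k) = q ∧ (σ.r i).w k ≠ (σ.r i).w' k}

/-- route `i` has a junction in letter `q` -/
def Vis (σ : St G X F j a b Cap L) (i : ι) (q : L) : Prop :=
  ∃ k ≤ (σ.r i).n, σ.l ((σ.r i).w k) = q

/-- the free edges from letter `q` to the letters in `Z` -/
def btw (σ : St G X F j a b Cap L) (q : L) (Z : Set L) : Set E :=
  {g | g ∈ σ.free ∧ ∃ u x, G.Joins g u x ∧ σ.l u = q ∧ σ.l x ∈ Z}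

/-- the properties of a minimal state -/
structure Good (σ : St G X F j a b Cap L) : Prop where
  noMerge : ∀ Z : Set L, G.EC j (X ∩ σ.l ⁻¹' Z) (σ.free ∩ G.In (X ∩ σ.l ⁻¹' Z)) →
    Cap (⋃ q ∈ Z, σ.J q) → ∀ x ∈ X ∩ σ.l ⁻¹' Z, ∀ y ∈ X ∩ σ.l ⁻¹' Z, σ.l x = σ.l y
  noTwice : ∀ i, ∀ k ≤ (σ.r i).n, ∀ k' ≤ (σ.r i).n, σ.l ((σ.r i).w k) = σ.l ((σ.r i).w k') →
    Cap (insert i (σ.J (σ.l ((σ.r i).w k)))) → k = k'
  noDetour : ∀ i, ∀ k ≤ (σ.r i).n, ∀ k' ≤ (σ.r i).n, ∀ q,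
    σ.l ((σ.r i).w k) ≠ q → σ.l ((σ.r i).w k') ≠ q → σ.l ((σ.r i).w k) ≠ σ.l ((σ.r i).w k') →
    (σ.btw q {σ.l ((σ.r i).w k)}).Nonempty → (σ.btw q {σ.l ((σ.r i).w k')}).Nonempty →
    Cap (insert i (σ.J q)) → Cap (insert i (σ.J (σ.l ((σ.r i).w k)))) →
    Cap (insert i (σ.J (σ.l ((σ.r i).w k')))) → k' ≤ k + 2

/-- the counting consequences of minimality -/
structure Cnt (σ : St G X F j a b Cap L) : Prop where
  pair : ∀ q q', q ≠ q' → Cap (σ.J q ∪ σ.J q') → (σ.btw q {q'}).encard < j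
  den : ∀ Z : Set L, Z ⊆ σ.l '' X → Z.Nonempty → Cap (⋃ q ∈ Z, σ.J q) →
    ∃ q ∈ Z, (σ.btw q (Z \ {q})).encard < 2 * j
  win : ∀ (q : L) (T : Finset ι) (B : Set L) (c : ℕ), q ∉ B →
    (∀ y ∈ B, ∃ i ∈ T, σ.Vis i y ∧ Cap (insert i (σ.J y)) ∧ Cap (insert i (σ.J q))) →
    (∀ y ∈ B, (σ.btw q {y}).encard ≤ c) → (σ.btw q B).encard ≤ ((3 * c * T.card : ℕ) : ℕ∞)
  two : ∀ (q : L) (T : Finset ι), (∀ i, σ.Vis i q → i ∈ T ∧ Cap (insert i (σ.J q))) →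
    ((⋃ i, (σ.r i).es) ∩ G.cut (X ∩ σ.l ⁻¹' {q})).encard ≤ ((2 * T.card : ℕ) : ℕ∞)

lemma free_finite [Finite ι] (σ : St G X F j a b Cap L) : (G.In X \ σ.free).Finite :=
  (σ.cof.union (Set.finite_iUnion fun i => (σ.r i).es_finite)).subset fun e he => by
    by_cases h : e ∈ F
    · exact Or.inr (not_not.mp fun h' => he.2 ⟨h, h'⟩)
    · exact Or.inl ⟨he.1, h⟩

lemma cell [Finite ι] (σ : St G X F j a b Cap L) (q : L) :
    G.Cell j (X ∩ σ.l ⁻¹' {q}) (σ.free ∩ G.In (X ∩ σ.l ⁻¹' {q})) :=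
  ⟨σ.cutf q, Set.inter_subset_right, σ.free_finite.subset fun _ he =>
    ⟨Gr.In_mono Set.inter_subset_left he.1, fun h => he.2 ⟨h, he.1⟩⟩, σ.ec q⟩

end St

/-- at most 144 routes other than the distinguished one -/
def CapT (I : Type) (T : Set (Option I)) : Prop := {i | some i ∈ T}.encard ≤ 144

lemma capT_mono (I : Type) (T T' : Set (Option I)) (h : T' ⊆ T) (hT : CapT I T) : CapT I T' :=
  le_trans (Set.encard_le_encard (show {i | some i ∈ T'} ⊆ {i | some i ∈ T} from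
    fun _ hi => h hi)) hT

namespace St

variable {G : Gr V E} {D : Set V} {I : Type} {α β : Option I → V} {L : Type u}

/-- nodes: vertices in letters on the distinguished route, and all other letters -/
noncomputable def pi (σ : St G D (G.In D) 63000 α β (CapT I) L) (v : V) : V ⊕ L :=
  if v ∈ D ∧ ¬ σ.Vis none (σ.l v) then Sum.inr (σ.l v) else Sum.inl v

/-- real edges together with the junctions of the other routes -/
def aug (σ : St G D (G.In D) 63000 α β (CapT I) L) : Gr V (E ⊕ I × ℕ) where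
  s x := Sum.elim G.s (fun p => (σ.r (some p.1)).w p.2) x
  t x := Sum.elim G.t (fun p => (σ.r (some p.1)).w' p.2) x

/-- the edges of the auxiliary finite multigraph -/
def NN (σ : St G D (G.In D) 63000 α β (CapT I) L) : Set (E ⊕ I × ℕ) :=
  {x | Sum.elim (fun g => (∃ i, g ∈ (σ.r (some i)).es) ∨ (g ∈ σ.free ∧ ¬ σ.Vis none (σ.l (G.s g)) ∧
      ¬ σ.Vis none (σ.l (G.t g)) ∧ σ.l (G.s g) ≠ σ.l (G.t g)))
    (fun p => p.2 ≤ (σ.r (some p.1)).n ∧ σ.Vis none (σ.l ((σ.r (some p.1)).w p.2)) ∧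
      (σ.r (some p.1)).w p.2 ≠ (σ.r (some p.1)).w' p.2) x}

/-- a highly connected node set containing the terminals; all other letters are anchored -/
def Anch (σ : St G D (G.In D) 63000 α β (CapT I) L) (S : Set V) : Prop :=
  σ.NN.Finite ∧ ∃ M : Set (V ⊕ L), (σ.aug.map σ.pi).EC 144 M σ.NN ∧ (∀ s ∈ S, σ.pi s ∈ M) ∧
    ∀ q ∈ σ.l '' D, ¬ σ.Vis none q → Sum.inr q ∈ M ∨
      ∃ y, σ.Vis none y ∧ (63000 : ℕ∞) ≤ (σ.btw q {y}).encard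

end St

/-- the conclusion of the two-colour lemma -/
def TCc (G : Gr V E) (κ : ℕ) (D : Set V) (a b : V) (z : Ch V) : Prop :=
  ∃ F1 F2, F1 ⊆ G.In D ∧ F2 ⊆ G.In D ∧ Disjoint F1 F2 ∧ G.PP κ (pt a + pt b) F1 ∧ G.Root F1 a ∧
    G.PP κ z F2 ∧ ∀ y ∈ D, G.Conn (F1 ∪ F2) a y

end defs

/-- hypergraph packing with reservations -/
def StHyp : Prop :=
  ∀ (T H : Type u) [Fintype T] [Fintype H] (r ν : ℕ) (Us Rv : H → Set T),
    (∀ (f : T → T) (Y : Finset T), r * ((Finset.univ.image f).card - 1) + ν * Y.card ≤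
      {h | (∃ a ∈ Us h, ∃ b ∈ Us h, f a ≠ f b) ∨ ∃ y ∈ Y, y ∈ Rv h}.ncard) →
    ∃ ch : H → Option (Fin r × T × T ⊕ T),
      (∀ h i a b, ch h = some (Sum.inl (i, a, b)) → a ∈ Us h ∧ b ∈ Us h) ∧
      (∀ h y, ch h = some (Sum.inr y) → y ∈ Rv h) ∧
      (∀ (i : Fin r) (B : Set T), B.Nonempty → Bᶜ.Nonempty →
        ∃ h a b, ch h = some (Sum.inl (i, a, b)) ∧ ¬ (a ∈ B ↔ b ∈ B)) ∧
      ∀ y, ν ≤ {h | ch h = some (Sum.inr y)}.ncard

def StMader : Prop :=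
  ∀ (V E : Type u) (G : Gr V E) (r : ℕ) (N : Set E) (S : Set V) (z : V)
    (c0 : E → Option (Fin r)), CH G r N S z c0 → Crit G r N S → TT G r N S →
    ∀ x, x ∉ S → G.dg N {x} ≠ 0 → G.dg N {x} ≠ 3 → Adm G r N S

def StLift : Prop :=
  ∀ (V E : Type u) (G : Gr V E) (r : ℕ) (N : Set E) (S : Set V) (z : V)
    (c0 : E → Option (Fin r)), CH G r N S z c0 → IH V E r N.ncard → Adm G r N S →
    ∃ c, CC G r N S z c0 c

def StTight : Prop :=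
  ∀ (V E : Type u) (G : Gr V E) (r : ℕ) (N : Set E) (S : Set V) (z : V)
    (c0 : E → Option (Fin r)), CH G r N S z c0 → IH V E r N.ncard → ¬ TT G r N S →
    ∃ c, CC G r N S z c0 c

def StBase : Prop :=
  ∀ (V E : Type u) (G : Gr V E) (r : ℕ) (N : Set E) (S : Set V) (z : V)
    (c0 : E → Option (Fin r)), CH G r N S z c0 → Crit G r N S →
    (∀ x, x ∉ S → G.dg N {x} = 0 ∨ G.dg N {x} = 3) → ∃ c, CC G r N S z c0 c

/-- the connector theorem -/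
def StCT : Prop :=
  ∀ (V E : Type u) (G : Gr V E) (r : ℕ) (N : Set E) (S : Set V), N.Finite → G.EC (72 * r) S N →
    ∃ C : Fin r → Finset E, (∀ i, (C i : Set E) ⊆ N) ∧ (Pairwise fun i i' => Disjoint (C i) (C i')) ∧
      (∀ i v, v ∉ S → G.bdy (C i) v = 0) ∧ ∀ i, ∀ x ∈ S, ∀ y ∈ S, G.Conn (C i) x y

/-- a connected subgraph with prescribed parities -/
def StCT2 : Prop :=
  ∀ (V E : Type u) (G : Gr V E) (N : Set E) (M : Set V) (z : Ch V) (a : V), N.Finite →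
    G.EC 144 M N → (∀ v, z v ≠ 0 → v ∈ M) → ev Set.univ z = 0 → a ∈ M →
    ∃ W : Finset E, (W : Set E) ⊆ N ∧ G.bdy W = z ∧ (∀ x ∈ M, G.Conn W a x) ∧ G.Root W a

/-- edge-disjoint real routes between given pairs -/
def StLink : Prop :=
  ∀ (V E : Type u) [Nonempty E] (G : Gr V E) (N : Set E) (S : Set V) (ι : Type) [Fintype ι]
    (c d : ι → V) (m : ℕ), N.Finite → G.EC (72 * m) S N → Fintype.card ι ≤ m →
    (∀ i, c i ∈ S ∧ d i ∈ S) → ∃ r : ∀ i, Rt G (c i) (d i), (∀ i, (r i).Real ∧ (r i).es ⊆ N) ∧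
      Pairwise fun i i' => Disjoint (r i).es (r i').es

/-- one real path and a highly connected family of real routes -/
def StFam : Prop :=
  ∀ (V E : Type u) [Nonempty E] (G : Gr V E) (l0 : ℕ) (N : Set E) (S : Set V) (a b : V),
    N.Finite → G.EC (72 * (2 * l0 + 1)) S N → a ∈ S → b ∈ S →
    ∃ (I : Type) (_ : Fintype I) (α β : Option I → V) (r : ∀ i, Rt G (α i) (β i)),
      α none = a ∧ β none = b ∧ (∀ i, α i ∈ S ∧ β i ∈ S) ∧ (∀ i, (r i).Real ∧ (r i).es ⊆ N) ∧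
      (Pairwise fun i i' => Disjoint (r i).es (r i').es) ∧
      ∀ U, Spl S U → (l0 : ℕ∞) ≤ {i : I | ¬ (α (some i) ∈ U ↔ β (some i) ∈ U)}.encard

/-- a set with a finite cut splits into finitely many regular regions -/
def StS : Prop :=
  ∀ (V E : Type u) (G : Gr V E) (κ : ℕ), G.Amb κ → ∀ A, (G.cut A).Finite →
    ∃ l : V → ℕ, (l '' A).Finite ∧ ∀ q, G.Reg κ (A ∩ l ⁻¹' {q})

def StFin : Prop :=
  ∀ (V E : Type u) (G : Gr V E) (j : ℕ) (S : Set V) (F : Set E), S.Finite → G.EC j S F →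
    ∃ N, N ⊆ F ∧ N.Finite ∧ G.EC j S N

/-- one demand in a cell -/
def StOne : Prop :=
  ∀ (V E : Type u) (G : Gr V E) (κ : ℕ), G.Amb κ → 0 < κ → ∀ X F, G.Cell 144 X F →
    ∀ z : Ch V, (∀ v, z v ≠ 0 → v ∈ X) → ev Set.univ z = 0 →
    ∃ F', F' ⊆ F ∧ G.PP κ z F' ∧ ∀ x ∈ X, ∀ y ∈ X, G.Conn F' x y

def StInit : Prop :=
  ∀ (V E : Type u) (G : Gr V E) (κ j : ℕ), G.Amb κ → j ≤ κ → ∀ (X : Set V) (F : Set E),
    (G.cut X).Finite → F ⊆ G.In X → (G.In X \ F).Finite →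
    ∀ (ι : Type) [Fintype ι] (a b : ι → V) (Cap : Set ι → Prop) (r : ∀ i, Rt G (a i) (b i)),
    Cap ∅ → (∀ i, a i ∈ X) → (∀ i, (r i).Real ∧ (r i).es ⊆ F) →
    (Pairwise fun i i' => Disjoint (r i).es (r i').es) → Nonempty (St G X F j a b Cap (V ⊕ ℕ))

def StMin : Prop :=
  ∀ (V E L : Type u) (G : Gr V E) (X : Set V) (F : Set E) (j : ℕ) (ι : Type) [Fintype ι]
    (a b : ι → V) (Cap : Set ι → Prop), (∀ T T', T' ⊆ T → Cap T → Cap T') →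
    Nonempty (St G X F j a b Cap L) → ∃ σ : St G X F j a b Cap L, σ.Good

def StCnt : Prop :=
  ∀ (V E L : Type u) (G : Gr V E) (X : Set V) (F : Set E) (j : ℕ) (ι : Type) [Fintype ι]
    (a b : ι → V) (Cap : Set ι → Prop), (∀ T T', T' ⊆ T → Cap T → Cap T') → 0 < j →
    ∀ σ : St G X F j a b Cap L, σ.Good → σ.Cnt

/-- boundedly many pairs in a cell -/
def StMR : Prop :=
  ∀ (V E : Type u) (G : Gr V E) (κ : ℕ), G.Amb κ → 144 ≤ κ → ∀ Y F, G.Cell 63000 Y F →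
    ∀ (ι : Type) (T : Finset ι) (c d : ι → V) (c0 d0 : V), T.card ≤ 144 → c0 ∈ Y → d0 ∈ Y →
    (∀ x ∈ T, c x ∈ Y ∧ d x ∈ Y) →
    ∃ F1 F2, F1 ⊆ F ∧ F2 ⊆ F ∧ Disjoint F1 F2 ∧ G.PP κ (pt c0 + pt d0) F1 ∧ G.Root F1 c0 ∧
      G.PP κ (∑ x ∈ T, (pt (c x) + pt (d x))) F2 ∧ (∀ x ∈ T, G.Conn F2 (c x) (d x)) ∧
      ∀ y ∈ Y, G.Conn F1 c0 y ∨ ∃ x ∈ T, G.Conn F2 (c x) y

def StAnch : Prop :=
  ∀ (V E L : Type u) (G : Gr V E) (κ : ℕ) (D : Set V) (I : Type) [Fintype I]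
    (α β : Option I → V) (S : Set V), 30000000 ≤ κ → G.Reg κ D →
    (∀ i, α i ∈ S ∧ β i ∈ S) →
    (∀ U, Spl S U → (144 : ℕ∞) ≤ {i : I | ¬ (α (some i) ∈ U ↔ β (some i) ∈ U)}.encard) →
    ∀ σ : St G D (G.In D) 63000 α β (CapT I) L, σ.Cnt → σ.Anch S

def StBuild : Prop :=
  ∀ (V E L : Type u) (G : Gr V E) (κ : ℕ) (D : Set V) (I : Type) [Fintype I]
    (α β : Option I → V) (S : Set V) (z : Ch V), G.Amb κ → 144 ≤ κ → S ⊆ D → α none ∈ S →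
    (∀ v, z v ≠ 0 → v ∈ S) → ev Set.univ z = 0 →
    ∀ σ : St G D (G.In D) 63000 α β (CapT I) L, σ.Good → σ.Anch S →
    TCc G κ D (α none) (β none) z

/-- the two-colour lemma -/
def StTC : Prop :=
  ∀ (V E : Type u) (G : Gr V E) (κ : ℕ), G.Amb κ → 30000000 ≤ κ → ∀ D, G.Reg κ D →
    ∀ a ∈ D, ∀ b ∈ D, ∀ z : Ch V, (∀ v, z v ≠ 0 → v ∈ D) → ev Set.univ z = 0 → TCc G κ D a b z

def StPath : Prop :=
  ∀ (V E : Type u) (G : Gr V E) (κ : ℕ), G.Amb κ → 30000000 ≤ κ → ∀ z F u w, G.PP κ z F →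
    G.Conn F u w → ∃ F1 F2, F1 ⊆ F ∧ F2 ⊆ F ∧ Disjoint F1 F2 ∧ G.PP κ (pt u + pt w) F1 ∧
      G.Root F1 u ∧ G.PP κ (z + (pt u + pt w)) F2 ∧ ∀ e ∈ F, G.Conn (F1 ∪ F2) (G.s e) (G.t e)

def StStep : Prop :=
  ∀ (V E : Type u) (G : Gr V E) (κ : ℕ), G.Amb κ → 30000000 ≤ κ → ∀ u v F, G.Job κ u v F →
    ∀ e ∈ F, ∃ p q F1 F2, G.Tch e p ∧ G.Tch e q ∧ G.Job κ u p F1 ∧ G.Job κ q v F2 ∧
      Disjoint F1 F2 ∧ e ∉ F1 ∧ e ∉ F2 ∧ F = F1 ∪ {e} ∪ F2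

def StLimit : Prop :=
  ∀ (V E : Type u) [Countable E] [Infinite E] (G : Gr V E) (LG : SimpleGraph E)
    (Job : V → V → Set E → Prop), G.LF → (∀ e f, LG.Adj e f ↔ e ≠ f ∧ G.Touch e f) →
    (∀ u v F, Job u v F → ∀ e ∈ F, ∃ p q F1 F2, G.Tch e p ∧ G.Tch e q ∧ Job u p F1 ∧ Job q v F2 ∧
      Disjoint F1 F2 ∧ e ∉ F1 ∧ e ∉ F2 ∧ F = F1 ∪ {e} ∪ F2) →
    (∀ u v F, Job u v F → G.Conn F u v ∧ G.FB F ∧ ∀ e ∈ F, ∃ x, G.Tch e x ∧ G.Conn F u x) →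
    (∃ x, Job x x Set.univ) → H94.HasHamiltonCircle LG

end Pool.Agent.MP_7f38c2_co.H28
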